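import Pool.Agent.Helper2.FixTaut

namespace Pool.Agent.Helper2.FixK

open TensorProduct

section general
variable {X : GSpace} [X.IsAction]

/-- naturality and invariance combined -/
lemma inv_nat (f : invariantFunctions X) (p q : FixPt X) (u : Mor p.toObj q.toObj)
    (h : q.g * u.g = u.g * p.g.map (u.φ : p.S →+* q.S)) : f.1 q = u.φ (f.1 p) := f.2 p q u h

omit [X.IsAction] in
lemma a_eq (p q : FixPt X) (u : Mor p.toObj q.toObj)
    (h : q.g * u.g = u.g * p.g.map (u.φ : p.S →+* q.S)) :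
    q.g.a = Units.map ((u.φ : p.S →+* q.S) : p.S →* q.S) p.g.a := by
  have h1 : q.g.a * u.g.a = u.g.a * Units.map ((u.φ : p.S →+* q.S) : p.S →* q.S) p.g.a :=
    congrArg B2.a h
  rw [mul_comm] at h1
  exact mul_left_cancel h1

end general

section torus
variable {S T : Type} [CommRing S] [CommRing T]

lemma rho_diag (a : Sˣ) (v : Fin 5 → S) (k : Fin 5) :
    rhoEquiv (⟨a, 0⟩ : B2 S) v k = ((a : S) ^ 2) ^ (k : ℕ) * v k := by
  rw [rhoEquiv_apply, rho, mul_zero, Matrix.mulVec, dotProduct, Finset.sum_eq_single k]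
  · simp [affMat]
  · intro j _ hj
    rcases lt_or_gt_of_ne hj with h | h
    · have : (0 : S) ^ ((k : ℕ) - (j : ℕ)) = 0 := zero_pow (Nat.sub_ne_zero_of_lt h)
      simp [affMat, this]
    · have : Nat.choose k j = 0 := Nat.choose_eq_zero_of_lt h
      simp [affMat, this]
  · simp

lemma uni_single (k : Fin 5) : Uni (Pi.single k 1 : Fin 5 → S) :=
  Uni.of_isUnit (i := k) (by simp)

lemma rho_single (a : Sˣ) (k : Fin 5) :
    rhoEquiv (⟨a, 0⟩ : B2 S) (Pi.single k 1) =
      ((a ^ (2 * (k : ℕ)) : Sˣ) : S) • (Pi.single k 1 : Fin 5 → S) := by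
  ext j
  rw [rho_diag]
  by_cases h : j = k
  · subst h; simp [pow_mul]
  · simp [Pi.single_eq_of_ne h]

variable [Algebra ℂ S] [Algebra ℂ T]

/-- the fixed point `e_k` of a torus element -/
def torusPt (a : Sˣ) (k : Fin 5) : FixPt P4 where
  S := S
  x := lineOf (Pi.single k 1) (uni_single k)
  g := ⟨a, 0⟩
  fix := fix_of_eigen _ _ _ _ (rho_single a k)

end torus

/-- The value of `chi` for a line bundle where `g` acts by a scalar. -/
lemma chi_scalar {X : GSpace} [X.IsAction] (E : EqVB X) (p : FixPt X) (B : DualB p.S (E.M p.toObj))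
    (hB : ∑ i, B.φ i (B.p i) = 1) (c : p.S) (hc : ∀ m, E.act p m = c • m) : E.chi p = c := by
  unfold EqVB.chi
  rw [ptr_indep _ B]
  unfold ptr
  simp_rw [hc, map_smul, ← Finset.smul_sum, hB]
  simp

lemma chi_taut (p : FixPt P4) (v : Fin 5 → p.S) (hv : Uni v) (hx : p.x = lineOf v hv) (c : p.S)
    (hc : rhoEquiv p.g v = c • v) : taut.chi p = c := by
  have hx1 : p.x.1 = Submodule.span p.S {v} := congrArg Subtype.val hx
  have hvm : v ∈ p.x.1 := by rw [hx1]; exact Submodule.mem_span_singleton_self v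
  obtain ⟨d, hd⟩ := hv
  let γ : (Fin 5 → p.S) →ₗ[p.S] p.S := ∑ i, d i • LinearMap.proj i
  have hγ : γ v = 1 := by simp [γ, LinearMap.sum_apply, hd]
  let B : DualB p.S (taut.M p.toObj) :=
    { n := 1
      p := fun _ => (⟨v, hvm⟩ : p.x.1)
      φ := fun _ => γ ∘ₗ Submodule.subtype _
      sum := by
        intro m
        rw [Fin.sum_univ_one]
        apply Subtype.ext
        show γ m.1 • v = m.1
        obtain ⟨s, hs⟩ := Submodule.mem_span_singleton.mp (hx1 ▸ m.2 : m.1 ∈ Submodule.span p.S {v})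
        rw [← hs, map_smul, hγ, smul_eq_mul, mul_one] }
  refine chi_scalar taut p B ?_ c ?_
  · rw [Fin.sum_univ_one]
    exact hγ
  · intro m
    apply Subtype.ext
    show rhoEquiv p.g (vmap _ m.1) = c • m.1
    obtain ⟨s, hs⟩ := Submodule.mem_span_singleton.mp (hx1 ▸ m.2 : m.1 ∈ Submodule.span p.S {v})
    have : vmap (p.mor.φ : p.S →+* p.S) m.1 = m.1 := rfl
    refine (congrArg (rhoEquiv p.g) this).trans ?_
    rw [← hs, map_smul, hc, smul_comm]

/-- The eigenvalue satisfies the characteristic equation. -/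
lemma eigen_eq {S : Type} [CommRing S] (g : B2 S) (v : Fin 5 → S) (hv : Uni v) (c : S)
    (hc : rhoEquiv g v = c • v) : ∏ k : Fin 5, (c - ((g.a : S) ^ 2) ^ (k : ℕ)) = 0 := by
  apply hv.eq_zero
  generalize hα : (g.a : S) ^ 2 = α at *
  generalize hβ : (g.a : S) * g.b = β at *
  have hrow : ∀ j, ∑ k, affMat α β j k * v k = c * v j := by
    intro j
    have := congrFun hc j
    rw [rhoEquiv_apply, rho, hα, hβ] at this
    exact this
  have r0 := hrow 0
  have r1 := hrow 1
  have r2 := hrow 2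
  have r3 := hrow 3
  have r4 := hrow 4
  simp only [affMat, Matrix.of_apply, Fin.sum_univ_five] at r0 r1 r2 r3 r4
  norm_num [Nat.choose] at r0 r1 r2 r3 r4
  simp only [Fin.prod_univ_five]
  have e0 : (c - 1) * v 0 = 0 := by linear_combination -r0
  have e1 : (c - 1) * (c - α) * v 1 = 0 := by
    linear_combination -(c - 1) * r1 + β * e0
  have e2 : (c - 1) * (c - α) * (c - α ^ 2) * v 2 = 0 := by
    linear_combination -(c - 1) * (c - α) * r2 + β ^ 2 * (c - α) * e0 + 2 * α * β * e1
  have e3 : (c - 1) * (c - α) * (c - α ^ 2) * (c - α ^ 3) * v 3 = 0 := by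
    linear_combination -(c - 1) * (c - α) * (c - α ^ 2) * r3 + β ^ 3 * (c - α) * (c - α ^ 2) * e0 +
      3 * α * β ^ 2 * (c - α ^ 2) * e1 + 3 * α ^ 2 * β * e2
  have e4 : (c - 1) * (c - α) * (c - α ^ 2) * (c - α ^ 3) * (c - α ^ 4) * v 4 = 0 := by
    linear_combination -(c - 1) * (c - α) * (c - α ^ 2) * (c - α ^ 3) * r4 +
      β ^ 4 * (c - α) * (c - α ^ 2) * (c - α ^ 3) * e0 +
      4 * α * β ^ 3 * (c - α ^ 2) * (c - α ^ 3) * e1 + 6 * α ^ 2 * β ^ 2 * (c - α ^ 3) * e2 +
      4 * α ^ 3 * β * e3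
  ext j
  simp only [Pi.smul_apply, smul_eq_mul, Pi.zero_apply]
  fin_cases j
  · simp; linear_combination (c - α) * (c - α ^ 2) * (c - α ^ 3) * (c - α ^ 4) * e0
  · simp; linear_combination (c - α ^ 2) * (c - α ^ 3) * (c - α ^ 4) * e1
  · simp; linear_combination (c - α ^ 3) * (c - α ^ 4) * e2
  · simp; linear_combination (c - α ^ 4) * e3
  · simp; linear_combination e4

/-- reduction to local rings -/
lemma local_reduction (p : FixPt P4) (s : p.S)
    (h : ∀ (J : Ideal p.S) [J.IsMaximal],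
      algebraMap p.S (Localization.AtPrime J) s = 0) : s = 0 :=
  eq_zero_of_localization s (fun J hJ => by haveI := hJ; exact h J)

/-- the localisation map as a `ℂ`-algebra homomorphism -/
noncomputable def locHom (S : Type) [CommRing S] [Algebra ℂ S] (J : Ideal S) [J.IsPrime] :
    S →ₐ[ℂ] Localization.AtPrime J := IsScalarTower.toAlgHom ℂ S (Localization.AtPrime J)

lemma locHom_apply (S : Type) [CommRing S] [Algebra ℂ S] (J : Ideal S) [J.IsPrime] (s : S) :
    locHom S J s = algebraMap S (Localization.AtPrime J) s := rfl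

lemma exists_line (p : FixPt P4) [IsLocalRing p.S] :
    ∃ (v : Fin 5 → p.S) (hv : Uni v) (c : p.S), p.x = lineOf v hv ∧ rhoEquiv p.g v = c • v := by
  obtain ⟨v, hv, h⟩ := p.x.2.exists_uni
  have hx : p.x = lineOf v hv := Subtype.ext h
  obtain ⟨c, hc⟩ := eigen_of_fix p.g v hv (by rw [← hx]; exact p.fix)
  exact ⟨v, hv, c, hx, hc⟩

/-- the function `(g, x) ↦ a` -/
noncomputable def aFun : invariantFunctions P4 := ⟨fun p => (p.g.a : p.S), by
  intro p q u hu
  show ((q.g.a : q.Sˣ) : q.S) = _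
  rw [a_eq p q u hu]
  rfl⟩

noncomputable def aInvFun : invariantFunctions P4 := ⟨fun p => ((p.g.a⁻¹ : p.Sˣ) : p.S), by
  intro p q u hu
  show ((q.g.a⁻¹ : q.Sˣ) : q.S) = _
  rw [a_eq p q u hu, ← map_inv]
  rfl⟩

noncomputable def aUnit : (invariantFunctions P4)ˣ where
  val := aFun
  inv := aInvFun
  val_inv := by
    apply Subtype.ext
    funext p
    exact p.g.a.mul_inv
  inv_val := by
    apply Subtype.ext
    funext p
    exact p.g.a.inv_mul

/-- the function `(g, L) ↦ tr(g | L)` -/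
noncomputable def xFun : invariantFunctions P4 := chiFun taut

lemma xFun_eq : ∏ k : Fin 5, (xFun - (aFun ^ 2) ^ (k : ℕ)) = 0 := by
  have key : ∀ p : FixPt P4, ∏ k : Fin 5, (taut.chi p - ((p.g.a : p.S) ^ 2) ^ (k : ℕ)) = 0 := by
    intro p
    apply local_reduction p
    intro J hJ
    haveI : IsLocalRing (p.map (locHom p.S J)).S := inferInstanceAs
      (IsLocalRing (Localization.AtPrime J))
    obtain ⟨v, hv, c, hx, hc⟩ := exists_line (p.map (locHom p.S J))
    have h1 := chi_taut _ v hv hx c hc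
    have h2 := eigen_eq _ v hv c hc
    rw [← h1] at h2
    have h3 : taut.chi (p.map (locHom p.S J)) = locHom p.S J (taut.chi p) :=
      inv_map (chiFun taut) p (locHom p.S J)
    rw [h3] at h2
    rw [← locHom_apply, map_prod]
    refine Eq.trans ?_ h2
    refine Finset.prod_congr rfl fun k _ => ?_
    rw [map_sub, map_pow, map_pow]
    rfl
  apply Subtype.ext
  funext p
  refine Eq.trans ?_ (key p)
  simp only [Fin.prod_univ_five]
  rfl

end Pool.Agent.Helper2.FixK
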