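import Pool.Agent.Helper2.FixA

namespace Pool.Agent.Helper2.FixK

open LaurentPolynomial

/-- the variable of the Laurent polynomial ring as a unit -/
noncomputable def tUnit : (ℂ[T;T⁻¹])ˣ where
  val := T 1
  inv := T (-1)
  val_inv := by rw [← T_add]; simp
  inv_val := by rw [← T_add]; simp

section
variable {S : Type*} [CommRing S] [Algebra ℂ S]

/-- the homomorphism `ℂ[t, t⁻¹] → S`, `t ↦ a` -/
noncomputable def liftL (S : Type*) [CommRing S] [Algebra ℂ S] (a : Sˣ) : ℂ[T;T⁻¹] →ₐ[ℂ] S :=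
  { eval₂ (algebraMap ℂ S) a with
    commutes' := fun r => by
      show eval₂ (algebraMap ℂ S) a (algebraMap ℂ ℂ[T;T⁻¹] r) = _
      rw [LaurentPolynomial.algebraMap_apply]
      exact eval₂_C _ _ r }

lemma liftL_T (a : Sˣ) : liftL S a (T 1) = a := by
  have := eval₂_T (algebraMap ℂ S) a 1
  rw [zpow_one] at this
  exact this

lemma vmap_single {S T : Type} [CommRing S] [CommRing T] (φ : S →+* T) (k : Fin 5) :
    vmap φ (Pi.single k 1) = Pi.single k 1 := by
  ext j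
  by_cases h : j = k
  · subst h; simp [vmap]
  · simp [vmap, Pi.single_eq_of_ne h]

end

/-- the evaluation at the `k`-th fixed point of the torus -/
noncomputable def ev (k : Fin 5) : invariantFunctions P4 →ₐ[ℂ] ℂ[T;T⁻¹] :=
  (Pi.evalAlgHom ℂ (fun p : FixPt P4 => p.S) (torusPt tUnit k)).comp
    (Subalgebra.val (invariantFunctions P4))

lemma ev_apply (k : Fin 5) (f : invariantFunctions P4) : ev k f = f.1 (torusPt tUnit k) := rfl

lemma torus_value {S T : Type} [CommRing S] [Algebra ℂ S] [CommRing T] [Algebra ℂ T]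
    (f : invariantFunctions P4) (a : Sˣ) (b : Tˣ) (φ : S →ₐ[ℂ] T) (h : φ a = b) (k : Fin 5) :
    f.1 (torusPt b k) = φ (f.1 (torusPt a k)) := by
  have h1 : P4.smul (1 : B2 T) (P4.map φ (lineOf (Pi.single k 1) (uni_single k))) =
      lineOf (Pi.single k 1) (uni_single k) := by
    rw [P4.one_smul, map_lineOf]
    exact lineOf_congr _ _ (vmap_single _ k)
  have h2 : (⟨b, 0⟩ : B2 T) * 1 = 1 * (⟨a, 0⟩ : B2 S).map (φ : S →+* T) := by
    rw [mul_one, one_mul]
    ext
    · exact h.symm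
    · show 0 = φ 0
      rw [map_zero]
  exact inv_nat f (torusPt a k) (torusPt b k) { φ := φ, g := (1 : B2 T), eq := h1 } h2

lemma torus_value' {S : Type} [CommRing S] [Algebra ℂ S] (f : invariantFunctions P4) (a : Sˣ)
    (k : Fin 5) : f.1 (torusPt a k) = liftL S a (ev k f) :=
  torus_value f tUnit a (liftL S a) (liftL_T a) k

/-- a function vanishing only where eigenvalues collide -/
noncomputable def dFun : invariantFunctions P4 :=
  (aFun ^ 2 - 1) * ((aFun ^ 2) ^ 2 - 1) * ((aFun ^ 2) ^ 3 - 1) * ((aFun ^ 2) ^ 4 - 1)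

lemma dFun_apply (p : FixPt P4) : dFun.1 p = ((p.g.a : p.S) ^ 2 - 1) *
    (((p.g.a : p.S) ^ 2) ^ 2 - 1) * (((p.g.a : p.S) ^ 2) ^ 3 - 1) *
    (((p.g.a : p.S) ^ 2) ^ 4 - 1) := rfl

lemma diag_local {S : Type} [CommRing S] [Algebra ℂ S] [IsLocalRing S] (a : Sˣ) (u : Fin 5 → S)
    (hu : Uni u) (hfix : P4.smul (⟨a, 0⟩ : B2 S) (lineOf u hu) = lineOf u hu)
    (hdiff : ∀ i j : Fin 5, i ≠ j → IsUnit (((a : S) ^ 2) ^ (j : ℕ) - ((a : S) ^ 2) ^ (i : ℕ)))
    (f : invariantFunctions P4) (hf : ∀ k, ev k f = 0) :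
    f.1 { S := S, x := lineOf u hu, g := ⟨a, 0⟩, fix := hfix } = 0 := by
  obtain ⟨c, hc⟩ := eigen_of_fix _ u hu hfix
  have hrow : ∀ j : Fin 5, ((a : S) ^ 2) ^ (j : ℕ) * u j = c * u j := by
    intro j
    rw [← rho_diag, hc]
    rfl
  obtain ⟨j, hj⟩ : ∃ j, IsUnit (u j) := by
    by_contra hcon
    push Not at hcon
    obtain ⟨d, hd⟩ := hu
    have h1 : (1 : S) ∈ IsLocalRing.maximalIdeal S := by
      rw [← hd]
      exact Ideal.sum_mem _ fun i _ => Ideal.mul_mem_left _ _ ((IsLocalRing.mem_maximalIdeal _).mpr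
        (hcon i))
    exact (IsLocalRing.mem_maximalIdeal (1 : S)).mp h1 isUnit_one
  have hcj : c = ((a : S) ^ 2) ^ (j : ℕ) := (hj.mul_right_cancel (hrow j)).symm
  have hzero : ∀ i, i ≠ j → u i = 0 := by
    intro i hi
    have h1 : (((a : S) ^ 2) ^ (j : ℕ) - ((a : S) ^ 2) ^ (i : ℕ)) * u i = 0 := by
      rw [sub_mul, hrow i, hcj, sub_self]
    exact (hdiff i j hi).mul_right_eq_zero.mp h1
  obtain ⟨w, hw⟩ := hj
  have huw : u = (w : S) • (Pi.single j 1 : Fin 5 → S) := by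
    ext i
    by_cases h : i = j
    · subst h; simp [hw]
    · simp [Pi.single_eq_of_ne h, hzero i h]
  have hx : lineOf (Pi.single j 1) (uni_single j) = lineOf u hu := lineOf_eq _ _ w huw
  have h1 : P4.smul (1 : B2 S) (P4.map (AlgHom.id ℂ S) (lineOf (Pi.single j 1) (uni_single j))) =
      lineOf u hu := by
    rw [P4.one_smul, P4.map_id, hx]
  have h2 : (⟨a, 0⟩ : B2 S) * 1 = 1 * (⟨a, 0⟩ : B2 S).map (AlgHom.id ℂ S : S →+* S) := by
    rw [mul_one, one_mul]
    exact (B2.map_id _).symm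
  have h3 := inv_nat f (torusPt a j) { S := S, x := lineOf u hu, g := ⟨a, 0⟩, fix := hfix }
    { φ := AlgHom.id ℂ S, g := (1 : B2 S), eq := h1 } h2
  rw [h3, torus_value' f a j, hf j, map_zero]
  exact map_zero _

lemma local_vanish (p : FixPt P4) [IsLocalRing p.S] (hD : IsUnit (dFun.1 p))
    (f : invariantFunctions P4) (hf : ∀ k, ev k f = 0) : f.1 p = 0 := by
  obtain ⟨v, hv, c, hx, hc⟩ := exists_line p
  rw [dFun_apply] at hD
  have hD4 := isUnit_of_mul_isUnit_right hD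
  have hD3 := isUnit_of_mul_isUnit_right (isUnit_of_mul_isUnit_left hD)
  have hD2 :=
    isUnit_of_mul_isUnit_right (isUnit_of_mul_isUnit_left (isUnit_of_mul_isUnit_left hD))
  have hD1 :=
    isUnit_of_mul_isUnit_left (isUnit_of_mul_isUnit_left (isUnit_of_mul_isUnit_left hD))
  have hαu : IsUnit ((p.g.a : p.S) ^ 2) := p.g.a.isUnit.pow 2
  -- the differences of the eigenvalues are units
  have hdiff : ∀ i j : Fin 5, i < j →
      IsUnit (((p.g.a : p.S) ^ 2) ^ (j : ℕ) - ((p.g.a : p.S) ^ 2) ^ (i : ℕ)) := by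
    intro i j hij
    have h1 : ((p.g.a : p.S) ^ 2) ^ (j : ℕ) - ((p.g.a : p.S) ^ 2) ^ (i : ℕ) =
        ((p.g.a : p.S) ^ 2) ^ (i : ℕ) * (((p.g.a : p.S) ^ 2) ^ ((j : ℕ) - (i : ℕ)) - 1) := by
      rw [mul_sub, ← pow_add, mul_one]
      congr 2
      omega
    rw [h1]
    refine (hαu.pow _).mul ?_
    have h2 : (j : ℕ) - (i : ℕ) = 1 ∨ (j : ℕ) - (i : ℕ) = 2 ∨ (j : ℕ) - (i : ℕ) = 3 ∨
      (j : ℕ) - (i : ℕ) = 4 := by omega
    rcases h2 with h | h | h | h <;> rw [h]
    · rwa [pow_one]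
    · exact hD2
    · exact hD3
    · exact hD4
  have hdiff' : ∀ i j : Fin 5, i ≠ j →
      IsUnit (((p.g.a : p.S) ^ 2) ^ (j : ℕ) - ((p.g.a : p.S) ^ 2) ^ (i : ℕ)) := by
    intro i j hij
    rcases lt_or_gt_of_ne hij with h | h
    · exact hdiff i j h
    · have := (hdiff j i h).neg
      rwa [neg_sub] at this
  -- conjugate to a diagonal matrix
  obtain ⟨w, hw⟩ := hD1
  let s : p.S := (p.g.a : p.S) * p.g.b * ↑w⁻¹
  have hs : s * ((p.g.a : p.S) - ↑p.g.a⁻¹) = p.g.b := by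
    have h1 : (p.g.a : p.S) * ((p.g.a : p.S) - ↑p.g.a⁻¹) = w := by
      rw [mul_sub, Units.mul_inv, hw, sq]
    calc s * ((p.g.a : p.S) - ↑p.g.a⁻¹)
        = p.g.b * ↑w⁻¹ * ((p.g.a : p.S) * ((p.g.a : p.S) - ↑p.g.a⁻¹)) := by ring
      _ = p.g.b := by rw [h1, mul_assoc, Units.inv_mul, mul_one]
  let k : B2 p.S := ⟨1, s⟩
  have hk : (⟨p.g.a, 0⟩ : B2 p.S) * k = k * p.g := by
    ext
    · show ((p.g.a * 1 : p.Sˣ) : p.S) = ((1 * p.g.a : p.Sˣ) : p.S)
      rw [one_mul, mul_one]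
    · show (p.g.a : p.S) * s + 0 * _ = ((1 : p.Sˣ) : p.S) * p.g.b + s * ↑p.g.a⁻¹
      simp only [zero_mul, add_zero, Units.val_one, one_mul]
      linear_combination hs
  have hfix : P4.smul (⟨p.g.a, 0⟩ : B2 p.S) (lineOf (rhoEquiv k v) (hv.rho k)) =
      lineOf (rhoEquiv k v) (hv.rho k) := by
    rw [← smul_lineOf k v hv, ← P4.mul_smul, hk, P4.mul_smul, ← hx, p.fix]
  have h1 := diag_local p.g.a (rhoEquiv k v) (hv.rho k) hfix hdiff' f hf
  have h2 : P4.smul k (P4.map (AlgHom.id ℂ p.S) p.x) = lineOf (rhoEquiv k v) (hv.rho k) := by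
    rw [P4.map_id, hx, smul_lineOf]
  have h3 : (⟨p.g.a, 0⟩ : B2 p.S) * k = k * p.g.map (AlgHom.id ℂ p.S : p.S →+* p.S) := by
    rw [hk]
    exact congrArg (k * ·) (B2.map_id _).symm
  have h4 := inv_nat f p
    { S := p.S, x := lineOf (rhoEquiv k v) (hv.rho k), g := ⟨p.g.a, 0⟩, fix := hfix }
    { φ := AlgHom.id ℂ p.S, g := k, eq := h2 } h3
  exact h4.symm.trans h1

lemma eigen_unit {S : Type} [CommRing S] (g : B2 S) (v : Fin 5 → S) (hv : Uni v) (c : S)
    (hc : rhoEquiv g v = c • v) : IsUnit c := by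
  obtain ⟨d, hd⟩ := hv
  have h1 : v = c • rhoEquiv g⁻¹ v := by
    rw [← map_smul, ← hc, ← rhoEquiv_mul, inv_mul_cancel, rhoEquiv_one]
  refine IsUnit.of_mul_eq_one (∑ i, d i * rhoEquiv g⁻¹ v i) ?_
  rw [Finset.mul_sum, ← hd]
  refine Finset.sum_congr rfl fun i _ => ?_
  have := congrFun h1 i
  simp only [Pi.smul_apply, smul_eq_mul] at this
  conv_rhs => rw [this]
  ring

/-- a function on the fixed point scheme vanishing at all torus fixed points is killed by a power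
of `dFun` -/
lemma pow_kill (f : invariantFunctions P4) (hf : ∀ k, ev k f = 0) : ∃ N : ℕ, dFun ^ N * f = 0 := by
  by_contra hcon
  push Not at hcon
  have h1 : ∀ N : ℕ, ∃ p : FixPt P4, (dFun ^ N * f).1 p ≠ 0 := by
    intro N
    by_contra h
    push Not at h
    exact hcon N (Subtype.ext (funext h))
  have h2 : ∀ N : ℕ, ∃ (p : FixPt P4) (v : Fin 5 → p.S) (hv : Uni v) (c : p.Sˣ),
      p.x = lineOf v hv ∧ rhoEquiv p.g v = (c : p.S) • v ∧ (dFun ^ N * f).1 p ≠ 0 := by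
    intro N
    obtain ⟨p, hp⟩ := h1 N
    have h3 : ∃ (J : Ideal p.S) (_ : J.IsMaximal),
        algebraMap p.S (Localization.AtPrime J) ((dFun ^ N * f).1 p) ≠ 0 := by
      by_contra h
      push Not at h
      exact hp (local_reduction p _ (fun J hJ => h J hJ))
    obtain ⟨J, hJ, h3⟩ := h3
    haveI : IsLocalRing (p.map (locHom p.S J)).S := inferInstanceAs
      (IsLocalRing (Localization.AtPrime J))
    obtain ⟨v, hv, c, hx, hc⟩ := exists_line (p.map (locHom p.S J))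
    have hcu : IsUnit c := eigen_unit _ v hv c hc
    obtain ⟨c, rfl⟩ := hcu
    refine ⟨p.map (locHom p.S J), v, hv, c, hx, hc, ?_⟩
    have h4 : (dFun ^ N * f).1 (p.map (locHom p.S J)) = locHom p.S J ((dFun ^ N * f).1 p) :=
      inv_map (dFun ^ N * f) p (locHom p.S J)
    rw [h4]
    exact h3
  choose q v hv c hx hc hne using h2
  have hv' := hv
  choose d hd using hv'
  let P : Type := ∀ N : ℕ, (q N).S
  let g : B2 P := ⟨MulEquiv.piUnits.symm (fun N => (q N).g.a), fun N => (q N).g.b⟩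
  let V : Fin 5 → P := fun i N => v N i
  have hV : Uni V := ⟨fun i N => d N i, by
    funext N
    rw [Finset.sum_apply]
    exact hd N⟩
  let C : Pˣ := MulEquiv.piUnits.symm c
  have hgN : ∀ N, g.map (Pi.evalRingHom (fun N => (q N).S) N) = (q N).g := fun N => by
    ext <;> rfl
  have hC : rhoEquiv g V = (C : P) • V := by
    funext i
    funext N
    have h3 : rhoEquiv g V i N = vmap (Pi.evalRingHom (fun N => (q N).S) N) (rhoEquiv g V) i := rfl
    rw [h3, vmap_rho, hgN]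
    exact congrFun (hc N) i
  let pt : FixPt P4 := { S := P, x := lineOf V hV, g := g, fix := fix_of_eigen g V hV C hC }
  have hval : ∀ (F : invariantFunctions P4) (N : ℕ), F.1 (q N) = F.1 pt N := by
    intro F N
    have h4 : P4.smul (1 : B2 (q N).S) (P4.map (Pi.evalAlgHom ℂ (fun N => (q N).S) N)
        (lineOf V hV)) = (q N).x := by
      rw [P4.one_smul, map_lineOf, hx N]
      rfl
    have h5 : (q N).g * 1 = 1 * g.map (Pi.evalAlgHom ℂ (fun N => (q N).S) N : P →+* (q N).S) := by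
      rw [mul_one, one_mul]
      exact (hgN N).symm
    exact inv_nat F pt (q N) { φ := Pi.evalAlgHom ℂ (fun N => (q N).S) N, g := 1, eq := h4 } h5
  -- the annihilator of `f(pt)`
  let I : Ideal P := LinearMap.ker (LinearMap.toSpanSingleton P P (f.1 pt))
  have hI : ∀ s : P, s ∈ I ↔ s * f.1 pt = 0 := fun s => by
    rw [LinearMap.mem_ker, LinearMap.toSpanSingleton_apply, smul_eq_mul]
  have hrad : dFun.1 pt ∉ I.radical := by
    rintro ⟨N, hN⟩
    rw [hI] at hN
    apply hne N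
    rw [hval]
    exact congrFun hN N
  rw [Ideal.radical_eq_sInf, Submodule.mem_sInf] at hrad
  push Not at hrad
  obtain ⟨(J : Ideal P), ⟨hIJ, hJ⟩, hDJ⟩ := hrad
  haveI := hJ
  haveI : IsLocalRing (pt.map (locHom P J)).S := inferInstanceAs
      (IsLocalRing (Localization.AtPrime J))
  have h6 := local_vanish (pt.map (locHom P J)) (by
    have : dFun.1 (pt.map (locHom P J)) = locHom P J (dFun.1 pt) := inv_map dFun pt (locHom P J)
    rw [this]
    exact IsLocalization.map_units (Localization.AtPrime J) (⟨_, hDJ⟩ : Ideal.primeCompl J)) f hf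
  have h7 : f.1 (pt.map (locHom P J)) = locHom P J (f.1 pt) := inv_map f pt (locHom P J)
  rw [h7, locHom_apply] at h6
  obtain ⟨s, hs⟩ := (IsLocalization.map_eq_zero_iff (Ideal.primeCompl J) (Localization.AtPrime J) _).mp h6
  exact s.2 (hIJ ((hI _).mpr hs))

end Pool.Agent.Helper2.FixK
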