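import Pool.Agent.Helper2.FixB

namespace Pool.Agent.Helper2.FixK

open LaurentPolynomial

/-- the character `a` of `B_2` as a one-dimensional representation -/
def charRep : Rep 1 where
  mat g := Matrix.of fun _ _ => (g.a : _)
  mat_one := by
    intro S _ _
    ext i j
    fin_cases i; fin_cases j
    simp
  mat_mul := by
    intro S _ _ g h
    ext i j
    fin_cases i; fin_cases j
    simp [Matrix.mul_apply]
  mat_map := by
    intro S T _ _ _ _ φ g
    ext i j
    fin_cases i; fin_cases j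
    simp

/-- the line bundle on `ℙ⁴` given by the character `a` -/
noncomputable def charBundle : EqVB P4 where
  M o := o.S
  tr u s := (u.g.a : _) * u.φ s
  tr_base := by
    intro o p u
    refine ⟨fun m n => ?_, fun s m => ?_, ?_⟩
    · show (u.g.a : p.S) * u.φ (m + n) = (u.g.a : p.S) * u.φ m + (u.g.a : p.S) * u.φ n
      rw [map_add, mul_add]
    · show (u.g.a : p.S) * u.φ (s * m) = u.φ s * ((u.g.a : p.S) * u.φ m)
      rw [map_mul]
      ring
    intro Q _ _ f hf
    refine ⟨LinearMap.toSpanSingleton p.S Q ((↑u.g.a⁻¹ : p.S) • f 1), ?_, ?_⟩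
    · intro m
      have := hf m 1
      simp only [smul_eq_mul, mul_one] at this
      rw [LinearMap.toSpanSingleton_apply, smul_smul, this]
      congr 1
      rw [mul_comm, ← mul_assoc, Units.inv_mul, one_mul]
      rfl
    · intro f' h'
      ext
      have h1 := h' 1
      simp only [map_one, mul_one] at h1
      rw [LinearMap.toSpanSingleton_apply, one_smul, ← h1, ← map_smul, smul_eq_mul, Units.inv_mul]
  tr_one := by
    intro o u h1 h2 m
    rw [h1, h2]
    show ((1 : o.S) : _) * m = m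
    rw [one_mul]
  tr_mul := by
    intro o p q v u w h1 h2 m
    rw [h1, h2]
    show (((v.g.a * Units.map (v.φ : p.S →* q.S) u.g.a : q.Sˣ)) : q.S) * v.φ (u.φ m) =
      (v.g.a : q.S) * v.φ ((u.g.a : p.S) * u.φ m)
    rw [map_mul]
    push_cast
    rw [mul_assoc]
    rfl

lemma charBundle_pullback : IsPullback charBundle charRep := by
  refine ⟨fun o m _ => m, fun o => ⟨fun m m' => rfl, fun s m => rfl, ?_⟩, fun o p u m => ?_⟩
  · constructor
    · intro m m' h
      exact congrFun h 0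
    · intro f
      refine ⟨f 0, ?_⟩
      ext i
      fin_cases i
      rfl
  · ext i
    show (u.g.a : p.S) * u.φ m = _
    simp [charRep, Matrix.mulVec, dotProduct]

lemma chi_charBundle (p : FixPt P4) : charBundle.chi p = p.g.a := by
  rw [chi_pullback charBundle_pullback]
  simp [charRep, Matrix.trace]

lemma compat_a {ψ : KZero P4 → invariantFunctions P4} (hψ : Compatible ψ) :
    ψ (cls charBundle) = aFun := by
  apply Subtype.ext
  funext p
  rw [hψ 1 charRep charBundle charBundle_pullback p]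
  exact (chi_pullback charBundle_pullback p).symm.trans (chi_charBundle p)

lemma kappa_a : kappa P4 (cls charBundle) = aFun := by
  rw [kappa_cls]
  apply Subtype.ext
  funext p
  exact chi_charBundle p

/-- `ℂ[a, a⁻¹] → A` -/
noncomputable def iotaA : ℂ[T;T⁻¹] →ₐ[ℂ] invariantFunctions P4 :=
  liftL (invariantFunctions P4) aUnit

lemma iotaA_T : iotaA (T 1) = aFun := liftL_T aUnit

lemma algHom_eq_id (χ : ℂ[T;T⁻¹] →ₐ[ℂ] ℂ[T;T⁻¹]) (h : χ (T 1) = T 1) (g : ℂ[T;T⁻¹]) :
    χ g = g := by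
  have h1 : ∀ n : ℕ, χ (T n) = T n := by
    intro n
    induction n with
    | zero => simp
    | succ n ih => push_cast; rw [T_add, map_mul, ih, h]
  have h2 : ∀ n : ℕ, χ (T (-n)) = T (-n) := by
    intro n
    have h3 : χ (T (-n)) * T n = T (-n) * T n := by
      conv_lhs => rw [← h1 n]
      rw [← map_mul, ← T_add]
      simp
    have h4 : IsUnit (T (n : ℤ) : ℂ[T;T⁻¹]) := isUnit_T _
    exact h4.mul_right_cancel h3
  induction g using LaurentPolynomial.induction_on' with
  | add p q hp hq => rw [map_add, hp, hq]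
  | C_mul_T n a =>
    rw [map_mul]
    have h3 : χ (C a) = C a := by
      have := χ.commutes a
      rwa [LaurentPolynomial.algebraMap_apply] at this
    rw [h3]
    congr 1
    obtain ⟨m, rfl | rfl⟩ := n.eq_nat_or_neg
    · exact h1 m
    · exact h2 m

lemma section_id (φ : invariantFunctions P4 →ₐ[ℂ] ℂ[T;T⁻¹]) (h : φ aFun = T 1)
    (g : ℂ[T;T⁻¹]) : φ (iotaA g) = g :=
  algHom_eq_id (φ.comp iotaA) (by rw [AlgHom.comp_apply, iotaA_T, h]) g

lemma ev_a (k : Fin 5) : ev k aFun = T 1 := rfl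

lemma ev_x (k : Fin 5) : ev k xFun = (T 1 ^ 2) ^ (k : ℕ) := by
  have h := chi_taut (torusPt tUnit k) (Pi.single k 1) (uni_single k) rfl
    ((tUnit ^ (2 * (k : ℕ)) : (ℂ[T;T⁻¹])ˣ) : ℂ[T;T⁻¹]) (rho_single tUnit k)
  refine Eq.trans h ?_
  rw [Units.val_pow_eq_pow_val, pow_mul]
  rfl

/-- powers of `t` are distinct -/
lemma tpow_ne {m n : ℕ} (h : m ≠ n) : ((T 1 : ℂ[T;T⁻¹]) ^ 2) ^ m - ((T 1 : ℂ[T;T⁻¹]) ^ 2) ^ n ≠ 0 := by
  intro h0
  have two : (2 : ℂ) ≠ 0 := two_ne_zero
  have h1 := congrArg (liftL ℂ (Units.mk0 2 two)) h0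
  rw [map_sub, map_pow, map_pow, map_pow, map_pow, liftL_T, map_zero, sub_eq_zero] at h1
  simp only [Units.val_mk0] at h1
  rw [← pow_mul, ← pow_mul] at h1
  have h2 : (2 : ℕ) ^ (2 * m) = 2 ^ (2 * n) := by exact_mod_cast h1
  have h3 := Nat.pow_right_injective le_rfl h2
  omega

/-- Classification of the homomorphisms to the Laurent polynomial ring over `ℂ[a, a⁻¹]`. -/
lemma classify (φ : invariantFunctions P4 →ₐ[ℂ] ℂ[T;T⁻¹]) (h : φ aFun = T 1) :
    ∃ k, φ = ev k := by
  have h1 : ∏ k : Fin 5, (φ xFun - (T 1 ^ 2) ^ (k : ℕ)) = 0 := by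
    have := congrArg φ xFun_eq
    rw [map_prod, map_zero] at this
    rw [← this]
    refine Finset.prod_congr rfl fun k _ => ?_
    rw [map_sub, map_pow, map_pow, h]
  rw [Finset.prod_eq_zero_iff] at h1
  obtain ⟨k, -, hk⟩ := h1
  rw [sub_eq_zero] at hk
  refine ⟨k, AlgHom.ext fun f => ?_⟩
  let w : invariantFunctions P4 :=
    (∏ j ∈ Finset.univ.erase k, (xFun - (aFun ^ 2) ^ (j : ℕ))) * (f - iotaA (ev k f))
  have hw : ∀ j, ev j w = 0 := by
    intro j
    rw [map_mul]
    by_cases hj : j = k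
    · subst hj
      rw [map_sub, section_id _ (ev_a j), sub_self, mul_zero]
    · rw [map_prod, Finset.prod_eq_zero (i := j), zero_mul]
      · exact Finset.mem_erase.mpr ⟨hj, Finset.mem_univ _⟩
      · rw [map_sub, map_pow, map_pow, ev_a, ev_x, sub_self]
  obtain ⟨N, hN⟩ := pow_kill w hw
  have h2 := congrArg φ hN
  rw [map_mul, map_zero, map_pow, map_mul, map_prod, map_sub, section_id φ h] at h2
  have hD : φ dFun ≠ 0 := by
    have e1 : (aFun ^ 2 - 1 : invariantFunctions P4) = (aFun ^ 2) ^ 1 - (aFun ^ 2) ^ 0 := by ring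
    have e : φ dFun = ((T 1 ^ 2) ^ 1 - (T 1 ^ 2) ^ 0) * ((T 1 ^ 2) ^ 2 - (T 1 ^ 2) ^ 0) *
        ((T 1 ^ 2) ^ 3 - (T 1 ^ 2) ^ 0) * ((T 1 ^ 2) ^ 4 - (T 1 ^ 2) ^ 0) := by
      unfold dFun
      simp only [map_mul, map_sub, map_pow, map_one, h, pow_zero, pow_one]
    rw [e]
    exact mul_ne_zero (mul_ne_zero (mul_ne_zero (tpow_ne (by norm_num)) (tpow_ne (by norm_num)))
      (tpow_ne (by norm_num))) (tpow_ne (by norm_num))
  have hP : ∏ j ∈ Finset.univ.erase k, φ (xFun - (aFun ^ 2) ^ (j : ℕ)) ≠ 0 := by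
    rw [Finset.prod_ne_zero_iff]
    intro j hj
    rw [map_sub, map_pow, map_pow, h, hk]
    exact tpow_ne (by
      intro h3
      exact (Finset.mem_erase.mp hj).1 (Fin.ext h3).symm)
  have h3 := (mul_eq_zero.mp h2).resolve_left (pow_ne_zero N hD)
  have h4 := (mul_eq_zero.mp h3).resolve_left hP
  exact sub_eq_zero.mp h4

/-- The abstract reduction: a linear functional on the invariant functions which only depends on
the values at the torus fixed points, vanishes on the image of `kappa` but is not zero, excludes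
a compatible isomorphism. -/
theorem no_iso (δ : invariantFunctions P4 → ℂ)
    (hδ1 : ∀ f g, (∀ k, ev k f = ev k g) → δ f = δ g) (hδ2 : ∀ a, δ (kappa P4 a) = 0)
    (h : invariantFunctions P4) (hh : δ h ≠ 0) :
    ¬ ∃ ψ : KZero P4 ≃ₐ[ℂ] invariantFunctions P4, Compatible ψ := by
  rintro ⟨ψ, hψ⟩
  let θ : invariantFunctions P4 →ₐ[ℂ] invariantFunctions P4 :=
    (kappa P4).comp (ψ.symm : invariantFunctions P4 →ₐ[ℂ] KZero P4)
  have hθa : θ aFun = aFun := by
    have h1 := compat_a (ψ := ψ) hψ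
    show kappa P4 (ψ.symm aFun) = aFun
    rw [← h1, AlgEquiv.symm_apply_apply, kappa_a, h1]
  have hθx : θ (ψ (cls taut)) = xFun := by
    show kappa P4 (ψ.symm (ψ (cls taut))) = xFun
    rw [AlgEquiv.symm_apply_apply, kappa_cls]
    rfl
  have hcl : ∀ j, ∃ k, (ev j).comp θ = ev k := fun j => classify _ (by
    rw [AlgHom.comp_apply, hθa, ev_a])
  choose π hπ using hcl
  have hπ' : ∀ j f, ev j (θ f) = ev (π j) f := fun j f => by
    rw [← hπ j]; rfl
  have hinj : Function.Injective π := by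
    intro j k hjk
    have h1 : ev j xFun = ev k xFun := by rw [← hθx, hπ', hπ', hjk]
    rw [ev_x, ev_x, ← sub_eq_zero] at h1
    by_contra hne
    exact tpow_ne (fun h2 => hne (Fin.ext h2)) h1
  let σ : Equiv.Perm (Fin 5) := Equiv.ofBijective π (Finite.injective_iff_bijective.mp hinj)
  have hiter : ∀ (n : ℕ) (j : Fin 5) (f : invariantFunctions P4),
      ev j ((θ^[n]) f) = ev ((σ ^ n) j) f := by
    intro n
    induction n with
    | zero => intro j f; rfl
    | succ n ih =>
      intro j f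
      rw [Function.iterate_succ_apply, ih, hπ', pow_succ']
      rfl
  have hcard : σ ^ Fintype.card (Equiv.Perm (Fin 5)) = 1 := pow_card_eq_one
  obtain ⟨m, hm⟩ : ∃ m, Fintype.card (Equiv.Perm (Fin 5)) = m + 1 :=
    Nat.exists_eq_succ_of_ne_zero Fintype.card_ne_zero
  apply hh
  rw [hm] at hcard
  have h1 : δ h = δ ((θ^[m + 1]) h) := hδ1 _ _ fun k => by
    rw [hiter, hcard]; rfl
  rw [h1, Function.iterate_succ_apply']
  exact hδ2 _

end Pool.Agent.Helper2.FixK
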