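import Mathlib

/-!
Functors of points, equivariant vector bundles, equivariant K-theory and invariant functions on the
fixed point scheme, for the group `B_2` of upper triangular matrices in `SL_2`.
-/

namespace Pool.Agent.Helper2.FixK

/-- The group `B_2(S)` of matrices `[[a, b], [0, a⁻¹]]` over `S`. -/
@[ext] structure B2 (S : Type) [CommRing S] where
  a : Sˣ
  b : S

namespace B2

variable {S T : Type} [CommRing S] [CommRing T]

/-- matrix multiplication of `[[a, b], [0, a⁻¹]]` and `[[a', b'], [0, a'⁻¹]]` -/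
instance : Mul (B2 S) := ⟨fun g h => ⟨g.a * h.a, g.a * h.b + g.b * ↑h.a⁻¹⟩⟩
instance : One (B2 S) := ⟨⟨1, 0⟩⟩

/-- functoriality of `B_2` -/
def map (φ : S →+* T) (g : B2 S) : B2 T := ⟨Units.map φ g.a, φ g.b⟩

end B2

/-- The data of the functor of points of a `ℂ`-scheme with an action of the group scheme `B_2`. -/
structure GSpace where
  pts : (S : Type) → [CommRing S] → [Algebra ℂ S] → Type
  map : {S T : Type} → [CommRing S] → [Algebra ℂ S] → [CommRing T] → [Algebra ℂ T] →
    (S →ₐ[ℂ] T) → pts S → pts T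
  smul : {S : Type} → [CommRing S] → [Algebra ℂ S] → B2 S → pts S → pts S

/-- `X` is a functor on which `B_2` acts. -/
class GSpace.IsAction (X : GSpace) : Prop where
  map_id : ∀ {S : Type} [CommRing S] [Algebra ℂ S] (x : X.pts S),
    X.map (AlgHom.id ℂ S) x = x
  map_comp : ∀ {S T U : Type} [CommRing S] [Algebra ℂ S] [CommRing T] [Algebra ℂ T]
    [CommRing U] [Algebra ℂ U] (ψ : T →ₐ[ℂ] U) (φ : S →ₐ[ℂ] T) (x : X.pts S),
    X.map (ψ.comp φ) x = X.map ψ (X.map φ x)
  one_smul : ∀ {S : Type} [CommRing S] [Algebra ℂ S] (x : X.pts S), X.smul 1 x = x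
  mul_smul : ∀ {S : Type} [CommRing S] [Algebra ℂ S] (g h : B2 S) (x : X.pts S),
    X.smul (g * h) x = X.smul g (X.smul h x)
  map_smul : ∀ {S T : Type} [CommRing S] [Algebra ℂ S] [CommRing T] [Algebra ℂ T]
    (φ : S →ₐ[ℂ] T) (g : B2 S) (x : X.pts S),
    X.map φ (X.smul g x) = X.smul (g.map φ) (X.map φ x)

/-- A `ℂ`-algebra `S` with an `S`-point `x` of `X`. -/
structure Obj (X : GSpace) where
  S : Type
  [ring : CommRing S]
  [alg : Algebra ℂ S]
  x : X.pts S

attribute [instance] Obj.ring Obj.alg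

/-- A morphism `(S, x) → (T, y)`: a homomorphism `φ : S → T` and `g ∈ B_2(T)` with
`y = g • φ(x)`. -/
structure Mor {X : GSpace} (o p : Obj X) where
  φ : o.S →ₐ[ℂ] p.S
  g : B2 p.S
  eq : X.smul g (X.map φ o.x) = p.x

/-- `f : M → N` is semilinear with respect to `φ : S → T` and exhibits `N` as the base change of
`M`. -/
def IsBaseChangeMap {S T M N : Type} [CommRing S] [CommRing T] [AddCommGroup M] [Module S M]
    [AddCommGroup N] [Module T N] (φ : S →+* T) (f : M → N) : Prop :=
  (∀ m m', f (m + m') = f m + f m') ∧ (∀ (s : S) (m : M), f (s • m) = φ s • f m) ∧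
  ∀ (Q : Type) [AddCommGroup Q] [Module T Q] (h : M →+ Q), (∀ (s : S) m, h (s • m) = φ s • h m) →
    ∃! h' : N →ₗ[T] Q, ∀ m, h' (f m) = h m

/-- A `B_2`-equivariant vector bundle on `X`: a finitely generated projective `S`-module for each
`S`-point of `X`, compatible with base change and the action of `B_2`. -/
structure EqVB (X : GSpace) where
  M : Obj X → Type
  [acg : ∀ o, AddCommGroup (M o)]
  [mod : ∀ o, Module o.S (M o)]
  [fin : ∀ o, Module.Finite o.S (M o)]
  [proj : ∀ o, Module.Projective o.S (M o)]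
  tr : ∀ {o p : Obj X}, Mor o p → M o → M p
  tr_base : ∀ {o p : Obj X} (u : Mor o p), IsBaseChangeMap (u.φ : o.S →+* p.S) (tr u)
  tr_one : ∀ {o : Obj X} (u : Mor o o), u.φ = AlgHom.id ℂ o.S → u.g = 1 → ∀ m, tr u m = m
  tr_mul : ∀ {o p q : Obj X} (v : Mor p q) (u : Mor o p) (w : Mor o q), w.φ = v.φ.comp u.φ →
    w.g = v.g * u.g.map v.φ → ∀ m, tr w m = tr v (tr u m)

attribute [instance] EqVB.acg EqVB.mod EqVB.fin EqVB.proj

/-- `0 → M' → M → M'' → 0` is a short exact sequence of `S`-modules. -/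
def IsShortExactMaps (S : Type) {M' M M'' : Type} [CommRing S] [AddCommGroup M'] [Module S M']
    [AddCommGroup M] [Module S M] [AddCommGroup M''] [Module S M''] (i : M' → M) (q : M → M'') :
    Prop :=
  ∃ (i' : M' →ₗ[S] M) (q' : M →ₗ[S] M''), (∀ m, i' m = i m) ∧ (∀ m, q' m = q m) ∧
    Function.Injective i' ∧ Function.Exact i' q' ∧ Function.Surjective q'

/-- `0 → E' → E → E'' → 0` is a short exact sequence of equivariant vector bundles. -/
def IsShortExact {X : GSpace} (E' E E'' : EqVB X) : Prop :=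
  ∃ (i : ∀ o, E'.M o → E.M o) (q : ∀ o, E.M o → E''.M o),
    (∀ (o p : Obj X) (u : Mor o p) m, i p (E'.tr u m) = E.tr u (i o m)) ∧
    (∀ (o p : Obj X) (u : Mor o p) m, q p (E.tr u m) = E''.tr u (q o m)) ∧
    ∀ o : Obj X, IsShortExactMaps o.S (i o) (q o)

/-- `b : M × N → H` is `S`-bilinear and exhibits `H` as the tensor product of `M` and `N`. -/
def IsTensorMap (S : Type) {M N H : Type} [CommRing S] [AddCommGroup M] [Module S M]
    [AddCommGroup N] [Module S N] [AddCommGroup H] [Module S H] (b : M → N → H) : Prop :=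
  ∃ b' : M →ₗ[S] N →ₗ[S] H, (∀ m n, b' m n = b m n) ∧ IsTensorProduct b'

/-- `H` is the tensor product of `E` and `F`. -/
def IsTensor {X : GSpace} (E F H : EqVB X) : Prop :=
  ∃ b : ∀ o, E.M o → F.M o → H.M o,
    (∀ (o p : Obj X) (u : Mor o p) m n, b p (E.tr u m) (F.tr u n) = H.tr u (b o m n)) ∧
    ∀ o : Obj X, IsTensorMap o.S (b o)

/-- `e : M → N` is an isomorphism of `S`-modules. -/
def IsIsoMap (S : Type) {M N : Type} [CommRing S] [AddCommGroup M] [Module S M]
    [AddCommGroup N] [Module S N] (e : M → N) : Prop :=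
  (∀ m m', e (m + m') = e m + e m') ∧ (∀ (s : S) (m : M), e (s • m) = s • e m) ∧
    Function.Bijective e

/-- `E` is isomorphic to the trivial line bundle `X × ℂ`, with trivial action on `ℂ`. -/
def IsUnitBundle {X : GSpace} (E : EqVB X) : Prop :=
  ∃ e : ∀ o : Obj X, E.M o → o.S, (∀ o : Obj X, IsIsoMap o.S (e o)) ∧
    ∀ (o p : Obj X) (u : Mor o p) (m : E.M o), e p (E.tr u m) = u.φ (e o m)

/-- The relations between the classes of bundles in `K^0_{B_2}(X)`: `E = E' + E''` for exact
sequences `0 → E' → E → E'' → 0`, `H = E F` if `H` is the tensor product of `E` and `F`, and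
`E = 1` for the trivial line bundle `E`. -/
def relations (X : GSpace) : Set (MvPolynomial (EqVB X) ℂ) :=
  {f | ∃ E' E E'' : EqVB X, IsShortExact E' E E'' ∧
      f = MvPolynomial.X E - (MvPolynomial.X E' + MvPolynomial.X E'')} ∪
  {f | ∃ E F H : EqVB X, IsTensor E F H ∧
      f = MvPolynomial.X H - MvPolynomial.X E * MvPolynomial.X F} ∪
  {f | ∃ E : EqVB X, IsUnitBundle E ∧ f = MvPolynomial.X E - 1}

/-- `K^0_{B_2}(X) ⊗ ℂ`, the commutative `ℂ`-algebra generated by the classes of the equivariant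
vector bundles with the relations coming from short exact sequences and tensor products. -/
abbrev KZero (X : GSpace) : Type 1 := MvPolynomial (EqVB X) ℂ ⧸ Ideal.span (relations X)

/-- the class of an equivariant vector bundle -/
noncomputable def cls {X : GSpace} (E : EqVB X) : KZero X :=
  Ideal.Quotient.mk _ (MvPolynomial.X E)

/-- The points of the fixed point scheme: `(S, x, g)` with `g • x = x`. -/
structure FixPt (X : GSpace) extends Obj X where
  g : B2 S
  fix : X.smul g x = x

/-- Families of elements `f(S, x, g) ∈ S` for all points `(S, x, g)` of the fixed point scheme. -/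
def Fam (X : GSpace) : Type 1 := ∀ p : FixPt X, p.S

noncomputable instance (X : GSpace) : CommRing (Fam X) := Pi.commRing
noncomputable instance (X : GSpace) : Algebra ℂ (Fam X) := Pi.algebra _ _

/-- `f` is a `B_2`-invariant function on the fixed point scheme:
`f(T, h • φ(x), h φ(g) h⁻¹) = φ(f(S, x, g))` for all `φ : S → T` and `h ∈ B_2(T)`, that is, `f` is
natural in `S` and invariant under `B_2`. -/
def IsInvariant {X : GSpace} (f : Fam X) : Prop :=
  ∀ (p q : FixPt X) (u : Mor p.toObj q.toObj),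
    q.g * u.g = u.g * p.g.map (u.φ : p.S →+* q.S) → f q = u.φ (f p)

lemma IsInvariant.mul {X : GSpace} {f f' : Fam X} (h : IsInvariant f) (h' : IsInvariant f') :
    IsInvariant (f * f') := fun p q u hu =>
  (congrArg₂ (fun a b : q.S => a * b) (h p q u hu) (h' p q u hu)).trans (map_mul u.φ _ _).symm

lemma IsInvariant.add {X : GSpace} {f f' : Fam X} (h : IsInvariant f) (h' : IsInvariant f') :
    IsInvariant (f + f') := fun p q u hu =>
  (congrArg₂ (fun a b : q.S => a + b) (h p q u hu) (h' p q u hu)).trans (map_add u.φ _ _).symm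

lemma IsInvariant.const {X : GSpace} (c : ℂ) : IsInvariant (algebraMap ℂ (Fam X) c) :=
  fun _ _ u _ => (u.φ.commutes c).symm

/-- The algebra `ℂ[Fix(X)]^{B_2}` of invariant functions on the fixed point scheme. -/
def invariantFunctions (X : GSpace) : Subalgebra ℂ (Fam X) where
  carrier := {f | IsInvariant f}
  mul_mem' := IsInvariant.mul
  add_mem' := IsInvariant.add
  algebraMap_mem' := IsInvariant.const

/-- An algebraic representation of `B_2` on `ℂⁿ`. -/
structure Rep (n : ℕ) where
  mat : {S : Type} → [CommRing S] → [Algebra ℂ S] → B2 S → Matrix (Fin n) (Fin n) S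
  mat_one : ∀ {S : Type} [CommRing S] [Algebra ℂ S], mat (1 : B2 S) = 1
  mat_mul : ∀ {S : Type} [CommRing S] [Algebra ℂ S] (g h : B2 S), mat (g * h) = mat g * mat h
  mat_map : ∀ {S T : Type} [CommRing S] [Algebra ℂ S] [CommRing T] [Algebra ℂ T]
    (φ : S →ₐ[ℂ] T) (g : B2 S), mat (g.map (φ : S →+* T)) = (mat g).map φ

/-- `E` is isomorphic to the pullback `X × ℂⁿ` of the representation `r`. -/
def IsPullback {X : GSpace} {n : ℕ} (E : EqVB X) (r : Rep n) : Prop :=
  ∃ e : ∀ o : Obj X, E.M o → (Fin n → o.S), (∀ o : Obj X, IsIsoMap o.S (e o)) ∧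
    ∀ (o p : Obj X) (u : Mor o p) (m : E.M o),
      e p (E.tr u m) = (r.mat u.g).mulVec (fun i => u.φ (e o m i))

/-- Compatibility of `ψ : K^0(X) ⊗ ℂ → ℂ[Fix(X)]^G` with the structure maps from
`K^0(point) ⊗ ℂ ≅ ℂ[G]^G`, which identifies a representation with its character. -/
def Compatible {X : GSpace} (ψ : KZero X → invariantFunctions X) : Prop :=
  ∀ (n : ℕ) (r : Rep n) (E : EqVB X), IsPullback E r → ∀ p : FixPt X,
    (ψ (cls E)).1 p = (r.mat p.g).trace

/-- `exp(ε e) = [[1, ε], [0, 1]]`, a point of `B_2` over the dual numbers -/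
noncomputable def expE : B2 (DualNumber ℂ) := ⟨1, DualNumber.eps⟩

/-- The vector field on `X` given by the nilpotent matrix `e` has exactly one zero. -/
def IsRegularAction (X : GSpace) : Prop :=
  ∃! x : X.pts ℂ, X.smul expE (X.map (Algebra.ofId ℂ (DualNumber ℂ)) x) =
    X.map (Algebra.ofId ℂ (DualNumber ℂ)) x

/-- the elements of the Lie algebra of `B_2`; the element `lieB2 0 1` is `e` -/
def lieB2 (x y : ℂ) : Matrix (Fin 2) (Fin 2) ℂ := !![x, y; 0, -x]

/-! ### `ℙ⁴` -/

section P4

variable {S T : Type} [CommRing S] [CommRing T]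

/-- The matrix with `(1, z, z², z³, z⁴) ↦ (1, w, w², w³, w⁴)` for `w = α z + β`. -/
def affMat (α β : S) : Matrix (Fin 5) (Fin 5) S :=
  Matrix.of fun j k => (Nat.choose j k : S) * α ^ (k : ℕ) * β ^ ((j : ℕ) - (k : ℕ))

/-- The action of `[[a, b], [0, a⁻¹]]` on the fourth symmetric power, normalised so that the
vector `(1, z, z², z³, z⁴)` is mapped to `(1, w, w², w³, w⁴)`, where `w = a² z + a b`. -/
def rho (g : B2 S) : Matrix (Fin 5) (Fin 5) S := affMat ((g.a : S) ^ 2) (g.a * g.b)

/-- the map on vectors induced by a ring homomorphism -/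
def vmap (φ : S →+* T) (v : Fin 5 → S) : Fin 5 → T := fun i => φ (v i)

/-- The `T`-submodule of `T^5` generated by the image of the `S`-submodule `L` of `S^5`. -/
def extend (φ : S →+* T) (L : Submodule S (Fin 5 → S)) : Submodule T (Fin 5 → T) :=
  Submodule.span T (vmap φ '' L)

/-- `L` is a point of `ℙ⁴(S)`: an invertible direct summand of `S^5`. -/
def IsLine (L : Submodule S (Fin 5 → S)) : Prop :=
  Module.Invertible S L ∧ ∃ C : Submodule S (Fin 5 → S), IsCompl L C

end P4

end Pool.Agent.Helper2.FixK
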