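import Pool.Agent.Helper2.FixMat

namespace Pool.Agent.Helper2.FixK

open Matrix

lemma map_trace_aux {R R' : Type} [CommRing R] [Algebra ℂ R] [CommRing R'] [Algebra ℂ R']
    {α : Type} [Fintype α] (φ : R →ₐ[ℂ] R') (A : Matrix α α R) :
    φ A.trace = (A.map φ).trace := by
  simp [Matrix.trace, map_sum]

section bundle

variable (E : EqVB P4)

/-- the matrix of `g_ε` on a chart -/
noncomputable def Gs (k : Fin 3) : Matrix (Fin (BB E k).n) (Fin (BB E k).n) (DualNumber (RR {k})) :=
  cmat E (BB E k) (BB E k) (sM {k} k (Finset.mem_singleton_self k))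
    (gM {k} k (Finset.mem_singleton_self k))

lemma chi_vertex (k : Fin 3) :
    E.chi (torusPt (uE ℂ) (idx k)) = dmap (vert k) (Gs E k).trace := by
  rw [chi_eq E (torusPt (uE ℂ) (idx k)) (BB E k)
    ((wM k).comp (sM {k} k (Finset.mem_singleton_self k))), ← wM_gM, cmat_comp]
  exact (map_trace_aux (dmap (vert k)) (Gs E k)).symm

/-- all the charts -/
abbrev UU : Finset (Fin 3) := Finset.univ

/-- the matrix of `g_ε` on the torus -/
noncomputable def GU (j k : Fin 3) : Matrix (Fin (BB E j).n) (Fin (BB E k).n)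
    (DualNumber (RR UU)) :=
  cmat E (BB E j) (BB E k) ((sM UU 0 (Finset.mem_univ _)).comp
    (iM UU 0 (Finset.mem_univ _) j (Finset.mem_univ _)))
    ((gM UU 0 (Finset.mem_univ _)).comp (iM UU 0 (Finset.mem_univ _) k (Finset.mem_univ _)))

noncomputable abbrev cU (j k : Fin 3) : Matrix (Fin (BB E j).n) (Fin (BB E k).n) (RR UU) :=
  cm E UU 0 (Finset.mem_univ _) j k (Finset.mem_univ _) (Finset.mem_univ _)

noncomputable abbrev gU (k : Fin 3) : Matrix (Fin (BB E k).n) (Fin (BB E k).n) (RR UU) :=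
  gm E UU 0 (Finset.mem_univ _) k (Finset.mem_univ _)

lemma GU_eq (j k : Fin 3) : GU E j j =
    (cU E j k).map (dlog UU lamX) * GU E k k * (cU E k j).map (inlH (RR UU)) := by
  have h1 : cmat E (BB E j) (BB E k) ((sM UU 0 (Finset.mem_univ _)).comp
      (iM UU 0 (Finset.mem_univ _) j (Finset.mem_univ _)))
      ((sM UU 0 (Finset.mem_univ _)).comp (iM UU 0 (Finset.mem_univ _) k (Finset.mem_univ _))) =
      (cU E j k).map (dlog UU lamX) := by
    rw [cmat_comp]; rfl
  have h2 : cmat E (BB E k) (BB E j) ((gM UU 0 (Finset.mem_univ _)).comp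
      (iM UU 0 (Finset.mem_univ _) k (Finset.mem_univ _)))
      ((gM UU 0 (Finset.mem_univ _)).comp (iM UU 0 (Finset.mem_univ _) j (Finset.mem_univ _))) =
      (cU E k j).map (inlH (RR UU)) := by
    rw [cmat_comp]; rfl
  rw [← h1, ← h2]
  have h3 : cmat E (BB E j) (BB E k) ((sM UU 0 (Finset.mem_univ _)).comp
      (iM UU 0 (Finset.mem_univ _) j (Finset.mem_univ _)))
      ((sM UU 0 (Finset.mem_univ _)).comp (iM UU 0 (Finset.mem_univ _) k (Finset.mem_univ _))) *
      cmat E (BB E k) (BB E k) ((sM UU 0 (Finset.mem_univ _)).comp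
      (iM UU 0 (Finset.mem_univ _) k (Finset.mem_univ _)))
      ((gM UU 0 (Finset.mem_univ _)).comp (iM UU 0 (Finset.mem_univ _) k (Finset.mem_univ _))) *
      cmat E (BB E k) (BB E j) ((gM UU 0 (Finset.mem_univ _)).comp
      (iM UU 0 (Finset.mem_univ _) k (Finset.mem_univ _)))
      ((gM UU 0 (Finset.mem_univ _)).comp (iM UU 0 (Finset.mem_univ _) j (Finset.mem_univ _))) =
      cmat E (BB E j) (BB E j) ((sM UU 0 (Finset.mem_univ _)).comp
      (iM UU 0 (Finset.mem_univ _) j (Finset.mem_univ _)))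
      ((gM UU 0 (Finset.mem_univ _)).comp
      (iM UU 0 (Finset.mem_univ _) j (Finset.mem_univ _))) := by
    rw [cmat_mul, cmat_mul]
  exact h3.symm

lemma GU_fst (k : Fin 3) : mfst (GU E k k) = gU E k := by
  have h0 : (fM UU 0 (Finset.mem_univ _)).comp ((sM UU 0 (Finset.mem_univ _)).comp
      (iM UU 0 (Finset.mem_univ _) k (Finset.mem_univ _))) =
      iM UU 0 (Finset.mem_univ _) k (Finset.mem_univ _) := by
    rw [← Mor.comp_assoc, fM_sM, Mor.id_comp]
  have h1 : (fM UU 0 (Finset.mem_univ _)).comp ((gM UU 0 (Finset.mem_univ _)).comp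
      (iM UU 0 (Finset.mem_univ _) k (Finset.mem_univ _))) =
      (g0M UU 0 (Finset.mem_univ _)).comp (iM UU 0 (Finset.mem_univ _) k (Finset.mem_univ _)) := by
    rw [← Mor.comp_assoc, fM_gM]
    rfl
  have h2 : cmat E (BB E k) (BB E k) ((fM UU 0 (Finset.mem_univ _)).comp
      ((sM UU 0 (Finset.mem_univ _)).comp (iM UU 0 (Finset.mem_univ _) k (Finset.mem_univ _))))
      ((fM UU 0 (Finset.mem_univ _)).comp ((gM UU 0 (Finset.mem_univ _)).comp
      (iM UU 0 (Finset.mem_univ _) k (Finset.mem_univ _)))) = mfst (GU E k k) := by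
    rw [cmat_comp]
    rfl
  rw [← h2, h0, h1]
  rfl

lemma GU_Gs (k : Fin 3) : (Gs E k).map (dmap (inc (Finset.subset_univ {k}))) = GU E k k := by
  have h1 : cmat E (BB E k) (BB E k) ((rD (Finset.subset_univ {k}) k 0
      (Finset.mem_singleton_self k) (Finset.mem_univ _)).comp
      (sM {k} k (Finset.mem_singleton_self k)))
      ((rD (Finset.subset_univ {k}) k 0
      (Finset.mem_singleton_self k) (Finset.mem_univ _)).comp
      (gM {k} k (Finset.mem_singleton_self k))) =
      (Gs E k).map (dmap (inc (Finset.subset_univ {k}))) := by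
    rw [cmat_comp]
    rfl
  rw [← h1, rD_sM, rD_gM]
  rfl

/-- the derivative of the trace of `g_ε` -/
noncomputable def FF (k : Fin 3) : RR UU := (GU E k k).trace.snd

lemma coef0_FF (k : Fin 3) : coef0 (FF E k) = (E.chi (torusPt (uE ℂ) (idx k))).snd := by
  rw [chi_vertex, dmap_snd, vert_eq, FF, ← GU_Gs,
    ← map_trace_aux (dmap (inc (Finset.subset_univ {k}))) (Gs E k), dmap_snd, coef0_inc]

lemma FF_eq (k : Fin 3) : FF E k = (msnd (GU E k k)).trace := by
  unfold FF msnd Matrix.trace
  rw [TrivSqZeroExt.snd_sum]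
  rfl

lemma FF_sub (j k : Fin 3) : FF E j - FF E k =
    om E lamX UU 0 (Finset.mem_univ _) j k (Finset.mem_univ _) (Finset.mem_univ _) := by
  have key : ∀ j, FF E j = om E lamX UU 0 (Finset.mem_univ _) j k (Finset.mem_univ _)
      (Finset.mem_univ _) + (cU E k k * msnd (GU E k k)).trace := by
    intro j
    have e1 : mfst ((cU E j k).map (dlog UU lamX)) = cU E j k := by
      refine Matrix.ext fun a b => ?_
      exact dlog_fst _ _ _
    have e2 : msnd ((cU E j k).map (dlog UU lamX)) = (cU E j k).map (DD UU lamX) := rfl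
    have e3 : mfst ((cU E k j).map (inlH (RR UU))) = cU E k j := by
      refine Matrix.ext fun a b => ?_
      rfl
    have e4 : msnd ((cU E k j).map (inlH (RR UU))) = 0 := by
      refine Matrix.ext fun a b => ?_
      rfl
    rw [FF_eq, GU_eq E j k, msnd_mul, msnd_mul, e1, e2, e3, e4, GU_fst, Matrix.mul_zero, add_zero,
      Matrix.add_mul, Matrix.trace_add]
    congr 1
    · unfold om triple
      rw [Matrix.trace_mul_comm, Matrix.mul_assoc]
    · rw [Matrix.trace_mul_comm, ← Matrix.mul_assoc]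
      congr 2
      exact cm_mul E _ _ _ _ _ _ _ _ _
  rw [key j, key k, om_self]
  ring

lemma coef0_om {J : Finset (Fin 3)} {l : Fin 3} (hl : l ∉ J) (j k : Fin 3) (hj : j ∈ J)
    (hk : k ∈ J) : coef0 (om E (ell l) UU 0 (Finset.mem_univ _) j k (Finset.mem_univ _)
      (Finset.mem_univ _)) = 0 := by
  have h := om_inc E (Finset.subset_univ J) (ell l) j 0 hj (Finset.mem_univ _) j k hj hk
  rw [← h, coef0_inc]
  exact coef0_triple hl _ _ _

lemma om_lin (j k : Fin 3) :
    coef0 (om E lamX UU 0 (Finset.mem_univ _) j k (Finset.mem_univ _) (Finset.mem_univ _)) =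
    4 * coef0 (om E (ell 1) UU 0 (Finset.mem_univ _) j k (Finset.mem_univ _)
      (Finset.mem_univ _)) +
    8 * coef0 (om E (ell 2) UU 0 (Finset.mem_univ _) j k (Finset.mem_univ _)
      (Finset.mem_univ _)) := by
  unfold om lamX
  rw [triple_add, triple_zsmul, triple_zsmul, coef0_add, coef0_smul, coef0_smul]
  norm_num

lemma om_ell0 (j k : Fin 3) :
    coef0 (om E (ell 0) UU 0 (Finset.mem_univ _) j k (Finset.mem_univ _) (Finset.mem_univ _)) =
    - coef0 (om E (ell 1) UU 0 (Finset.mem_univ _) j k (Finset.mem_univ _)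
      (Finset.mem_univ _)) -
    coef0 (om E (ell 2) UU 0 (Finset.mem_univ _) j k (Finset.mem_univ _)
      (Finset.mem_univ _)) := by
  have h : ell 0 = (-1 : ℤ) • ell 1 + (-1 : ℤ) • ell 2 := by
    ext x <;> simp [ell] <;> ring
  unfold om
  rw [h, triple_add, triple_zsmul, triple_zsmul, coef0_add, coef0_smul, coef0_smul]
  norm_num
  ring

/-- the second order relation satisfied by characters of bundles -/
lemma relation_chi : (E.chi (torusPt (uE ℂ) (idx 2))).snd - 2 * (E.chi (torusPt (uE ℂ) (idx 1))).snd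
    + (E.chi (torusPt (uE ℂ) (idx 0))).snd = 0 := by
  rw [← coef0_FF, ← coef0_FF, ← coef0_FF]
  have h01 := congrArg coef0 (FF_sub E 0 1)
  have h12 := congrArg coef0 (FF_sub E 1 2)
  rw [coef0_sub, om_lin] at h01 h12
  have a := coef0_om E (J := {0, 1}) (l := 2) (by decide) 0 1 (by decide) (by decide)
  have b := coef0_om E (J := {1, 2}) (l := 0) (by decide) 1 2 (by decide) (by decide)
  have c := coef0_om E (J := {0, 2}) (l := 1) (by decide) 0 2 (by decide) (by decide)
  rw [om_ell0] at b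
  rw [om_cocycle E (ell 1) UU 0 (Finset.mem_univ _) 0 1 2 (Finset.mem_univ _) (Finset.mem_univ _)
    (Finset.mem_univ _), coef0_add] at c
  linear_combination h01 - h12 + 8 * a + 8 * b + 4 * c

end bundle

end Pool.Agent.Helper2.FixK
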