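import Pool.Agent.Helper2.FixDelta

namespace Pool.Agent.Helper2.FixK

open Complex

lemma B2.aux6 {S T : Type} [CommRing S] [CommRing T] {φ : S →+* T} (g : B2 S) (g' : B2 T)
    (h : g.map φ = g') : g' * 1 = 1 * g.map φ := by
  rw [mul_one, one_mul, h]

/-- evaluation at `(g_ε, p_{2k})` -/
noncomputable def eK (k : Fin 3) : invariantFunctions P4 →ₐ[ℂ] DualNumber ℂ :=
  (Pi.evalAlgHom ℂ (fun p : FixPt P4 => p.S) (torusPt (uE ℂ) (idx k))).comp
    (Subalgebra.val (invariantFunctions P4))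

lemma eK_apply (k : Fin 3) (f : invariantFunctions P4) : eK k f = f.1 (torusPt (uE ℂ) (idx k)) := rfl

noncomputable def iU : ℂˣ := Units.mk0 I I_ne_zero

lemma eK_fst (k : Fin 3) (f : invariantFunctions P4) :
    (eK k f).fst = f.1 (torusPt iU (idx k)) :=
  (torus_value f (uE ℂ) iU (TrivSqZeroExt.fstHom ℂ ℂ ℂ) rfl (idx k)).symm

lemma value_vert (k : Fin 3) (f : invariantFunctions P4) :
    f.1 (torusPt iU (idx k)) = vert k (f.1 (P0 {k} k (Finset.mem_singleton_self k))) := by
  have h1 : P4.smul (1 : B2 ℂ) (P4.map (vert k) (lineOf (vec {k} k (Finset.mem_singleton_self k))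
      (uni_vec {k} k _))) = lineOf (Pi.single (idx k) 1) (uni_single (idx k)) := by
    rw [P4.one_smul, map_lineOf]
    apply lineOf_congr
    apply vec_ext
    · intro j
      show vert k (vec {k} k _ (idx j)) = _
      rw [vec_idx, vert_mon]
      by_cases h : j = k
      · subst h; simp
      · have : idx j ≠ idx k := by
          intro h2; apply h
          revert h2
          fin_cases j <;> fin_cases k <;> simp [idx]
        rw [Pi.single_eq_of_ne this, if_neg h]
    · show vert k 0 = _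
      rw [map_zero]
      fin_cases k <;> rfl
    · show vert k 0 = _
      rw [map_zero]
      fin_cases k <;> rfl
  have h2 : (⟨iU, 0⟩ : B2 ℂ) * 1 = 1 * (g0 (RR {k})).map (vert k : RR {k} →+* ℂ) := by
    rw [mul_one, one_mul]
    apply B2.ext
    · apply Units.ext
      exact ((vert k).commutes I).symm
    · exact (map_zero (vert k)).symm
  exact inv_nat f (P0 {k} k (Finset.mem_singleton_self k)) (torusPt iU (idx k))
    { φ := vert k, g := (1 : B2 ℂ), eq := h1 } h2

lemma value_torus (k : Fin 3) (f : invariantFunctions P4) :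
    f.1 (P0 UU 0 (Finset.mem_univ _)) =
      inc (Finset.subset_univ {k}) (f.1 (P0 {k} k (Finset.mem_singleton_self k))) :=
  inv_nat f (P0 {k} k (Finset.mem_singleton_self k)) (P0 UU 0 (Finset.mem_univ _))
    (rM (Finset.subset_univ {k}) k 0 (Finset.mem_singleton_self k) (Finset.mem_univ _))
    (B2.aux6 _ _ (g0_map (inc (Finset.subset_univ {k}))))

lemma eK_fst_eq (k : Fin 3) (f : invariantFunctions P4) :
    (eK k f).fst = coef0 (f.1 (P0 UU 0 (Finset.mem_univ _)) : RR UU) := by
  rw [eK_fst, value_vert, vert_eq, value_torus k]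
  exact (coef0_inc _ _).symm

/-- the functional -/
noncomputable def delta (f : invariantFunctions P4) : ℂ :=
  (eK 2 f).snd - 2 * (eK 1 f).snd + (eK 0 f).snd

lemma delta_mul (f g : invariantFunctions P4) :
    delta (f * g) = (eK 0 f).fst * delta g + (eK 0 g).fst * delta f := by
  unfold delta
  rw [map_mul, map_mul, map_mul, TrivSqZeroExt.snd_mul, TrivSqZeroExt.snd_mul,
    TrivSqZeroExt.snd_mul, eK_fst_eq 2, eK_fst_eq 1, eK_fst_eq 0, eK_fst_eq 2, eK_fst_eq 1,
    eK_fst_eq 0]
  simp only [smul_eq_mul, MulOpposite.smul_eq_mul_unop, MulOpposite.unop_op]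
  ring

lemma delta_add (f g : invariantFunctions P4) : delta (f + g) = delta f + delta g := by
  unfold delta
  rw [map_add, map_add, map_add, TrivSqZeroExt.snd_add, TrivSqZeroExt.snd_add,
    TrivSqZeroExt.snd_add]
  ring

lemma delta_algebraMap (c : ℂ) : delta (algebraMap ℂ _ c) = 0 := by
  unfold delta
  rw [AlgHom.commutes, AlgHom.commutes, AlgHom.commutes]
  have : (algebraMap ℂ (DualNumber ℂ) c).snd = 0 := rfl
  rw [this]
  ring

def kerDelta : Subalgebra ℂ (invariantFunctions P4) where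
  carrier := {f | delta f = 0}
  mul_mem' := by
    intro f g hf hg
    simp only [Set.mem_ofPred_eq] at *
    rw [delta_mul, hf, hg]; ring
  add_mem' := by
    intro f g hf hg
    simp only [Set.mem_ofPred_eq] at *
    rw [delta_add, hf, hg]; ring
  algebraMap_mem' := delta_algebraMap

lemma delta_kappa (a : KZero P4) : delta (kappa P4 a) = 0 :=
  kappa_mem kerDelta (fun E => relation_chi E) a

/-- `delta` only depends on the values at the fixed points of the torus -/
lemma delta_ev (f g : invariantFunctions P4) (h : ∀ k, ev k f = ev k g) : delta f = delta g := by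
  have h1 : ∀ k, eK k f = eK k g := by
    intro k
    rw [eK_apply, eK_apply]
    have e1 := torus_value' f (uE ℂ) (idx k)
    have e2 := torus_value' g (uE ℂ) (idx k)
    rw [h] at e1
    exact e1.trans e2.symm
  unfold delta
  rw [h1, h1, h1]

/-! ### the function `h` -/

lemma rho_sq {S : Type} [CommRing S] (g : B2 S) (h : (g.a : S) ^ 2 + 1 = 0) :
    rho (g * g) = 1 := by
  have e1 : (((g * g).a : S)) ^ 2 = 1 := by
    show ((g.a * g.a : Sˣ) : S) ^ 2 = 1
    push_cast
    linear_combination ((g.a : S) ^ 2 - 1) * h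
  have e2 : (((g * g).a : S)) * (g * g).b = 0 := by
    show ((g.a * g.a : Sˣ) : S) * ((g.a : S) * g.b + g.b * ↑g.a⁻¹) = 0
    have : (g.a : S) * ↑g.a⁻¹ = 1 := by simp
    push_cast
    linear_combination (g.a : S) * g.b * h + (g.a : S) * g.b * this
  rw [rho, e1, e2]
  have := rho_one (S := S)
  rw [rho] at this
  simpa using this

lemma sq_one_local (r : FixPt P4) [IsLocalRing r.S] (h : (r.g.a : r.S) ^ 2 + 1 = 0) :
    taut.chi r ^ 2 - 1 = 0 := by
  obtain ⟨v, hv, c, hx, hc⟩ := exists_line r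
  have h1 := chi_taut _ v hv hx c hc
  rw [h1]
  apply hv.eq_zero
  have h2 : rhoEquiv (r.g * r.g) v = (c * c) • v := by
    rw [rhoEquiv_mul, hc, map_smul, hc, smul_smul]
  have h3 : rhoEquiv (r.g * r.g) v = v := by
    rw [rhoEquiv_apply, rho_sq r.g h, Matrix.one_mulVec]
  rw [sub_smul, one_smul, sq, ← h2, h3, sub_self]

lemma sq_one (q : FixPt P4) (h : (q.g.a : q.S) ^ 2 + 1 = 0) : taut.chi q ^ 2 - 1 = 0 := by
  apply local_reduction q
  intro J hJ
  have : IsLocalRing (q.map (locHom q.S J)).S := inferInstanceAs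
    (IsLocalRing (Localization.AtPrime J))
  have h3 : taut.chi (q.map (locHom q.S J)) = locHom q.S J (taut.chi q) :=
    inv_map (chiFun taut) q (locHom q.S J)
  have h4 : (((q.map (locHom q.S J)).g.a : (q.map (locHom q.S J)).S)) ^ 2 + 1 = 0 := by
    have := congrArg (locHom q.S J) h
    rw [map_add, map_pow, map_one, map_zero] at this
    exact this
  have h5 := sq_one_local _ h4
  rw [h3] at h5
  rw [← locHom_apply, map_sub, map_pow, map_one]
  exact h5

lemma exists_s (p : FixPt P4) : ∃ s : p.S,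
    ((p.g.a : p.S) ^ 2 + 1) * s = taut.chi p ^ 2 - 1 := by
  have hmem : taut.chi p ^ 2 - 1 ∈ Ideal.span {(p.g.a : p.S) ^ 2 + 1} := by
    rw [← Ideal.Quotient.eq_zero_iff_mem]
    let π : p.S →ₐ[ℂ] (p.S ⧸ Ideal.span {(p.g.a : p.S) ^ 2 + 1}) := Ideal.Quotient.mkₐ ℂ _
    have hq : (((p.map π).g.a : (p.map π).S)) ^ 2 + 1 = 0 := by
      have : π ((p.g.a : p.S) ^ 2 + 1) = 0 :=
        Ideal.Quotient.eq_zero_iff_mem.mpr (Ideal.mem_span_singleton_self _)
      rw [map_add, map_pow, map_one] at this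
      exact this
    have key := sq_one (p.map π) hq
    have h4 : taut.chi (p.map π) = π (taut.chi p) := inv_map (chiFun taut) p π
    rw [h4] at key
    rw [map_sub, map_pow, map_one]
    exact key
  obtain ⟨s, hs⟩ := Ideal.mem_span_singleton.mp hmem
  exact ⟨s, hs.symm⟩

/-- `s` is not unique but `(a² + 1) s²` is -/
lemma s_unique {S : Type} [CommRing S] {u x s s' : S} (h : u * s = x) (h' : u * s' = x) :
    u * s ^ 2 = u * s' ^ 2 := by
  linear_combination (s + s') * h - (s + s') * h'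

noncomputable def hVal (p : FixPt P4) : p.S :=
  ((p.g.a : p.S) ^ 2 + 1) * (Classical.choose (exists_s p)) ^ 2

lemma hVal_eq (p : FixPt P4) (a x s : p.S) (ha : (p.g.a : p.S) ^ 2 = a) (hx : taut.chi p = x)
    (h : (a + 1) * s = x ^ 2 - 1) : hVal p = (a + 1) * s ^ 2 := by
  subst ha hx
  exact s_unique (Classical.choose_spec (exists_s p)) h

/-- the invariant function which is not a combination of characters of bundles -/
noncomputable def hFun : invariantFunctions P4 := ⟨hVal, by
  intro p q u hu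
  obtain ⟨s, hs⟩ := exists_s p
  have h3 : taut.chi q = u.φ (taut.chi p) := inv_nat (chiFun taut) p q u hu
  have ha : (q.g.a : q.S) = u.φ (p.g.a : p.S) := inv_nat aFun p q u hu
  have h4 : (u.φ ((p.g.a : p.S) ^ 2) + 1) * u.φ s = (u.φ (taut.chi p)) ^ 2 - 1 := by
    have := congrArg u.φ hs
    rwa [map_mul, map_add, map_sub, map_pow u.φ (taut.chi p), map_one] at this
  have h5 := hVal_eq q (u.φ ((p.g.a : p.S) ^ 2)) (u.φ (taut.chi p)) (u.φ s)
    (by rw [ha, map_pow]) h3 h4
  have h6 := congrArg u.φ (hVal_eq p _ _ s rfl rfl hs)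
  rw [map_mul, map_add, map_pow u.φ s, map_one] at h6
  exact h5.trans h6.symm⟩

lemma hFun_eK (k : Fin 3) : (eK k hFun).snd = -32 * ((k : ℕ) : ℂ) ^ 2 := by
  have hx : taut.chi (torusPt (uE ℂ) (idx k)) = (mkD 1 (4 * ((k : ℕ) : ℂ)) : DualNumber ℂ) := by
    have h := chi_taut (torusPt (uE ℂ) (idx k)) (Pi.single (idx k) 1) (uni_single (idx k)) rfl
      _ (rho_single (uE ℂ) (idx k))
    rw [h, Units.val_pow_eq_pow_val, pow_mul]
    exact uE_pow ℂ k
  have ha : (((torusPt (uE ℂ) (idx k)).g.a : (torusPt (uE ℂ) (idx k)).S)) ^ 2 =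
      (mkD (-1) (-2) : DualNumber ℂ) := uE_sq ℂ
  have hs : ((mkD (-1) (-2) : DualNumber ℂ) + 1) *
      (mkD (-4 * ((k : ℕ) : ℂ)) 0 : DualNumber ℂ) =
      (mkD 1 (4 * ((k : ℕ) : ℂ)) : DualNumber ℂ) ^ 2 - 1 := by
    rw [sq]
    apply TrivSqZeroExt.ext
    · rw [TrivSqZeroExt.fst_sub, TrivSqZeroExt.fst_mul, TrivSqZeroExt.fst_mul,
        TrivSqZeroExt.fst_add]
      simp
    · rw [TrivSqZeroExt.snd_sub, TrivSqZeroExt.snd_mul, TrivSqZeroExt.snd_mul,
        TrivSqZeroExt.snd_add, TrivSqZeroExt.fst_add]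
      simp
      ring
  have h := hVal_eq (torusPt (uE ℂ) (idx k)) _ _ _ ha hx hs
  rw [eK_apply]
  refine (congrArg TrivSqZeroExt.snd h).trans ?_
  rw [sq]
  show (((mkD (-1) (-2) : DualNumber ℂ) + 1) * (mkD (-4 * ((k : ℕ) : ℂ)) 0 *
    mkD (-4 * ((k : ℕ) : ℂ)) 0)).snd = _
  rw [TrivSqZeroExt.snd_mul, TrivSqZeroExt.snd_mul, TrivSqZeroExt.fst_mul, TrivSqZeroExt.fst_add,
    TrivSqZeroExt.snd_add]
  simp
  ring

lemma delta_hFun : delta hFun ≠ 0 := by
  unfold delta
  rw [hFun_eK, hFun_eK, hFun_eK]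
  norm_num

theorem no_compatible_iso :
    ¬ ∃ ψ : KZero P4 ≃ₐ[ℂ] invariantFunctions P4, Compatible ψ :=
  no_iso delta delta_ev delta_kappa hFun delta_hFun

end Pool.Agent.Helper2.FixK
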