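import Pool.Agent.Helper2.FixTrace

namespace Pool.Agent.Helper2.FixK

open TensorProduct

section linalg

variable {S M' M M'' N H : Type} [CommRing S] [AddCommGroup M'] [Module S M'] [AddCommGroup M]
  [Module S M] [AddCommGroup M''] [Module S M''] [AddCommGroup N] [Module S N]
  [AddCommGroup H] [Module S H]

/-- additivity of the trace in short exact sequences -/
lemma ptr_exact [Module.Projective S M''] (B' : DualB S M') (B : DualB S M) (B'' : DualB S M'')
    (i : M' →ₗ[S] M) (q : M →ₗ[S] M'') (hi : Function.Injective i) (hex : Function.Exact i q)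
    (hq : Function.Surjective q) (f' : M' →ₗ[S] M') (f : M →ₗ[S] M) (f'' : M'' →ₗ[S] M'')
    (h1 : ∀ m, i (f' m) = f (i m)) (h2 : ∀ m, q (f m) = f'' (q m)) :
    ptr B f = ptr B' f' + ptr B'' f'' := by
  obtain ⟨s, hs⟩ := Module.projective_lifting_property q LinearMap.id hq
  have hs' : ∀ x, q (s x) = x := fun x => LinearMap.congr_fun hs x
  have hr : ∀ m : M, ∃ m' : M', i m' = m - s (q m) := by
    intro m
    exact (hex _).mp (by rw [map_sub, hs', sub_self])
  choose r0 hr0 using hr
  let r : M →ₗ[S] M' :=
    { toFun := r0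
      map_add' := fun x y => hi (by
        rw [map_add, hr0, hr0, hr0, map_add, map_add]; abel)
      map_smul' := fun c x => hi (by
        rw [RingHom.id_apply, map_smul, hr0, hr0, map_smul, map_smul, smul_sub]) }
  have hr' : ∀ m, i (r m) = m - s (q m) := hr0
  have hri : ∀ m', r (i m') = m' := fun m' => hi (by
    rw [hr', (hex (i m')).mpr ⟨m', rfl⟩, map_zero, sub_zero])
  let C : DualB S M :=
    { n := B'.n + B''.n
      p := Fin.append (fun k => i (B'.p k)) (fun k => s (B''.p k))
      φ := Fin.append (fun k => B'.φ k ∘ₗ r) (fun k => B''.φ k ∘ₗ q)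
      sum := by
        intro m
        rw [Fin.sum_univ_add]
        simp only [Fin.append_left, Fin.append_right, LinearMap.comp_apply]
        have e1 : ∑ k, B'.φ k (r m) • i (B'.p k) = i (r m) := by
          conv_rhs => rw [← B'.sum (r m), map_sum]
          simp
        have e2 : ∑ k, B''.φ k (q m) • s (B''.p k) = s (q m) := by
          conv_rhs => rw [← B''.sum (q m), map_sum]
          simp
        rw [e1, e2, hr']
        abel }
  rw [ptr_indep B C]
  unfold ptr
  rw [Fin.sum_univ_add]
  simp only [C, Fin.append_left, Fin.append_right, LinearMap.comp_apply]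
  congr 1
  · refine Finset.sum_congr rfl fun k _ => ?_
    rw [← h1, hri]
  · refine Finset.sum_congr rfl fun k _ => ?_
    rw [h2, hs']

/-- multiplicativity of the trace in tensor products -/
lemma ptr_tensor (B : DualB S M) (B' : DualB S N) (C : DualB S H)
    (b : M →ₗ[S] N →ₗ[S] H) (hb : IsTensorProduct b) (f : M →ₗ[S] M) (g : N →ₗ[S] N)
    (h : H →ₗ[S] H) (hfg : ∀ m n, b (f m) (g n) = h (b m n)) :
    ptr C h = ptr B f * ptr B' g := by
  have hφ : ∀ (k : Fin B.n) (l : Fin B'.n), ∃ θ : H →ₗ[S] S,
      ∀ m n, θ (b m n) = B.φ k m * B'.φ l n := by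
    intro k l
    refine ⟨hb.lift ((LinearMap.mul S S).compl₁₂ (B.φ k) (B'.φ l)), fun m n => ?_⟩
    rw [hb.lift_eq]
    rfl
  choose θ hθ using hφ
  let e := (finProdFinEquiv : Fin B.n × Fin B'.n ≃ Fin (B.n * B'.n))
  let D : DualB S H :=
    { n := B.n * B'.n
      p := fun x => b (B.p (e.symm x).1) (B'.p (e.symm x).2)
      φ := fun x => θ (e.symm x).1 (e.symm x).2
      sum := by
        intro y
        have key : ∑ x : Fin B.n × Fin B'.n, (θ x.1 x.2) y • b (B.p x.1) (B'.p x.2) = y := by
          induction y using hb.inductionOn with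
          | zero => simp
          | tmul m n =>
            simp_rw [hθ]
            conv_rhs => rw [← B.sum m, ← B'.sum n]
            rw [Fintype.sum_prod_type]
            simp only [map_sum, LinearMap.sum_apply, map_smul, LinearMap.smul_apply,
              Finset.smul_sum, smul_smul]
            rw [Finset.sum_comm]
            refine Finset.sum_congr rfl fun j _ => Finset.sum_congr rfl fun k _ => ?_
            rw [mul_comm]
          | add x y hx hy =>
            simp only [map_add, add_smul, Finset.sum_add_distrib, hx, hy]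
        exact (Equiv.sum_comp e.symm (fun x => (θ x.1 x.2) y • b (B.p x.1) (B'.p x.2))).trans key }
  rw [ptr_indep C D]
  unfold ptr
  have : ∑ x : Fin (B.n * B'.n), D.φ x (h (D.p x)) =
      ∑ x : Fin B.n × Fin B'.n, θ x.1 x.2 (h (b (B.p x.1) (B'.p x.2))) :=
    Equiv.sum_comp e.symm (fun x => θ x.1 x.2 (h (b (B.p x.1) (B'.p x.2))))
  refine this.trans ?_
  rw [Fintype.sum_prod_type, Finset.sum_mul_sum]
  refine Finset.sum_congr rfl fun k _ => Finset.sum_congr rfl fun l _ => ?_
  rw [← hfg, hθ]

/-- the trace computed in a frame -/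
lemma ptr_frame {n : ℕ} (B : DualB S M) (e : M → (Fin n → S)) (he : IsIsoMap S e)
    (f : M →ₗ[S] M) (A : Matrix (Fin n) (Fin n) S) (h : ∀ m, e (f m) = A.mulVec (e m)) :
    ptr B f = A.trace := by
  obtain ⟨h1, h2, h3⟩ := he
  let e' : M ≃ₗ[S] (Fin n → S) :=
    LinearEquiv.ofBijective { toFun := e, map_add' := h1, map_smul' := h2 } h3
  have he' : ∀ m, e' m = e m := fun m => rfl
  let C : DualB S M :=
    { n := n
      p := fun i => e'.symm (Pi.single i 1)
      φ := fun i => LinearMap.proj i ∘ₗ (e' : M →ₗ[S] (Fin n → S))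
      sum := by
        intro m
        apply e'.injective
        rw [map_sum]
        ext j
        simp [Finset.sum_apply, Pi.single_apply] }
  rw [ptr_indep B C]
  unfold ptr Matrix.trace
  refine Finset.sum_congr rfl fun i _ => ?_
  show e' (f (e'.symm (Pi.single i 1))) i = A i i
  rw [he', h, ← he', LinearEquiv.apply_symm_apply]
  simp

/-- the trace on a trivial line bundle -/
lemma ptr_unit (B : DualB S M) (e : M → S) (he : IsIsoMap S e)
    (f : M →ₗ[S] M) (h : ∀ m, e (f m) = e m) : ptr B f = 1 := by
  obtain ⟨h1, h2, h3⟩ := he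
  let e' : M ≃ₗ[S] S :=
    LinearEquiv.ofBijective { toFun := e, map_add' := h1, map_smul' := h2 } h3
  have he' : ∀ m, e' m = e m := fun m => rfl
  let C : DualB S M :=
    { n := 1
      p := fun i => e'.symm 1
      φ := fun i => (e' : M →ₗ[S] S)
      sum := by
        intro m
        apply e'.injective
        rw [map_sum]
        simp }
  rw [ptr_indep B C]
  unfold ptr
  refine (Fin.sum_univ_one _).trans ?_
  show e' (f (e'.symm 1)) = 1
  rw [he', h, ← he', LinearEquiv.apply_symm_apply]

end linalg

variable {X : GSpace} [X.IsAction]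

/-- the function `(g, x) ↦ tr(g | E_x)` -/
noncomputable def chiFun (E : EqVB X) : invariantFunctions X :=
  ⟨E.chi, fun p q u hu => chi_natural E p q u hu⟩

lemma chi_exact {E' E E'' : EqVB X} (h : IsShortExact E' E E'') (p : FixPt X) :
    E.chi p = E'.chi p + E''.chi p := by
  obtain ⟨i, q, hi, hq, hex⟩ := h
  obtain ⟨i', q', hi', hq', h1, h2, h3⟩ := hex p.toObj
  exact ptr_exact _ _ _ i' q' h1 h2 h3 _ _ _
    (fun m => by rw [hi', hi']; exact hi _ _ p.mor m)
    (fun m => by rw [hq', hq']; exact hq _ _ p.mor m)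

lemma chi_tensor {E F H : EqVB X} (h : IsTensor E F H) (p : FixPt X) :
    H.chi p = E.chi p * F.chi p := by
  obtain ⟨b, hb, ht⟩ := h
  obtain ⟨b', hb', ht'⟩ := ht p.toObj
  exact ptr_tensor _ _ _ b' ht' _ _ _ (fun m n => by rw [hb', hb']; exact hb _ _ p.mor m n)

lemma chi_unit {E : EqVB X} (h : IsUnitBundle E) (p : FixPt X) : E.chi p = 1 := by
  obtain ⟨e, he, h⟩ := h
  exact ptr_unit _ (e p.toObj) (he p.toObj) _ (fun m => h _ _ p.mor m)

lemma chi_pullback {n : ℕ} {r : Rep n} {E : EqVB X} (h : IsPullback E r) (p : FixPt X) :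
    E.chi p = (r.mat p.g).trace := by
  obtain ⟨e, he, h⟩ := h
  exact ptr_frame _ (e p.toObj) (he p.toObj) _ _ (fun m => h _ _ p.mor m)

/-- `K^0(X) ⊗ ℂ → ℂ[Fix(X)]^G`, `[E] ↦ ((g, x) ↦ tr(g | E_x))` -/
noncomputable def kappa (X : GSpace) [X.IsAction] : KZero X →ₐ[ℂ] invariantFunctions X :=
  Ideal.Quotient.liftₐ _ (MvPolynomial.aeval chiFun) (by
    intro a ha
    have : Ideal.span (relations X) ≤ RingHom.ker (MvPolynomial.aeval (R := ℂ) (chiFun (X := X))) := by
      rw [Ideal.span_le]
      rintro f ((⟨E', E, E'', h, rfl⟩ | ⟨E, F, H, h, rfl⟩) | ⟨E, h, rfl⟩)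
      · rw [SetLike.mem_coe, RingHom.mem_ker, map_sub, map_add, MvPolynomial.aeval_X,
          MvPolynomial.aeval_X, MvPolynomial.aeval_X, sub_eq_zero]
        apply Subtype.ext
        funext p
        exact chi_exact h p
      · rw [SetLike.mem_coe, RingHom.mem_ker, map_sub, map_mul, MvPolynomial.aeval_X,
          MvPolynomial.aeval_X, MvPolynomial.aeval_X, sub_eq_zero]
        apply Subtype.ext
        funext p
        exact chi_tensor h p
      · rw [SetLike.mem_coe, RingHom.mem_ker, map_sub, map_one, MvPolynomial.aeval_X, sub_eq_zero]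
        apply Subtype.ext
        funext p
        exact chi_unit h p
    exact this ha)

lemma kappa_cls (E : EqVB X) : kappa X (cls E) = chiFun E := by
  unfold kappa cls
  exact MvPolynomial.aeval_X (R := ℂ) chiFun E

/-- If the values of `chiFun` lie in a subalgebra then so does the image of `kappa`. -/
lemma kappa_mem (B : Subalgebra ℂ (invariantFunctions X)) (h : ∀ E, chiFun E ∈ B)
    (a : KZero X) : kappa X a ∈ B := by
  obtain ⟨f, rfl⟩ := Ideal.Quotient.mk_surjective a
  induction f using MvPolynomial.induction_on with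
  | C r =>
    have : (Ideal.Quotient.mk (Ideal.span (relations X))) (MvPolynomial.C r) =
      algebraMap ℂ (KZero X) r := rfl
    rw [this, AlgHom.commutes]
    exact B.algebraMap_mem r
  | add f g hf hg => rw [map_add, map_add]; exact B.add_mem hf hg
  | mul_X f E hf =>
    rw [map_mul, map_mul]
    refine B.mul_mem hf ?_
    have := kappa_cls E
    unfold cls at this
    rw [this]
    exact h E

end Pool.Agent.Helper2.FixK
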