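import Pool.Agent.Helper2.FixVec

namespace Pool.Agent.Helper2.FixK

open Matrix

section matrices

variable {J : Finset (Fin 3)} {α β γ δ : Type} [Fintype α] [Fintype β] [Fintype γ] [Fintype δ]

/-- `tr(A · D(B) · C)` -/
noncomputable def triple (lam : ℤ × ℤ →+ ℤ) (A : Matrix α β (RR J)) (B : Matrix β γ (RR J))
    (C : Matrix γ α (RR J)) : RR J := (A * B.map (DD J lam) * C).trace

lemma triple_eq (lam : ℤ × ℤ →+ ℤ) (A : Matrix α β (RR J)) (B : Matrix β γ (RR J))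
    (C : Matrix γ α (RR J)) : triple lam A B C =
      ∑ a, ∑ c, ∑ b, (A a b * C c a) * DD J lam (B b c) := by
  unfold triple Matrix.trace
  refine Finset.sum_congr rfl fun a _ => ?_
  rw [Matrix.diag_apply, Matrix.mul_apply]
  refine Finset.sum_congr rfl fun c _ => ?_
  rw [Matrix.mul_apply, Finset.sum_mul]
  refine Finset.sum_congr rfl fun b _ => ?_
  rw [Matrix.map_apply]
  ring

lemma coef0_triple {l : Fin 3} (hl : l ∉ J) (A : Matrix α β (RR J)) (B : Matrix β γ (RR J))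
    (C : Matrix γ α (RR J)) : coef0 (triple (ell l) A B C) = 0 := by
  rw [triple_eq]
  simp_rw [coef0_sum]
  refine Finset.sum_eq_zero fun a _ => Finset.sum_eq_zero fun c _ => Finset.sum_eq_zero fun b _ => ?_
  exact coef0_mul_DD hl _ _

lemma triple_add (lam mu : ℤ × ℤ →+ ℤ) (A : Matrix α β (RR J)) (B : Matrix β γ (RR J))
    (C : Matrix γ α (RR J)) : triple (lam + mu) A B C = triple lam A B C + triple mu A B C := by
  simp_rw [triple_eq, DD_add_lam, mul_add, Finset.sum_add_distrib]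

lemma triple_zsmul (n : ℤ) (lam : ℤ × ℤ →+ ℤ) (A : Matrix α β (RR J)) (B : Matrix β γ (RR J))
    (C : Matrix γ α (RR J)) : triple (n • lam) A B C = (n : ℂ) • triple lam A B C := by
  simp_rw [triple_eq, DD_nsmul_lam, mul_smul_comm, Finset.smul_sum]

lemma triple_inc {J' : Finset (Fin 3)} (h : J ⊆ J') (lam : ℤ × ℤ →+ ℤ) (A : Matrix α β (RR J))
    (B : Matrix β γ (RR J)) (C : Matrix γ α (RR J)) :
    triple lam (A.map (inc h)) (B.map (inc h)) (C.map (inc h)) = inc h (triple lam A B C) := by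
  simp_rw [triple_eq, map_sum, Matrix.map_apply, DD_inc, map_mul]

lemma map_DD_mul (lam : ℤ × ℤ →+ ℤ) (A : Matrix α β (RR J)) (B : Matrix β γ (RR J)) :
    (A * B).map (DD J lam) = A.map (DD J lam) * B + A * B.map (DD J lam) := by
  ext a c
  simp only [Matrix.map_apply, Matrix.mul_apply, Matrix.add_apply, DD_sum, DD_mul,
    Finset.sum_add_distrib]

end matrices

section dual

variable {R : Type} [CommRing R] {α β γ : Type} [Fintype α] [Fintype β] [Fintype γ]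

def mfst (A : Matrix α β (DualNumber R)) : Matrix α β R := A.map TrivSqZeroExt.fst
def msnd (A : Matrix α β (DualNumber R)) : Matrix α β R := A.map TrivSqZeroExt.snd

omit [Fintype α] [Fintype γ] in
lemma mfst_mul (A : Matrix α β (DualNumber R)) (B : Matrix β γ (DualNumber R)) :
    mfst (A * B) = mfst A * mfst B := by
  ext a c
  simp only [mfst, Matrix.map_apply, Matrix.mul_apply]
  rw [TrivSqZeroExt.fst_sum]
  simp

omit [Fintype α] [Fintype γ] in
lemma msnd_mul (A : Matrix α β (DualNumber R)) (B : Matrix β γ (DualNumber R)) :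
    msnd (A * B) = msnd A * mfst B + mfst A * msnd B := by
  ext a c
  simp only [mfst, msnd, Matrix.map_apply, Matrix.mul_apply, Matrix.add_apply]
  rw [TrivSqZeroExt.snd_sum, ← Finset.sum_add_distrib]
  refine Finset.sum_congr rfl fun b _ => ?_
  rw [TrivSqZeroExt.snd_mul]
  simp only [smul_eq_mul, MulOpposite.smul_eq_mul_unop, MulOpposite.unop_op]
  ring

end dual

section bundle

lemma inc_inc {J J' J'' : Finset (Fin 3)} (h : J ⊆ J') (h' : J' ⊆ J'') (h'' : J ⊆ J'') (f : RR J) :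
    inc h' (inc h f) = inc h'' f := by
  induction f using AddMonoidAlgebra.induction_linear with
  | zero => simp
  | add f g hf hg => rw [map_add, map_add, map_add, hf, hg]
  | single m c =>
    simp only [inc, AddMonoidAlgebra.mapDomainAlgHom_apply, AddMonoidAlgebra.mapDomain_single]
    rfl

variable (E : EqVB P4)

/-- chosen dual bases on the charts -/
noncomputable def BB (k : Fin 3) : DualB (OX {k} k (Finset.mem_singleton_self k)).S
    (E.M (OX {k} k (Finset.mem_singleton_self k))) := E.db _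

noncomputable def iM (J : Finset (Fin 3)) (j0 : Fin 3) (h0 : j0 ∈ J) (k : Fin 3) (hk : k ∈ J) :
    Mor (OX {k} k (Finset.mem_singleton_self k)) (OX J j0 h0) :=
  rM (Finset.singleton_subset_iff.mpr hk) k j0 (Finset.mem_singleton_self k) h0

lemma rM_iM {J J' : Finset (Fin 3)} (h : J ⊆ J') (j0 j0' : Fin 3) (h0 : j0 ∈ J) (h0' : j0' ∈ J')
    (k : Fin 3) (hk : k ∈ J) :
    (rM h j0 j0' h0 h0').comp (iM J j0 h0 k hk) = iM J' j0' h0' k (h hk) := by
  apply Mor.ext'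
  · exact AlgHom.ext fun f => inc_inc (Finset.singleton_subset_iff.mpr hk) h
      (Finset.singleton_subset_iff.mpr (h hk)) f
  · exact B2.aux3 _

/-- transition matrices -/
noncomputable def cm (J : Finset (Fin 3)) (j0 : Fin 3) (h0 : j0 ∈ J) (j k : Fin 3) (hj : j ∈ J)
    (hk : k ∈ J) : Matrix (Fin (BB E j).n) (Fin (BB E k).n) (RR J) :=
  cmat E (BB E j) (BB E k) (iM J j0 h0 j hj) (iM J j0 h0 k hk)

lemma cm_inc {J J' : Finset (Fin 3)} (h : J ⊆ J') (j0 j0' : Fin 3) (h0 : j0 ∈ J) (h0' : j0' ∈ J')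
    (j k : Fin 3) (hj : j ∈ J) (hk : k ∈ J) :
    (cm E J j0 h0 j k hj hk).map (inc h) = cm E J' j0' h0' j k (h hj) (h hk) := by
  unfold cm
  rw [← rM_iM h j0 j0' h0 h0' j hj, ← rM_iM h j0 j0' h0 h0' k hk, cmat_comp]
  rfl

/-- the automorphism given by `g_0` -/
noncomputable def g0M (J : Finset (Fin 3)) (j0 : Fin 3) (h0 : j0 ∈ J) :
    Mor (OX J j0 h0) (OX J j0 h0) := (P0 J j0 h0).mor

/-- the matrix of `g_0` -/
noncomputable def gm (J : Finset (Fin 3)) (j0 : Fin 3) (h0 : j0 ∈ J) (k : Fin 3)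
    (hk : k ∈ J) : Matrix (Fin (BB E k).n) (Fin (BB E k).n) (RR J) :=
  cmat E (BB E k) (BB E k) (iM J j0 h0 k hk) ((g0M J j0 h0).comp (iM J j0 h0 k hk))

lemma g0_map {R R' : Type} [CommRing R] [Algebra ℂ R] [CommRing R'] [Algebra ℂ R']
    (φ : R →ₐ[ℂ] R') : (g0 R).map (φ : R →+* R') = g0 R' := by
  apply B2.ext
  · apply Units.ext
    exact φ.commutes _
  · exact map_zero φ

lemma rM_P0 {J J' : Finset (Fin 3)} (h : J ⊆ J') (j0 j0' : Fin 3) (h0 : j0 ∈ J) (h0' : j0' ∈ J') :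
    (rM h j0 j0' h0 h0').comp (g0M J j0 h0) = (g0M J' j0' h0').comp (rM h j0 j0' h0 h0') := by
  apply Mor.ext'
  · exact AlgHom.ext fun f => rfl
  · exact B2.aux2 _ _ _ (g0_map (inc h)) _

lemma gm_inc {J J' : Finset (Fin 3)} (h : J ⊆ J') (j0 j0' : Fin 3) (h0 : j0 ∈ J) (h0' : j0' ∈ J')
    (k : Fin 3) (hk : k ∈ J) :
    (gm E J j0 h0 k hk).map (inc h) = gm E J' j0' h0' k (h hk) := by
  unfold gm
  rw [← rM_iM h j0 j0' h0 h0' k hk, ← Mor.comp_assoc, ← rM_P0 h j0 j0' h0 h0', Mor.comp_assoc,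
    cmat_comp]
  rfl

lemma cm_mul (J : Finset (Fin 3)) (j0 : Fin 3) (h0 : j0 ∈ J) (j k l : Fin 3) (hj : j ∈ J)
    (hk : k ∈ J) (hl : l ∈ J) :
    cm E J j0 h0 j k hj hk * cm E J j0 h0 k l hk hl = cm E J j0 h0 j l hj hl :=
  cmat_mul _ _ _ _ _ _ _

lemma cm_gm (J : Finset (Fin 3)) (j0 : Fin 3) (h0 : j0 ∈ J) (j k : Fin 3) (hj : j ∈ J)
    (hk : k ∈ J) :
    cm E J j0 h0 j k hj hk * gm E J j0 h0 k hk * cm E J j0 h0 k j hk hj = gm E J j0 h0 j hj := by
  have h1 : cmat E (BB E k) (BB E j) (iM J j0 h0 k hk) (iM J j0 h0 j hj) =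
      cmat E (BB E k) (BB E j) ((g0M J j0 h0).comp (iM J j0 h0 k hk))
        ((g0M J j0 h0).comp (iM J j0 h0 j hj)) := by
    rw [cmat_comp]
    rfl
  have h2 : cmat E (BB E j) (BB E k) (iM J j0 h0 j hj) (iM J j0 h0 k hk) *
      cmat E (BB E k) (BB E k) (iM J j0 h0 k hk) ((g0M J j0 h0).comp (iM J j0 h0 k hk)) *
      cmat E (BB E k) (BB E j) ((g0M J j0 h0).comp (iM J j0 h0 k hk))
        ((g0M J j0 h0).comp (iM J j0 h0 j hj)) =
      cmat E (BB E j) (BB E j) (iM J j0 h0 j hj) ((g0M J j0 h0).comp (iM J j0 h0 j hj)) := by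
    rw [cmat_mul, cmat_mul]
  rw [← h1] at h2
  exact h2

/-- `tr(c_{kj} D(c_{jk}) γ_k)` -/
noncomputable def om (lam : ℤ × ℤ →+ ℤ) (J : Finset (Fin 3)) (j0 : Fin 3) (h0 : j0 ∈ J)
    (j k : Fin 3) (hj : j ∈ J) (hk : k ∈ J) : RR J :=
  triple lam (cm E J j0 h0 k j hk hj) (cm E J j0 h0 j k hj hk) (gm E J j0 h0 k hk)

lemma om_inc {J J' : Finset (Fin 3)} (h : J ⊆ J') (lam : ℤ × ℤ →+ ℤ) (j0 j0' : Fin 3)
    (h0 : j0 ∈ J) (h0' : j0' ∈ J') (j k : Fin 3) (hj : j ∈ J) (hk : k ∈ J) :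
    inc h (om E lam J j0 h0 j k hj hk) = om E lam J' j0' h0' j k (h hj) (h hk) := by
  unfold om
  rw [← triple_inc, cm_inc E h j0 j0' h0 h0', cm_inc E h j0 j0' h0 h0', gm_inc E h j0 j0' h0 h0']

lemma om_cocycle (lam : ℤ × ℤ →+ ℤ) (J : Finset (Fin 3)) (j0 : Fin 3) (h0 : j0 ∈ J)
    (j k l : Fin 3) (hj : j ∈ J) (hk : k ∈ J) (hl : l ∈ J) :
    om E lam J j0 h0 j l hj hl = om E lam J j0 h0 j k hj hk + om E lam J j0 h0 k l hk hl := by
  unfold om triple
  set cjk := cm E J j0 h0 j k hj hk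
  set ckl := cm E J j0 h0 k l hk hl
  set ckj := cm E J j0 h0 k j hk hj
  set clk := cm E J j0 h0 l k hl hk
  set gl := gm E J j0 h0 l hl
  have e1 : cm E J j0 h0 j l hj hl = cjk * ckl := (cm_mul E J j0 h0 j k l hj hk hl).symm
  have e2 : cm E J j0 h0 l j hl hj = clk * ckj := (cm_mul E J j0 h0 l k j hl hk hj).symm
  have e3 : gm E J j0 h0 k hk = ckl * gl * clk := (cm_gm E J j0 h0 k l hk hl).symm
  have e4 : clk * ckj * cjk = clk := by
    rw [Matrix.mul_assoc, cm_mul, cm_mul]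
  rw [e1, e2, e3, map_DD_mul, Matrix.mul_add, Matrix.add_mul, Matrix.trace_add]
  congr 1
  · calc (clk * ckj * (cjk.map (DD J lam) * ckl) * gl).trace
        = (clk * (ckj * cjk.map (DD J lam) * (ckl * gl))).trace := by
          simp only [Matrix.mul_assoc]
      _ = ((ckj * cjk.map (DD J lam) * (ckl * gl)) * clk).trace := Matrix.trace_mul_comm _ _
      _ = _ := by simp only [Matrix.mul_assoc]
  · rw [← Matrix.mul_assoc (clk * ckj), e4]

lemma om_self (lam : ℤ × ℤ →+ ℤ) (J : Finset (Fin 3)) (j0 : Fin 3) (h0 : j0 ∈ J)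
    (k : Fin 3) (hk : k ∈ J) : om E lam J j0 h0 k k hk hk = 0 := by
  have := om_cocycle E lam J j0 h0 k k k hk hk hk
  exact (left_eq_add.mp this)

end bundle

end Pool.Agent.Helper2.FixK
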