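import Pool.Agent.Helper2.FixP4Pre

namespace Pool.Agent.Helper2.FixK

/-- `ℙ⁴(S)` -/
def ptsP4 (S : Type) [CommRing S] : Type := {L : Submodule S (Fin 5 → S) // IsLine L}

/-- base change of the points of `ℙ⁴` -/
def mapP4 {S T : Type} [CommRing S] [CommRing T] (φ : S →+* T) (L : ptsP4 S) : ptsP4 T :=
  ⟨extend φ L.1, isLine_extend φ L.2⟩

/-- action of `B_2` on the points of `ℙ⁴` -/
def smulP4 {S : Type} [CommRing S] (g : B2 S) (L : ptsP4 S) : ptsP4 S :=
  ⟨L.1.map (Matrix.mulVecLin (rho g)), isLine_smul g L.2⟩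

/-- The functor of points of `ℙ⁴ = ℙ(Sym⁴ ℂ²)` with its action of `B_2`. -/
def P4 : GSpace where
  pts S _ _ := ptsP4 S
  map φ L := mapP4 (φ : _ →+* _) L
  smul g L := smulP4 g L

end Pool.Agent.Helper2.FixK
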