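import Pool.Agent.Helper2.FixP4

namespace Pool.Agent.Helper2.FixK

instance isAction_P4 : P4.IsAction where
  map_id := by
    rintro S _ _ ⟨L, hL⟩
    apply Subtype.ext
    apply le_antisymm
    · exact extend_le _ fun v hv => hv
    · intro v hv
      exact vmap_mem _ hv
  map_comp := by
    rintro S T U _ _ _ _ _ _ ψ φ ⟨L, hL⟩
    apply Subtype.ext
    show extend _ L = extend _ (extend _ L)
    apply le_antisymm
    · refine extend_le _ fun v hv => ?_
      exact vmap_mem (ψ : T →+* U) (vmap_mem (φ : S →+* T) hv)
    · refine extend_le _ fun v hv => ?_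
      induction hv using Submodule.span_induction with
      | mem x hx =>
        obtain ⟨w, hw, rfl⟩ := hx
        exact vmap_mem ((ψ.comp φ : S →ₐ[ℂ] U) : S →+* U) hw
      | zero =>
        have : vmap (ψ : T →+* U) 0 = 0 := by ext; simp [vmap]
        rw [this]; exact Submodule.zero_mem _
      | add x y _ _ hx hy => rw [vmap_add]; exact Submodule.add_mem _ hx hy
      | smul a x _ hx => rw [vmap_smul]; exact Submodule.smul_mem _ _ hx
  one_smul := by
    rintro S _ _ ⟨L, hL⟩
    apply Subtype.ext
    show L.map _ = L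
    apply le_antisymm
    · rintro _ ⟨v, hv, rfl⟩
      have := rhoEquiv_one v
      rw [rhoEquiv_apply] at this
      rw [Matrix.mulVecLin_apply, this]
      exact hv
    · intro v hv
      exact ⟨v, hv, rhoEquiv_one v⟩
  mul_smul := by
    rintro S _ _ g h ⟨L, hL⟩
    apply Subtype.ext
    show L.map _ = (L.map _).map _
    rw [← Submodule.map_comp]
    congr 1
    apply LinearMap.ext
    intro v
    exact rhoEquiv_mul g h v
  map_smul := by
    rintro S T _ _ _ _ φ g ⟨L, hL⟩
    apply Subtype.ext
    show extend _ (L.map _) = (extend _ L).map _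
    apply le_antisymm
    · refine extend_le _ ?_
      rintro _ ⟨v, hv, rfl⟩
      exact ⟨vmap (φ : S →+* T) v, vmap_mem _ hv, (vmap_rho _ g v).symm⟩
    · rw [Submodule.map_le_iff_le_comap]
      refine extend_le _ fun v hv => ?_
      show rhoEquiv (g.map (φ : S →+* T)) (vmap (φ : S →+* T) v) ∈ extend (φ : S →+* T) _
      have := vmap_rho (φ : S →+* T) g v
      rw [← this]
      exact vmap_mem _ ⟨v, hv, rfl⟩

end Pool.Agent.Helper2.FixK
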