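import Pool.Agent.Helper2.FixDefs

namespace Pool.Agent.Helper2.FixK

open TensorProduct

variable {S T U : Type} [CommRing S] [CommRing T] [CommRing U]

namespace B2

instance : Inv (B2 S) := ⟨fun g => ⟨g.a⁻¹, -g.b⟩⟩

@[simp] lemma mul_a (g h : B2 S) : (g * h).a = g.a * h.a := rfl
@[simp] lemma mul_b (g h : B2 S) : (g * h).b = g.a * h.b + g.b * ↑h.a⁻¹ := rfl
@[simp] lemma one_a : (1 : B2 S).a = 1 := rfl
@[simp] lemma one_b : (1 : B2 S).b = 0 := rfl
@[simp] lemma inv_a (g : B2 S) : (g⁻¹).a = g.a⁻¹ := rfl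
@[simp] lemma inv_b (g : B2 S) : (g⁻¹).b = -g.b := rfl

instance : Group (B2 S) :=
  Group.ofLeftAxioms
    (by
      intro g h k
      ext
      · simp [mul_assoc]
      · simp only [mul_b, mul_a, Units.val_mul, mul_inv_rev]
        ring)
    (by
      intro g
      ext
      · simp
      · simp)
    (by
      intro g
      ext
      · simp
      · simp only [mul_b, inv_b, inv_a, one_b]
        ring)

@[simp] lemma map_a (φ : S →+* T) (g : B2 S) : (g.map φ).a = Units.map φ g.a := rfl
@[simp] lemma map_b (φ : S →+* T) (g : B2 S) : (g.map φ).b = φ g.b := rfl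

end B2

lemma affMat_mul (α β α' β' : S) :
    affMat (α * α') (α * β' + β) = affMat α β * affMat α' β' := by
  ext j k
  rw [Matrix.mul_apply]
  simp only [affMat, Matrix.of_apply, Fin.sum_univ_five]
  fin_cases j <;> fin_cases k <;> simp [Nat.choose] <;> ring

lemma rho_mul (g h : B2 S) : rho (g * h) = rho g * rho h := by
  have e1 : (((g * h).a : S)) = g.a * h.a := rfl
  have e2 : (((g * h).a : S)) * (g * h).b = (g.a : S) ^ 2 * (h.a * h.b) + g.a * g.b := by
    rw [e1, B2.mul_b]
    have : (h.a : S) * ↑h.a⁻¹ = 1 := by simp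
    linear_combination (g.a : S) * g.b * this
  rw [rho, e2, e1, mul_pow, affMat_mul, rho, rho]

lemma rho_one : rho (1 : B2 S) = 1 := by
  ext j k
  simp only [rho, affMat, Matrix.of_apply, B2.one_a, B2.one_b]
  fin_cases j <;> fin_cases k <;> simp [Nat.choose]

lemma rho_map (φ : S →+* T) (g : B2 S) : rho (g.map φ) = (rho g).map φ := by
  ext j k
  simp [rho, affMat]

/-- the linear automorphism given by `rho g` -/
noncomputable def rhoEquiv (g : B2 S) : (Fin 5 → S) ≃ₗ[S] (Fin 5 → S) :=
  LinearEquiv.ofLinearMap (Matrix.mulVecLin (rho g)) (Matrix.mulVecLin (rho g⁻¹))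
    (by rw [← Matrix.mulVecLin_mul, ← rho_mul, mul_inv_cancel, rho_one, Matrix.mulVecLin_one])
    (by rw [← Matrix.mulVecLin_mul, ← rho_mul, inv_mul_cancel, rho_one, Matrix.mulVecLin_one])

@[simp] lemma rhoEquiv_apply (g : B2 S) (v : Fin 5 → S) : rhoEquiv g v = (rho g).mulVec v := rfl

lemma rhoEquiv_one (v : Fin 5 → S) : rhoEquiv (1 : B2 S) v = v := by
  simp [rho_one]

lemma rhoEquiv_mul (g h : B2 S) (v : Fin 5 → S) :
    rhoEquiv (g * h) v = rhoEquiv g (rhoEquiv h v) := by
  simp [rho_mul, Matrix.mulVec_mulVec]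

lemma vmap_rho (φ : S →+* T) (g : B2 S) (v : Fin 5 → S) :
    vmap φ (rhoEquiv g v) = rhoEquiv (g.map φ) (vmap φ v) := by
  ext i
  simp only [vmap, rhoEquiv_apply, rho_map, Matrix.mulVec, dotProduct, map_sum, map_mul,
    Matrix.map_apply]

lemma vmap_add (φ : S →+* T) (v w : Fin 5 → S) : vmap φ (v + w) = vmap φ v + vmap φ w := by
  ext i; simp [vmap]

lemma vmap_smul (φ : S →+* T) (s : S) (w : Fin 5 → S) : vmap φ (s • w) = φ s • vmap φ w := by
  ext i; simp [vmap]

lemma vmap_mem (φ : S →+* T) {L : Submodule S (Fin 5 → S)} {v : Fin 5 → S} (hv : v ∈ L) :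
    vmap φ v ∈ extend φ L := Submodule.subset_span ⟨v, hv, rfl⟩

lemma extend_le (φ : S →+* T) {L : Submodule S (Fin 5 → S)} {K : Submodule T (Fin 5 → T)}
    (h : ∀ v ∈ L, vmap φ v ∈ K) : extend φ L ≤ K := by
  rw [extend, Submodule.span_le]
  rintro _ ⟨v, hv, rfl⟩
  exact h v hv

/-- The extension of a semilinear map on `S^5` to `T^5`. -/
noncomputable def semiExt (φ : S →+* T) {Q : Type} [AddCommGroup Q] [Module T Q]
    (f : (Fin 5 → S) →+ Q) : (Fin 5 → T) →ₗ[T] Q :=
  (Pi.basisFun T (Fin 5)).constr T (fun i => f (Pi.single i 1))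

lemma semiExt_vmap (φ : S →+* T) {Q : Type} [AddCommGroup Q] [Module T Q]
    (f : (Fin 5 → S) →+ Q) (hf : ∀ (s : S) (v : Fin 5 → S), f (s • v) = φ s • f v)
    (v : Fin 5 → S) : semiExt φ f (vmap φ v) = f v := by
  rw [semiExt, Module.Basis.constr_apply_fintype]
  conv_rhs => rw [← (Pi.basisFun S (Fin 5)).sum_repr v]
  rw [map_sum]
  refine Finset.sum_congr rfl fun i _ => ?_
  rw [hf]
  simp [vmap]

/-- The universal property of `L → extend φ L`. -/
lemma extend_univ (φ : S →+* T) {L C : Submodule S (Fin 5 → S)} (hC : IsCompl L C)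
    {Q : Type} [AddCommGroup Q] [Module T Q] (f : L →+ Q)
    (hf : ∀ (s : S) (v : L), f (s • v) = φ s • f v) :
    ∃ f' : (Fin 5 → T) →ₗ[T] Q, ∀ v : L, f' (vmap φ v) = f v := by
  let pr : (Fin 5 → S) →ₗ[S] L := L.projectionOnto C hC
  let F : (Fin 5 → S) →+ Q := f.comp pr.toAddMonoidHom
  refine ⟨semiExt φ F, fun v => ?_⟩
  rw [semiExt_vmap φ F]
  · show f (pr v) = f v
    congr 1
    exact Submodule.projectionOnto_apply_left hC v
  · intro s v
    show f (pr (s • v)) = φ s • f (pr v)
    rw [map_smul, hf]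

lemma isCompl_extend (φ : S →+* T) {L C : Submodule S (Fin 5 → S)} (hC : IsCompl L C) :
    IsCompl (extend φ L) (extend φ C) := by
  -- the projector onto `L`
  let pr : (Fin 5 → S) →ₗ[S] (Fin 5 → S) := L.subtype ∘ₗ L.projectionOnto C hC
  let F : (Fin 5 → S) →+ (Fin 5 → T) :=
    { toFun := fun v => vmap φ (pr v), map_zero' := by ext; simp [vmap],
      map_add' := fun v w => by rw [map_add, vmap_add] }
  have hF : ∀ v, semiExt φ F (vmap φ v) = vmap φ (pr v) := semiExt_vmap φ F (by
    intro s v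
    show vmap φ (pr (s • v)) = _
    rw [map_smul, vmap_smul]; rfl)
  have hL : ∀ v ∈ extend φ L, semiExt φ F v = v := by
    intro v hv
    induction hv using Submodule.span_induction with
    | mem x hx =>
      obtain ⟨w, hw, rfl⟩ := hx
      rw [hF]
      congr 1
      show (L.projectionOnto C hC w : Fin 5 → S) = w
      rw [Submodule.projectionOnto_apply_left hC ⟨w, hw⟩]
    | zero => simp
    | add x y _ _ hx hy => rw [map_add, hx, hy]
    | smul a x _ hx => rw [map_smul, hx]
  have hC' : ∀ v ∈ extend φ C, semiExt φ F v = 0 := by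
    intro v hv
    induction hv using Submodule.span_induction with
    | mem x hx =>
      obtain ⟨w, hw, rfl⟩ := hx
      rw [hF]
      have : pr w = 0 := by
        show (L.projectionOnto C hC w : Fin 5 → S) = 0
        rw [Submodule.projectionOnto_apply_right hC ⟨w, hw⟩]
        rfl
      rw [this]
      ext; simp [vmap]
    | zero => simp
    | add x y _ _ hx hy => rw [map_add, hx, hy, add_zero]
    | smul a x _ hx => rw [map_smul, hx, smul_zero]
  constructor
  · rw [Submodule.disjoint_def]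
    intro x hx hx'
    rw [← hL x hx, hC' x hx']
  · rw [codisjoint_iff, eq_top_iff]
    intro v _
    have : v = ∑ i, v i • vmap φ (Pi.single i 1) := by
      ext j
      simp [vmap, Finset.sum_apply, Pi.single_apply, apply_ite φ]
    rw [this]
    refine Submodule.sum_mem _ fun i _ => Submodule.smul_mem _ _ ?_
    have h1 : (Pi.single i 1 : Fin 5 → S) ∈ L ⊔ C := by rw [hC.sup_eq_top]; trivial
    obtain ⟨y, hy, z, hz, hyz⟩ := Submodule.mem_sup.mp h1
    rw [← hyz, vmap_add]
    exact Submodule.add_mem_sup (vmap_mem φ hy) (vmap_mem φ hz)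

lemma invertible_extend (φ : S →+* T) {L C : Submodule S (Fin 5 → S)} (hC : IsCompl L C)
    (hL : Module.Invertible S L) : Module.Invertible T (extend φ L) := by
  letI : Algebra S T := φ.toAlgebra
  have hφ : ∀ s, algebraMap S T s = φ s := fun s => rfl
  -- forward map
  let f0 : L →ₗ[S] (Fin 5 → T) :=
    { toFun := fun v => vmap φ v, map_add' := fun v w => vmap_add φ v w,
      map_smul' := fun s v => by
        show vmap φ (s • (v : Fin 5 → S)) = s • vmap φ v
        rw [vmap_smul]
        ext i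
        simp [Algebra.smul_def, hφ] }
  let A : T ⊗[S] L →ₗ[T] (Fin 5 → T) := TensorProduct.AlgebraTensorModule.lift
    { toFun := fun t => t • f0, map_add' := fun a b => add_smul a b f0,
      map_smul' := fun a b => by simp [mul_smul] }
  have hA : ∀ (t : T) (v : L), A (t ⊗ₜ v) = t • vmap φ v := fun t v => rfl
  obtain ⟨B, hB⟩ := extend_univ φ hC (Q := T ⊗[S] L)
    { toFun := fun v => (1 : T) ⊗ₜ[S] v, map_zero' := TensorProduct.tmul_zero _ _,
      map_add' := fun v w => TensorProduct.tmul_add _ _ _ }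
    (by
      intro s v
      show (1 : T) ⊗ₜ[S] (s • v) = φ s • ((1 : T) ⊗ₜ[S] v)
      rw [TensorProduct.tmul_smul, TensorProduct.smul_tmul', TensorProduct.smul_tmul',
        Algebra.smul_def, hφ]
      simp)
  have hBA : ∀ x, B (A x) = x := by
    intro x
    induction x using TensorProduct.induction_on with
    | zero => simp
    | tmul t v =>
      rw [hA, map_smul]
      have := hB v
      rw [this]
      show t • ((1 : T) ⊗ₜ[S] v) = _
      rw [TensorProduct.smul_tmul', smul_eq_mul, mul_one]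
    | add x y hx hy => rw [map_add, map_add, hx, hy]
  have hrange : LinearMap.range A = extend φ L := by
    apply le_antisymm
    · rintro _ ⟨x, rfl⟩
      induction x using TensorProduct.induction_on with
      | zero => simp
      | tmul t v => rw [hA]; exact Submodule.smul_mem _ _ (vmap_mem φ v.2)
      | add x y hx hy => rw [map_add]; exact Submodule.add_mem _ hx hy
    · refine extend_le φ fun v hv => ⟨1 ⊗ₜ ⟨v, hv⟩, ?_⟩
      rw [hA, one_smul]
  have e : (T ⊗[S] L) ≃ₗ[T] extend φ L :=
    (LinearEquiv.ofInjective A (Function.LeftInverse.injective hBA)).trans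
      (LinearEquiv.ofEq _ _ hrange)
  exact Module.Invertible.congr e

lemma isLine_extend (φ : S →+* T) {L : Submodule S (Fin 5 → S)} (hL : IsLine L) :
    IsLine (extend φ L) := by
  obtain ⟨h1, C, hC⟩ := hL
  exact ⟨invertible_extend φ hC h1, extend φ C, isCompl_extend φ hC⟩

lemma isLine_map (e : (Fin 5 → S) ≃ₗ[S] (Fin 5 → S)) {L : Submodule S (Fin 5 → S)}
    (hL : IsLine L) : IsLine (L.map (e : (Fin 5 → S) →ₗ[S] (Fin 5 → S))) := by
  obtain ⟨h1, C, hC⟩ := hL
  refine ⟨Module.Invertible.congr (e.submoduleMap L), C.map (e : (Fin 5 → S) →ₗ[S] (Fin 5 → S)), ?_⟩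
  exact (Submodule.orderIsoMapComap e).isCompl hC

lemma isLine_smul (g : B2 S) {L : Submodule S (Fin 5 → S)} (hL : IsLine L) :
    IsLine (L.map (Matrix.mulVecLin (rho g))) := isLine_map (rhoEquiv g) hL

end Pool.Agent.Helper2.FixK
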