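import Pool.Agent.Helper2.FixFinal

namespace Pool.Agent.Helper2.FixK

lemma affMat_eps_row (v : Fin 5 → DualNumber ℂ) (j : Fin 5) :
    rhoEquiv expE v j = ∑ k : Fin 5, (Nat.choose (j : ℕ) (k : ℕ) : DualNumber ℂ) * DualNumber.eps ^ ((j : ℕ) - (k : ℕ)) *
      v k := by
  rw [rhoEquiv_apply, rho, Matrix.mulVec, dotProduct]
  refine Finset.sum_congr rfl fun k _ => ?_
  simp only [expE, affMat, Matrix.of_apply, Units.val_one, one_pow, one_mul, mul_one]

lemma eps_sq : (DualNumber.eps : DualNumber ℂ) ^ 2 = 0 := by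
  rw [sq, DualNumber.eps_mul_eps]

theorem regular_P4 : IsRegularAction P4 := by
  refine ⟨lineOf (Pi.single 4 1) (uni_single 4), ?_, ?_⟩
  · show P4.smul expE (P4.map (Algebra.ofId ℂ (DualNumber ℂ)) (lineOf (Pi.single 4 1)
      (uni_single 4))) = P4.map (Algebra.ofId ℂ (DualNumber ℂ)) (lineOf (Pi.single 4 1)
      (uni_single 4))
    rw [map_lineOf]
    apply fix_of_eigen _ _ _ 1
    rw [vmap_single, Units.val_one, one_smul]
    ext1 j
    rw [affMat_eps_row, Finset.sum_eq_single 4]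
    · fin_cases j <;> simp [Nat.choose]
    · intro k _ hk
      rw [Pi.single_eq_of_ne hk, mul_zero]
    · simp
  · intro x hx
    obtain ⟨v, hv, h⟩ := x.2.exists_uni
    have hx1 : x = lineOf v hv := Subtype.ext h
    subst hx1
    have hx2 : P4.smul expE (P4.map (Algebra.ofId ℂ (DualNumber ℂ)) (lineOf v hv)) =
      P4.map (Algebra.ofId ℂ (DualNumber ℂ)) (lineOf v hv) := hx
    rw [map_lineOf] at hx2
    obtain ⟨c, hc⟩ := eigen_of_fix _ _ _ hx2
    have hrow : ∀ j : Fin 5, ∑ k : Fin 5, (Nat.choose (j : ℕ) (k : ℕ) : DualNumber ℂ) *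
        DualNumber.eps ^ ((j : ℕ) - (k : ℕ)) * (TrivSqZeroExt.inl (v k) : DualNumber ℂ) =
        c * TrivSqZeroExt.inl (v j) := by
      intro j
      rw [← affMat_eps_row (fun k => TrivSqZeroExt.inl (v k)) j]
      exact congrFun hc j
    have e3 : (DualNumber.eps : DualNumber ℂ) ^ 3 = 0 := by
      rw [pow_succ, eps_sq, zero_mul]
    have e4 : (DualNumber.eps : DualNumber ℂ) ^ 4 = 0 := by
      rw [pow_succ, e3, zero_mul]
    have r0 := congrArg TrivSqZeroExt.snd (hrow 0)
    have r1 := congrArg TrivSqZeroExt.snd (hrow 1)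
    have r2 := congrArg TrivSqZeroExt.snd (hrow 2)
    have r3 := congrArg TrivSqZeroExt.snd (hrow 3)
    have r4 := congrArg TrivSqZeroExt.snd (hrow 4)
    simp [Fin.sum_univ_five, Nat.choose, e3, e4] at r0 r1 r2 r3 r4
    have f2 : TrivSqZeroExt.fst (2 : DualNumber ℂ) = 2 := rfl
    have f3 : TrivSqZeroExt.fst (3 : DualNumber ℂ) = 3 := rfl
    have f4 : TrivSqZeroExt.fst (4 : DualNumber ℂ) = 4 := rfl
    rw [f2] at r2
    rw [f3] at r3
    rw [f4] at r4
    have hzero : v 0 = 0 ∧ v 1 = 0 ∧ v 2 = 0 ∧ v 3 = 0 := by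
      by_cases h1 : TrivSqZeroExt.snd c = 0
      · rw [h1, zero_mul] at r1 r2 r3 r4
        simp only [mul_eq_zero, OfNat.ofNat_ne_zero, false_or] at r2 r3 r4
        exact ⟨r1, r2, r3, r4⟩
      · exfalso
        have v0 : v 0 = 0 := r0.resolve_left h1
        rw [v0] at r1
        have v1 : v 1 = 0 := (mul_eq_zero.mp r1.symm).resolve_left h1
        rw [v1, mul_zero] at r2
        have v2 : v 2 = 0 := (mul_eq_zero.mp r2.symm).resolve_left h1
        rw [v2, mul_zero] at r3
        have v3 : v 3 = 0 := (mul_eq_zero.mp r3.symm).resolve_left h1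
        rw [v3, mul_zero] at r4
        have v4 : v 4 = 0 := (mul_eq_zero.mp r4.symm).resolve_left h1
        obtain ⟨d, hd⟩ := hv
        simp [Fin.sum_univ_five, v0, v1, v2, v3, v4] at hd
    obtain ⟨v0, v1, v2, v3⟩ := hzero
    have v4 : v 4 ≠ 0 := by
      intro v4
      obtain ⟨d, hd⟩ := hv
      simp [Fin.sum_univ_five, v0, v1, v2, v3, v4] at hd
    refine (lineOf_eq (uni_single 4) hv (Units.mk0 _ v4) ?_).symm
    ext j
    fin_cases j <;> simp [v0, v1, v2, v3]

/-- `e` is a regular element of the Lie algebra of `B_2`: its centraliser is the line spanned by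
`e`. -/
theorem regular_e (x y : ℂ) : lieB2 x y * lieB2 0 1 = lieB2 0 1 * lieB2 x y ↔ x = 0 := by
  constructor
  · intro h
    have h3 := congrFun (congrFun h 0) 1
    simp [lieB2, Matrix.mul_apply, Fin.sum_univ_two] at h3
    linear_combination h3 / 2
  · rintro rfl
    ext i j
    fin_cases i <;> fin_cases j <;> simp [lieB2]

end Pool.Agent.Helper2.FixK
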