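import Pool.Agent.Helper2.FixC

namespace Pool.Agent.Helper2.FixK

/-! ### dual numbers -/

/-- the dual number `a + b ε` -/
def mkD {R : Type} (a b : R) : DualNumber R := (a, b)

@[simp] lemma mkD_fst {R : Type} (a b : R) : (mkD a b).fst = a := rfl
@[simp] lemma mkD_snd {R : Type} (a b : R) : (mkD a b).snd = b := rfl

/-- base change of dual numbers -/
def dmap {R R' : Type} [CommRing R] [Algebra ℂ R] [CommRing R'] [Algebra ℂ R'] (φ : R →ₐ[ℂ] R') :
    DualNumber R →ₐ[ℂ] DualNumber R' where
  toFun x := mkD (φ x.fst) (φ x.snd)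
  map_one' := by
    apply TrivSqZeroExt.ext <;> simp
  map_zero' := by
    apply TrivSqZeroExt.ext <;> simp
  map_add' x y := by
    apply TrivSqZeroExt.ext <;> simp
  map_mul' x y := by
    apply TrivSqZeroExt.ext <;> simp
  commutes' r := by
    apply TrivSqZeroExt.ext
    · show φ (algebraMap ℂ (DualNumber R) r).fst = (algebraMap ℂ (DualNumber R') r).fst
      rw [TrivSqZeroExt.algebraMap_eq_inl', TrivSqZeroExt.algebraMap_eq_inl']
      simp
    · show φ (algebraMap ℂ (DualNumber R) r).snd = (algebraMap ℂ (DualNumber R') r).snd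
      rw [TrivSqZeroExt.algebraMap_eq_inl', TrivSqZeroExt.algebraMap_eq_inl']
      simp

@[simp] lemma dmap_fst {R R' : Type} [CommRing R] [Algebra ℂ R] [CommRing R'] [Algebra ℂ R']
    (φ : R →ₐ[ℂ] R') (x : DualNumber R) : (dmap φ x).fst = φ x.fst := rfl
@[simp] lemma dmap_snd {R R' : Type} [CommRing R] [Algebra ℂ R] [CommRing R'] [Algebra ℂ R']
    (φ : R →ₐ[ℂ] R') (x : DualNumber R) : (dmap φ x).snd = φ x.snd := rfl

/-! ### monomial algebras -/

/-- the exponent of `v_l` (`l = 0, 1, 2`) in the degree zero monomial `m` -/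
def ell : Fin 3 → (ℤ × ℤ →+ ℤ) :=
  ![-AddMonoidHom.fst ℤ ℤ - AddMonoidHom.snd ℤ ℤ, AddMonoidHom.fst ℤ ℤ, AddMonoidHom.snd ℤ ℤ]

/-- the exponent of `v_k / v_0` -/
def EE : Fin 3 → ℤ × ℤ := ![(0, 0), (1, 0), (0, 1)]

lemma ell_EE (l k j : Fin 3) : ell l (EE k - EE j) =
    (if l = k then 1 else 0) - (if l = j then 1 else 0) := by
  fin_cases l <;> fin_cases k <;> fin_cases j <;> simp [ell, EE]

lemma ell_sum (m : ℤ × ℤ) : ell 0 m = - ell 1 m - ell 2 m := by
  simp [ell]

/-- the exponents of monomials with poles only along `v_j = 0`, `j ∈ J` -/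
def cone (J : Finset (Fin 3)) : AddSubmonoid (ℤ × ℤ) where
  carrier := {m | ∀ l ∉ J, 0 ≤ ell l m}
  zero_mem' := by intro l _; rw [map_zero]
  add_mem' := by
    intro a b ha hb l hl
    rw [map_add]
    exact add_nonneg (ha l hl) (hb l hl)

/-- the functions on the chart `v_j ≠ 0, j ∈ J` of `ℙ²` -/
abbrev RR (J : Finset (Fin 3)) : Type := AddMonoidAlgebra ℂ (cone J)

noncomputable def mon (J : Finset (Fin 3)) (m : cone J) : RR J := AddMonoidAlgebra.single m 1

lemma mon_mul {J : Finset (Fin 3)} (m n : cone J) : mon J m * mon J n = mon J (m + n) := by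
  simp [mon, AddMonoidAlgebra.single_mul_single]

lemma mon_zero {J : Finset (Fin 3)} : mon J 0 = 1 := rfl

/-- inclusion -/
lemma cone_mono {J J' : Finset (Fin 3)} (h : J ⊆ J') : cone J ≤ cone J' :=
  fun _ hm l hl => hm l (fun h' => hl (h h'))

noncomputable def inc {J J' : Finset (Fin 3)} (h : J ⊆ J') : RR J →ₐ[ℂ] RR J' :=
  AddMonoidAlgebra.mapDomainAlgHom ℂ ℂ (AddSubmonoid.inclusion (cone_mono h))

lemma inc_mon {J J' : Finset (Fin 3)} (h : J ⊆ J') (m : cone J) :
    inc h (mon J m) = mon J' (AddSubmonoid.inclusion (cone_mono h) m) := by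
  simp [inc, mon]

/-- coefficient of the constant monomial -/
def coef0 {J : Finset (Fin 3)} (f : RR J) : ℂ := f.coeff 0

lemma coef0_add {J : Finset (Fin 3)} (f g : RR J) : coef0 (f + g) = coef0 f + coef0 g := rfl

lemma coef0_zero {J : Finset (Fin 3)} : coef0 (0 : RR J) = 0 := rfl

lemma coef0_smul {J : Finset (Fin 3)} (c : ℂ) (f : RR J) : coef0 (c • f) = c * coef0 f := rfl

lemma coef0_neg {J : Finset (Fin 3)} (f : RR J) : coef0 (-f) = - coef0 f := by
  have := coef0_add f (-f)
  rw [add_neg_cancel, coef0_zero] at this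
  linear_combination -this

lemma coef0_sub {J : Finset (Fin 3)} (f g : RR J) : coef0 (f - g) = coef0 f - coef0 g := by
  rw [sub_eq_add_neg, coef0_add, coef0_neg, sub_eq_add_neg]

lemma coef0_sum {J : Finset (Fin 3)} {ι : Type} (s : Finset ι) (f : ι → RR J) :
    coef0 (∑ i ∈ s, f i) = ∑ i ∈ s, coef0 (f i) :=
  map_sum (AddMonoidHom.mk' (coef0 (J := J)) coef0_add) f s

lemma coef0_single {J : Finset (Fin 3)} (m : cone J) (c : ℂ) :
    coef0 (AddMonoidAlgebra.single m c : RR J) = if m = 0 then c else 0 := by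
  unfold coef0
  rw [AddMonoidAlgebra.coeff_single, Finsupp.single_apply]

lemma coef0_inc {J J' : Finset (Fin 3)} (h : J ⊆ J') (f : RR J) : coef0 (inc h f) = coef0 f := by
  induction f using AddMonoidAlgebra.induction_linear with
  | zero => simp [coef0_zero]
  | add f g hf hg => rw [map_add, coef0_add, coef0_add, hf, hg]
  | single m c =>
    have : inc h (AddMonoidAlgebra.single m c) =
      AddMonoidAlgebra.single (AddSubmonoid.inclusion (cone_mono h) m) c := by simp [inc]
    rw [this, coef0_single, coef0_single]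
    have h2 : AddSubmonoid.inclusion (cone_mono h) m = 0 ↔ m = 0 := by
      constructor
      · intro h3
        have h4 : ((AddSubmonoid.inclusion (cone_mono h) m : cone J') : ℤ × ℤ) = 0 := by
          rw [h3]; rfl
        exact Subtype.ext h4
      · rintro rfl; rfl
    simp only [h2]

/-- The homomorphism `R → R[ε]` with `m ↦ m (1 + λ(m) ε)`. -/
noncomputable def dlog (J : Finset (Fin 3)) (lam : ℤ × ℤ →+ ℤ) : RR J →ₐ[ℂ] DualNumber (RR J) :=
  AddMonoidAlgebra.lift ℂ (DualNumber (RR J)) (cone J)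
    { toFun := fun m => mkD (mon J m.toAdd) (((lam (m.toAdd : ℤ × ℤ) : ℤ) : ℂ) • mon J m.toAdd)
      map_one' := by
        apply TrivSqZeroExt.ext
        · exact mon_zero
        · show ((lam ((0 : cone J) : ℤ × ℤ) : ℤ) : ℂ) • _ = _
          simp
      map_mul' := by
        intro m n
        apply TrivSqZeroExt.ext
        · exact (mon_mul _ _).symm
        · rw [TrivSqZeroExt.snd_mul]
          show ((lam ((m.toAdd + n.toAdd : cone J) : ℤ × ℤ) : ℤ) : ℂ) • mon J (m.toAdd + n.toAdd) =
            mon J m.toAdd • (((lam (n.toAdd : ℤ × ℤ) : ℤ) : ℂ) • mon J n.toAdd) +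
            MulOpposite.op (mon J n.toAdd) • (((lam (m.toAdd : ℤ × ℤ) : ℤ) : ℂ) • mon J m.toAdd)
          rw [← mon_mul]
          simp only [AddSubmonoid.coe_add, map_add, Int.cast_add, add_smul, smul_eq_mul,
            MulOpposite.smul_eq_mul_unop, MulOpposite.unop_op, smul_mul_assoc, mul_smul_comm]
          rw [add_comm] }

lemma dlog_single (J : Finset (Fin 3)) (lam : ℤ × ℤ →+ ℤ) (m : cone J) (c : ℂ) :
    dlog J lam (AddMonoidAlgebra.single m c) =
      c • mkD (mon J m) (((lam (m : ℤ × ℤ) : ℤ) : ℂ) • mon J m) := by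
  unfold dlog
  rw [AddMonoidAlgebra.lift_single]
  rfl

lemma dlog_mon (J : Finset (Fin 3)) (lam : ℤ × ℤ →+ ℤ) (m : cone J) :
    dlog J lam (mon J m) = mkD (mon J m) (((lam (m : ℤ × ℤ) : ℤ) : ℂ) • mon J m) := by
  rw [mon, dlog_single, one_smul]
  rfl

/-- the derivation -/
noncomputable def DD (J : Finset (Fin 3)) (lam : ℤ × ℤ →+ ℤ) (f : RR J) : RR J := (dlog J lam f).snd

lemma dlog_fst (J : Finset (Fin 3)) (lam : ℤ × ℤ →+ ℤ) (f : RR J) : (dlog J lam f).fst = f := by
  induction f using AddMonoidAlgebra.induction_linear with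
  | zero => simp
  | add f g hf hg => rw [map_add, TrivSqZeroExt.fst_add, hf, hg]
  | single m c =>
    rw [dlog_single, TrivSqZeroExt.fst_smul]
    show c • mon J m = _
    simp [mon]

lemma DD_add (J : Finset (Fin 3)) (lam : ℤ × ℤ →+ ℤ) (f g : RR J) :
    DD J lam (f + g) = DD J lam f + DD J lam g := by
  unfold DD
  rw [map_add, TrivSqZeroExt.snd_add]

lemma DD_zero (J : Finset (Fin 3)) (lam : ℤ × ℤ →+ ℤ) : DD J lam 0 = 0 := by
  unfold DD
  rw [map_zero, TrivSqZeroExt.snd_zero]

lemma DD_mul (J : Finset (Fin 3)) (lam : ℤ × ℤ →+ ℤ) (f g : RR J) :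
    DD J lam (f * g) = DD J lam f * g + f * DD J lam g := by
  unfold DD
  rw [map_mul, TrivSqZeroExt.snd_mul, dlog_fst, dlog_fst]
  simp only [smul_eq_mul, MulOpposite.smul_eq_mul_unop, MulOpposite.unop_op]
  ring

lemma DD_sum (J : Finset (Fin 3)) (lam : ℤ × ℤ →+ ℤ) {ι : Type} (s : Finset ι) (f : ι → RR J) :
    DD J lam (∑ i ∈ s, f i) = ∑ i ∈ s, DD J lam (f i) :=
  map_sum (AddMonoidHom.mk' (DD J lam) (DD_add J lam)) f s

lemma DD_single (J : Finset (Fin 3)) (lam : ℤ × ℤ →+ ℤ) (m : cone J) (c : ℂ) :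
    DD J lam (AddMonoidAlgebra.single m c) =
      AddMonoidAlgebra.single m (c * ((lam (m : ℤ × ℤ) : ℤ) : ℂ)) := by
  unfold DD
  rw [dlog_single, TrivSqZeroExt.snd_smul]
  show c • ((lam (m : ℤ × ℤ) : ℤ) : ℂ) • mon J m = _
  simp [mon]

lemma DD_inc {J J' : Finset (Fin 3)} (h : J ⊆ J') (lam : ℤ × ℤ →+ ℤ) (f : RR J) :
    DD J' lam (inc h f) = inc h (DD J lam f) := by
  induction f using AddMonoidAlgebra.induction_linear with
  | zero => simp [DD_zero]
  | add f g hf hg => rw [map_add, DD_add, DD_add, hf, hg, map_add]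
  | single m c =>
    have : ∀ c, inc h (AddMonoidAlgebra.single m c) =
      AddMonoidAlgebra.single (AddSubmonoid.inclusion (cone_mono h) m) c := by
        intro c; simp [inc]
    rw [this, DD_single, DD_single, this]
    rfl

lemma dlog_inc {J J' : Finset (Fin 3)} (h : J ⊆ J') (lam : ℤ × ℤ →+ ℤ) (f : RR J) :
    dlog J' lam (inc h f) = dmap (inc h) (dlog J lam f) := by
  apply TrivSqZeroExt.ext
  · rw [dlog_fst, dmap_fst, dlog_fst]
  · rw [dmap_snd]
    exact DD_inc h lam f

lemma DD_add_lam (J : Finset (Fin 3)) (lam mu : ℤ × ℤ →+ ℤ) (f : RR J) :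
    DD J (lam + mu) f = DD J lam f + DD J mu f := by
  induction f using AddMonoidAlgebra.induction_linear with
  | zero => simp [DD_zero]
  | add f g hf hg => rw [DD_add, DD_add, DD_add, hf, hg]; ring
  | single m c =>
    rw [DD_single, DD_single, DD_single, ← AddMonoidAlgebra.single_add]
    congr 1
    simp
    ring

lemma DD_nsmul_lam (J : Finset (Fin 3)) (n : ℤ) (lam : ℤ × ℤ →+ ℤ) (f : RR J) :
    DD J (n • lam) f = (n : ℂ) • DD J lam f := by
  induction f using AddMonoidAlgebra.induction_linear with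
  | zero => simp [DD_zero]
  | add f g hf hg => rw [DD_add, DD_add, hf, hg, smul_add]
  | single m c =>
    rw [DD_single, DD_single]
    simp
    ring_nf

/-- the key vanishing -/
lemma coef0_mul_DD {J : Finset (Fin 3)} {l : Fin 3} (hl : l ∉ J) (f g : RR J) :
    coef0 (f * DD J (ell l) g) = 0 := by
  induction f using AddMonoidAlgebra.induction_linear with
  | zero => rw [zero_mul, coef0_zero]
  | add f f' hf hf' => rw [add_mul, coef0_add, hf, hf', add_zero]
  | single m c =>
    induction g using AddMonoidAlgebra.induction_linear with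
    | zero => rw [DD_zero, mul_zero, coef0_zero]
    | add g g' hg hg' => rw [DD_add, mul_add, coef0_add, hg, hg', add_zero]
    | single n d =>
      rw [DD_single, AddMonoidAlgebra.single_mul_single, coef0_single]
      split_ifs with h
      · have h1 : ell l (m : ℤ × ℤ) + ell l (n : ℤ × ℤ) = 0 := by
          rw [← map_add, ← AddSubmonoid.coe_add, h]
          simp
        have h2 := m.2 l hl
        have h3 := n.2 l hl
        have h4 : ell l (n : ℤ × ℤ) = 0 := by omega
        rw [h4]
        simp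
      · rfl

/-- evaluation at the vertex of a pointed cone -/
lemma cone_pointed (j : Fin 3) (m n : cone {j}) (h : m + n = 0) : m = 0 := by
  have h1 : ∀ l, l ≠ j → ell l (m : ℤ × ℤ) = 0 := by
    intro l hl
    have hl' : l ∉ ({j} : Finset (Fin 3)) := by simpa using hl
    have h2 := m.2 l hl'
    have h3 := n.2 l hl'
    have h4 : ell l (m : ℤ × ℤ) + ell l (n : ℤ × ℤ) = 0 := by
      rw [← map_add, ← AddSubmonoid.coe_add, h]
      simp
    omega
  apply Subtype.ext
  obtain ⟨⟨x, y⟩, hm⟩ := m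
  show (x, y) = (0, 0)
  fin_cases j
  · have a := h1 1 (by decide)
    have b := h1 2 (by decide)
    simp [ell] at a b
    simp [a, b]
  · have a := h1 0 (by decide)
    have b := h1 2 (by decide)
    simp [ell] at a b
    have : x = 0 := by omega
    simp [this, b]
  · have a := h1 0 (by decide)
    have b := h1 1 (by decide)
    simp [ell] at a b
    have : y = 0 := by omega
    simp [this, b]

noncomputable def vert (j : Fin 3) : RR {j} →ₐ[ℂ] ℂ :=
  AddMonoidAlgebra.lift ℂ ℂ (cone {j})
    { toFun := fun m => if m.toAdd = 0 then 1 else 0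
      map_one' := by simp
      map_mul' := by
        intro m n
        show (if m.toAdd + n.toAdd = 0 then (1 : ℂ) else 0) = _
        by_cases h : m.toAdd = 0
        · simp [h]
        · by_cases h' : m.toAdd + n.toAdd = 0
          · exact absurd (cone_pointed j _ _ h') h
          · simp [h, h'] }

lemma vert_eq (j : Fin 3) (f : RR {j}) : vert j f = coef0 f := by
  induction f using AddMonoidAlgebra.induction_linear with
  | zero => rw [map_zero, coef0_zero]
  | add f g hf hg => rw [map_add, coef0_add, hf, hg]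
  | single m c =>
    unfold vert
    rw [AddMonoidAlgebra.lift_single, coef0_single]
    show c • (if m = 0 then (1 : ℂ) else 0) = _
    split_ifs <;> simp

end Pool.Agent.Helper2.FixK
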