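import Pool.Agent.Helper2.FixKappa

namespace Pool.Agent.Helper2.FixK

open TensorProduct

variable {S T U : Type} [CommRing S] [CommRing T] [CommRing U]

/-- unimodular vectors -/
def Uni (v : Fin 5 → S) : Prop := ∃ c : Fin 5 → S, ∑ i, c i * v i = 1

lemma Uni.vmap {v : Fin 5 → S} (h : Uni v) (φ : S →+* T) : Uni (vmap φ v) := by
  obtain ⟨c, hc⟩ := h
  refine ⟨FixK.vmap φ c, ?_⟩
  have := congrArg φ hc
  rw [map_sum, map_one] at this
  rw [← this]
  exact Finset.sum_congr rfl fun i _ => (map_mul φ _ _).symm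

lemma Uni.of_isUnit {v : Fin 5 → S} {i : Fin 5} (h : IsUnit (v i)) : Uni v := by
  obtain ⟨u, hu⟩ := h
  refine ⟨Pi.single i ↑u⁻¹, ?_⟩
  rw [Finset.sum_eq_single i]
  · simp [← hu]
  · intro j _ hj; simp [hj]
  · simp

lemma Uni.eq_zero {v : Fin 5 → S} (h : Uni v) {s : S} (hs : s • v = 0) : s = 0 := by
  obtain ⟨c, hc⟩ := h
  have h1 : ∀ i, s * v i = 0 := fun i => congrFun hs i
  calc s = s * ∑ i, c i * v i := by rw [hc, mul_one]
    _ = ∑ i, c i * (s * v i) := by rw [Finset.mul_sum]; exact Finset.sum_congr rfl fun i _ => by ring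
    _ = 0 := by simp [h1]

lemma Uni.isLine {v : Fin 5 → S} (h : Uni v) : IsLine (Submodule.span S {v}) := by
  obtain ⟨c, hc⟩ := h
  have hinj : Function.Injective (LinearMap.toSpanSingleton S (Fin 5 → S) v) := by
    rw [← LinearMap.ker_eq_bot, LinearMap.ker_eq_bot']
    intro s hs
    exact Uni.eq_zero ⟨c, hc⟩ hs
  refine ⟨Module.Invertible.congr ((LinearEquiv.ofInjective _ hinj).trans
    (LinearEquiv.ofEq _ _ (LinearMap.range_toSpanSingleton v))), ?_⟩
  let γ : (Fin 5 → S) →ₗ[S] S := ∑ i, c i • LinearMap.proj i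
  have hγ : ∀ w, γ w = ∑ i, c i * w i := by intro w; simp [γ, LinearMap.sum_apply]
  refine ⟨LinearMap.ker γ, ?_, ?_⟩
  · rw [Submodule.disjoint_def]
    intro x hx hx'
    obtain ⟨s, rfl⟩ := Submodule.mem_span_singleton.mp hx
    rw [LinearMap.mem_ker, map_smul, hγ, hc, smul_eq_mul, mul_one] at hx'
    rw [hx', zero_smul]
  · rw [codisjoint_iff, eq_top_iff]
    intro w _
    rw [Submodule.mem_sup]
    refine ⟨γ w • v, Submodule.smul_mem _ _ (Submodule.mem_span_singleton_self v),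
      w - γ w • v, ?_, by abel⟩
    rw [LinearMap.mem_ker, map_sub, map_smul, hγ v, hc, smul_eq_mul, mul_one, sub_self]

lemma IsLine.exists_uni [IsLocalRing S] {L : Submodule S (Fin 5 → S)} (h : IsLine L) :
    ∃ v : Fin 5 → S, Uni v ∧ L = Submodule.span S {v} := by
  obtain ⟨h1, C, hC⟩ := h
  haveI := h1
  haveI : Module.Free S L := inferInstance
  obtain ⟨e⟩ := Module.Invertible.free_iff_linearEquiv.mp this
  refine ⟨e.symm 1, ?_, ?_⟩
  · let f : (Fin 5 → S) →ₗ[S] S := (e : L →ₗ[S] S) ∘ₗ L.projectionOnto C hC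
    refine ⟨fun i => f (Pi.single i 1), ?_⟩
    have h2 : f (e.symm 1 : L) = 1 := by
      simp only [f, LinearMap.comp_apply]
      rw [Submodule.projectionOnto_apply_left hC (e.symm 1)]
      simp
    conv_rhs => rw [← h2]
    have h3 : ((e.symm 1 : L) : Fin 5 → S) =
        ∑ i, ((e.symm 1 : L) : Fin 5 → S) i • (Pi.single i 1 : Fin 5 → S) := by
      ext j
      simp [Finset.sum_apply, Pi.single_apply]
    conv_rhs => rw [h3, map_sum]
    exact Finset.sum_congr rfl fun i _ => by rw [map_smul, smul_eq_mul, mul_comm]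
  · apply le_antisymm
    · intro v hv
      rw [Submodule.mem_span_singleton]
      refine ⟨e ⟨v, hv⟩, ?_⟩
      have : e ⟨v, hv⟩ • e.symm 1 = ⟨v, hv⟩ := by
        rw [← map_smul, smul_eq_mul, mul_one, e.symm_apply_apply]
      exact congrArg Subtype.val this
    · rw [Submodule.span_singleton_le_iff_mem]
      exact (e.symm 1).2

lemma extend_span (φ : S →+* T) (v : Fin 5 → S) :
    extend φ (Submodule.span S {v}) = Submodule.span T {vmap φ v} := by
  apply le_antisymm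
  · refine extend_le φ fun w hw => ?_
    obtain ⟨s, rfl⟩ := Submodule.mem_span_singleton.mp hw
    rw [vmap_smul]
    exact Submodule.smul_mem _ _ (Submodule.mem_span_singleton_self _)
  · rw [Submodule.span_singleton_le_iff_mem]
    exact vmap_mem φ (Submodule.mem_span_singleton_self v)

section lines
variable [Algebra ℂ S] [Algebra ℂ T]

/-- the point of `ℙ⁴(S)` given by a unimodular vector -/
def lineOf (v : Fin 5 → S) (h : Uni v) : P4.pts S := ⟨Submodule.span S {v}, h.isLine⟩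

lemma lineOf_eq {v w : Fin 5 → S} (h : Uni v) (h' : Uni w) (u : Sˣ) (huv : w = (u : S) • v) :
    lineOf v h = lineOf w h' := by
  apply Subtype.ext
  show Submodule.span S {v} = Submodule.span S {w}
  rw [huv]
  exact (Submodule.span_singleton_smul_eq u.isUnit v).symm

lemma lineOf_congr {v w : Fin 5 → S} (h : Uni v) (h' : Uni w) (huv : v = w) :
    lineOf v h = lineOf w h' := by
  subst huv; rfl

lemma map_lineOf (φ : S →ₐ[ℂ] T) (v : Fin 5 → S) (h : Uni v) :
    P4.map φ (lineOf v h) = lineOf (vmap (φ : S →+* T) v) (h.vmap _) :=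
  Subtype.ext (extend_span (φ : S →+* T) v)

lemma Uni.rho {v : Fin 5 → S} (h : Uni v) (g : B2 S) : Uni (rhoEquiv g v) := by
  obtain ⟨c, hc⟩ := h
  let γ : (Fin 5 → S) →ₗ[S] S := ∑ i, c i • LinearMap.proj i
  have hγ : ∀ w, γ w = ∑ i, c i * w i := by intro w; simp [γ, LinearMap.sum_apply]
  let f : (Fin 5 → S) →ₗ[S] S := γ ∘ₗ ((rhoEquiv g).symm : (Fin 5 → S) →ₗ[S] (Fin 5 → S))
  refine ⟨fun i => f (Pi.single i 1), ?_⟩
  have h3 : rhoEquiv g v = ∑ i, (rhoEquiv g v) i • (Pi.single i 1 : Fin 5 → S) := by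
    ext j
    simp [Finset.sum_apply, Pi.single_apply]
  have h2 : f (rhoEquiv g v) = 1 := by
    show γ ((rhoEquiv g).symm (rhoEquiv g v)) = 1
    rw [LinearEquiv.symm_apply_apply, hγ, hc]
  conv_rhs => rw [← h2, h3, map_sum]
  exact Finset.sum_congr rfl fun i _ => by rw [map_smul, smul_eq_mul, mul_comm]

lemma smul_lineOf (g : B2 S) (v : Fin 5 → S) (h : Uni v) :
    P4.smul g (lineOf v h) = lineOf (rhoEquiv g v) (h.rho g) := by
  apply Subtype.ext
  show (Submodule.span S {v}).map _ = _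
  rw [Submodule.map_span, Set.image_singleton]
  rfl

/-- if `g` fixes the line of `v` then `v` is an eigenvector -/
lemma eigen_of_fix (g : B2 S) (v : Fin 5 → S) (h : Uni v)
    (hfix : P4.smul g (lineOf v h) = lineOf v h) : ∃ c : S, rhoEquiv g v = c • v := by
  rw [smul_lineOf] at hfix
  have h1 : Submodule.span S {rhoEquiv g v} = Submodule.span S {v} := congrArg Subtype.val hfix
  have h2 : rhoEquiv g v ∈ Submodule.span S {v} := h1 ▸ Submodule.mem_span_singleton_self _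
  obtain ⟨c, hc⟩ := Submodule.mem_span_singleton.mp h2
  exact ⟨c, hc.symm⟩

lemma fix_of_eigen (g : B2 S) (v : Fin 5 → S) (h : Uni v) (c : Sˣ)
    (hc : rhoEquiv g v = (c : S) • v) : P4.smul g (lineOf v h) = lineOf v h := by
  rw [smul_lineOf]
  exact (lineOf_eq h (h.rho g) c hc).symm

end lines

lemma taut_mem {o q : Obj P4} (u : Mor o q) (v : Fin 5 → o.S) (hv : v ∈ o.x.1) :
    rhoEquiv u.g (vmap (u.φ : o.S →+* q.S) v) ∈ q.x.1 := by
  have h : (extend (u.φ : o.S →+* q.S) o.x.1).map (rhoEquiv u.g : _ →ₗ[q.S] _) = q.x.1 :=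
    congrArg Subtype.val u.eq
  rw [← h]
  exact ⟨_, vmap_mem _ hv, rfl⟩

lemma taut_univ {o q : Obj P4} (u : Mor o q) (Q : Type) [AddCommGroup Q] [Module q.S Q]
    (f : (o.x.1 : Submodule o.S (Fin 5 → o.S)) →+ Q)
    (hf : ∀ (s : o.S) (m : (o.x.1 : Submodule o.S (Fin 5 → o.S))), f (s • m) = u.φ s • f m) :
    ∃! f' : (q.x.1 : Submodule q.S (Fin 5 → q.S)) →ₗ[q.S] Q,
      ∀ m : (o.x.1 : Submodule o.S (Fin 5 → o.S)),
        f' ⟨rhoEquiv u.g (vmap (u.φ : o.S →+* q.S) m), taut_mem u m m.2⟩ = f m := by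
  obtain ⟨h1, C, hC⟩ := o.x.2
  obtain ⟨F, hF⟩ := extend_univ (u.φ : o.S →+* q.S) hC f hf
  refine ⟨F ∘ₗ ((rhoEquiv u.g).symm : (Fin 5 → q.S) →ₗ[q.S] (Fin 5 → q.S)) ∘ₗ
    Submodule.subtype _, ?_, ?_⟩
  · intro m
    show F ((rhoEquiv u.g).symm (rhoEquiv u.g (vmap (u.φ : o.S →+* q.S) m.1))) = f m
    rw [LinearEquiv.symm_apply_apply, hF]
  · intro f' hf'
    ext ⟨m, hm⟩
    have h : (extend (u.φ : o.S →+* q.S) o.x.1).map (rhoEquiv u.g : _ →ₗ[q.S] _) = q.x.1 :=
      congrArg Subtype.val u.eq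
    have key : ∀ w ∈ extend (u.φ : o.S →+* q.S) o.x.1, ∀ hw : rhoEquiv u.g w ∈ q.x.1,
        f' ⟨rhoEquiv u.g w, hw⟩ = F w := by
      intro w hw
      induction hw using Submodule.span_induction with
      | mem x hx =>
        obtain ⟨m, hm, rfl⟩ := hx
        intro hw
        rw [hF ⟨m, hm⟩, ← hf' ⟨m, hm⟩]
      | zero =>
        intro hw
        have : (⟨rhoEquiv u.g 0, hw⟩ : q.x.1) = 0 := by ext; simp
        rw [this, map_zero, map_zero]
      | add x y hx hy ihx ihy =>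
        intro hw
        have hx' : rhoEquiv u.g x ∈ q.x.1 := by rw [← h]; exact ⟨_, hx, rfl⟩
        have hy' : rhoEquiv u.g y ∈ q.x.1 := by rw [← h]; exact ⟨_, hy, rfl⟩
        have : (⟨rhoEquiv u.g (x + y), hw⟩ : q.x.1) = ⟨_, hx'⟩ + ⟨_, hy'⟩ := by
          apply Subtype.ext
          exact map_add _ _ _
        rw [this, map_add, map_add, ihx, ihy]
      | smul a x hx ihx =>
        intro hw
        have hx' : rhoEquiv u.g x ∈ q.x.1 := by rw [← h]; exact ⟨_, hx, rfl⟩
        have : (⟨rhoEquiv u.g (a • x), hw⟩ : q.x.1) = a • ⟨_, hx'⟩ := by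
          apply Subtype.ext
          exact map_smul _ _ _
        rw [this, map_smul, map_smul, ihx]
    have hm' : m ∈ (extend (u.φ : o.S →+* q.S) o.x.1).map (rhoEquiv u.g : _ →ₗ[q.S] _) := by
      rw [h]; exact hm
    obtain ⟨w, hw, rfl⟩ := hm'
    refine (key w hw hm).trans ?_
    show F w = F ((rhoEquiv u.g).symm (rhoEquiv u.g w))
    rw [LinearEquiv.symm_apply_apply]

/-- the tautological line bundle on `ℙ⁴` -/
noncomputable def taut : EqVB P4 where
  M o := (o.x.1 : Submodule o.S (Fin 5 → o.S))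
  acg o := inferInstance
  mod o := inferInstance
  fin o := haveI := o.x.2.1; inferInstance
  proj o := haveI := o.x.2.1; inferInstance
  tr {o q} u m := ⟨rhoEquiv u.g (vmap (u.φ : o.S →+* q.S) m.1), taut_mem u m.1 m.2⟩
  tr_base u := by
    refine ⟨fun m n => ?_, fun s m => ?_, fun Q _ _ f hf => taut_univ u Q f hf⟩
    · apply Subtype.ext
      show rhoEquiv _ (vmap _ (m.1 + n.1)) = _
      rw [vmap_add, map_add]; rfl
    · apply Subtype.ext
      show rhoEquiv _ (vmap _ (s • m.1)) = _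
      rw [vmap_smul, map_smul]; rfl
  tr_one {o} u h1 h2 m := by
    apply Subtype.ext
    show rhoEquiv u.g (vmap (u.φ : o.S →+* o.S) m.1) = m.1
    rw [h1, h2]
    exact rhoEquiv_one _
  tr_mul {o p q} v u w h1 h2 m := by
    apply Subtype.ext
    show rhoEquiv w.g (vmap (w.φ : o.S →+* q.S) m.1) =
      rhoEquiv v.g (vmap (v.φ : p.S →+* q.S) (rhoEquiv u.g (vmap (u.φ : o.S →+* p.S) m.1)))
    rw [h1, h2, rhoEquiv_mul, vmap_rho]
    rfl

end Pool.Agent.Helper2.FixK
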