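import Pool.Agent.Helper2.FixP4Act

namespace Pool.Agent.Helper2.FixK

open TensorProduct

/-- A finite dual basis. -/
structure DualB (S M : Type) [CommRing S] [AddCommGroup M] [Module S M] where
  n : ℕ
  p : Fin n → M
  φ : Fin n → (M →ₗ[S] S)
  sum : ∀ m, ∑ i, φ i m • p i = m

section
variable {S M N P : Type} [CommRing S] [AddCommGroup M] [Module S M] [AddCommGroup N] [Module S N]
  [AddCommGroup P] [Module S P]

lemma exists_dualB [Module.Finite S M] [Module.Projective S M] : Nonempty (DualB S M) := by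
  obtain ⟨n, f, g, hf, hg, hfg⟩ := Module.Finite.exists_comp_eq_id_of_projective S M
  refine ⟨⟨n, fun i => f (Pi.single i 1), fun i => LinearMap.proj i ∘ₗ g, fun m => ?_⟩⟩
  have h1 : f (g m) = m := LinearMap.congr_fun hfg m
  conv_rhs => rw [← h1]
  have h2 : g m = ∑ i, (g m i) • (Pi.single i 1 : Fin n → S) := by
    ext j
    simp [Finset.sum_apply, Pi.single_apply]
  conv_rhs => rw [h2, map_sum]
  simp

/-- the trace of an endomorphism with respect to a dual basis -/
def ptr (B : DualB S M) (f : M →ₗ[S] M) : S := ∑ i, B.φ i (f (B.p i))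

lemma ptr_indep (B B' : DualB S M) (f : M →ₗ[S] M) : ptr B f = ptr B' f := by
  unfold ptr
  have h1 : ∀ i, B.φ i (f (B.p i)) = ∑ j, B'.φ j (B.p i) * B.φ i (f (B'.p j)) := by
    intro i
    conv_lhs => rw [← B'.sum (B.p i)]
    simp [map_sum]
  have h2 : ∀ j, B'.φ j (f (B'.p j)) = ∑ i, B.φ i (f (B'.p j)) * B'.φ j (B.p i) := by
    intro j
    conv_lhs => rw [← B.sum (f (B'.p j))]
    simp [map_sum]
  simp_rw [h1, h2]
  rw [Finset.sum_comm]
  simp_rw [mul_comm]

lemma ptr_eq_trace (B : DualB S M) {ι : Type} [Fintype ι] [DecidableEq ι]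
    (b : Module.Basis ι S M) (f : M →ₗ[S] M) : ptr B f = LinearMap.trace S M f := by
  classical
  let e := Fintype.equivFin ι
  let B' : DualB S M := ⟨Fintype.card ι, fun i => b (e.symm i), fun i => b.coord (e.symm i), by
    intro m
    conv_rhs => rw [← b.sum_repr m]
    exact Equiv.sum_comp e.symm (fun i => b.coord i m • b i)⟩
  rw [ptr_indep B B', LinearMap.trace_eq_matrix_trace S b f]
  unfold ptr Matrix.trace
  simp only [Matrix.diag_apply, LinearMap.toMatrix_apply]
  exact Equiv.sum_comp e.symm (fun i => b.coord i (f (b i)))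

end

/-! ### derived notions -/

lemma B2.map_id {S : Type} [CommRing S] (g : B2 S) : g.map (RingHom.id S) = g := by
  ext <;> simp

lemma B2.map_one {S T : Type} [CommRing S] [CommRing T] (φ : S →+* T) :
    (1 : B2 S).map φ = 1 := by
  ext <;> simp

lemma B2.map_mul {S T : Type} [CommRing S] [CommRing T] (φ : S →+* T) (g h : B2 S) :
    (g * h).map φ = g.map φ * h.map φ := by
  ext <;> simp

namespace GSpace

variable (X : GSpace) [X.IsAction]

lemma map_id {S : Type} [CommRing S] [Algebra ℂ S] (x : X.pts S) :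
    X.map (AlgHom.id ℂ S) x = x := IsAction.map_id x

lemma map_comp {S T U : Type} [CommRing S] [Algebra ℂ S] [CommRing T] [Algebra ℂ T]
    [CommRing U] [Algebra ℂ U] (ψ : T →ₐ[ℂ] U) (φ : S →ₐ[ℂ] T) (x : X.pts S) :
    X.map (ψ.comp φ) x = X.map ψ (X.map φ x) := IsAction.map_comp ψ φ x

lemma one_smul {S : Type} [CommRing S] [Algebra ℂ S] (x : X.pts S) : X.smul 1 x = x :=
  IsAction.one_smul x

lemma mul_smul {S : Type} [CommRing S] [Algebra ℂ S] (g h : B2 S) (x : X.pts S) :
    X.smul (g * h) x = X.smul g (X.smul h x) := IsAction.mul_smul g h x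

lemma map_smul {S T : Type} [CommRing S] [Algebra ℂ S] [CommRing T] [Algebra ℂ T]
    (φ : S →ₐ[ℂ] T) (g : B2 S) (x : X.pts S) :
    X.map φ (X.smul g x) = X.smul (g.map φ) (X.map φ x) := IsAction.map_smul φ g x

end GSpace

section
variable {X : GSpace} [X.IsAction]

def Mor.id (o : Obj X) : Mor o o := ⟨AlgHom.id ℂ o.S, 1, by rw [X.map_id, X.one_smul]⟩

def Mor.comp {o p q : Obj X} (v : Mor p q) (u : Mor o p) : Mor o q :=
  ⟨v.φ.comp u.φ, v.g * u.g.map v.φ, by
    rw [X.map_comp, X.mul_smul, ← X.map_smul, u.eq, v.eq]⟩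

namespace EqVB

variable (E : EqVB X)

omit [X.IsAction] in
lemma tr_add {o p : Obj X} (u : Mor o p) (m n : E.M o) :
    E.tr u (m + n) = E.tr u m + E.tr u n := (E.tr_base u).1 m n

omit [X.IsAction] in
lemma tr_smul {o p : Obj X} (u : Mor o p) (s : o.S) (m : E.M o) :
    E.tr u (s • m) = u.φ s • E.tr u m := (E.tr_base u).2.1 s m

lemma tr_id {o : Obj X} (m : E.M o) : E.tr (Mor.id o) m = m := E.tr_one _ rfl rfl m

lemma tr_comp {o p q : Obj X} (v : Mor p q) (u : Mor o p) (m : E.M o) :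
    E.tr (v.comp u) m = E.tr v (E.tr u m) := E.tr_mul v u _ rfl rfl m

omit [X.IsAction] in
lemma base_change {o p : Obj X} (u : Mor o p) (Q : Type) [AddCommGroup Q] [Module p.S Q]
    (f : E.M o →+ Q) (hf : ∀ (s : o.S) (m : E.M o), f (s • m) = u.φ s • f m) :
    ∃! f' : E.M p →ₗ[p.S] Q, ∀ m, f' (E.tr u m) = f m := (E.tr_base u).2.2 Q f hf

end EqVB

namespace FixPt

/-- functoriality of the fixed point scheme -/
def map (p : FixPt X) {T : Type} [CommRing T] [Algebra ℂ T] (φ : p.S →ₐ[ℂ] T) : FixPt X where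
  S := T
  x := X.map φ p.x
  g := p.g.map φ
  fix := by rw [← X.map_smul, p.fix]

/-- action of `B_2` on the fixed point scheme -/
def conj (p : FixPt X) (h : B2 p.S) : FixPt X where
  S := p.S
  x := X.smul h p.x
  g := h * p.g * h⁻¹
  fix := by
    rw [← X.mul_smul, inv_mul_cancel_right, X.mul_smul, p.fix]

/-- the automorphism of `(S, x)` given by `g` with `g • x = x` -/
def mor (p : FixPt X) : Mor p.toObj p.toObj :=
  { φ := AlgHom.id ℂ p.S, g := p.g, eq := by rw [X.map_id, p.fix] }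

end FixPt

/-- For `g • x = x`, the action of `g` on the fibre of an equivariant bundle at `x`. -/
def EqVB.act (E : EqVB X) (p : FixPt X) : E.M p.toObj →ₗ[p.S] E.M p.toObj where
  toFun := E.tr p.mor
  map_add' := E.tr_add _
  map_smul' := E.tr_smul _

lemma inv_map (f : invariantFunctions X) (p : FixPt X) {T : Type} [CommRing T] [Algebra ℂ T]
    (φ : p.S →ₐ[ℂ] T) : f.1 (p.map φ) = φ (f.1 p) := by
  have h1 : X.smul (1 : B2 T) (X.map φ p.x) = X.map φ p.x := X.one_smul _
  have h2 : p.g.map (φ : p.S →+* T) * (1 : B2 T) = 1 * p.g.map (φ : p.S →+* T) :=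
    (mul_one _).trans (one_mul _).symm
  exact f.2 p (p.map φ) { φ := φ, g := (1 : B2 T), eq := h1 } h2

lemma inv_conj (f : invariantFunctions X) (p : FixPt X) (h : B2 p.S) :
    f.1 (p.conj h) = f.1 p := by
  have h1 : X.smul h (X.map (AlgHom.id ℂ p.S) p.x) = X.smul h p.x :=
    congrArg (X.smul h) (X.map_id p.x)
  have h2 : h * p.g * h⁻¹ * h = h * p.g.map (RingHom.id p.S) :=
    (inv_mul_cancel_right (h * p.g) h).trans (congrArg (h * ·) (B2.map_id p.g).symm)
  exact f.2 p (p.conj h) { φ := AlgHom.id ℂ p.S, g := h, eq := h1 } h2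

end

section
variable {X : GSpace} [X.IsAction]

/-- two linear maps out of `E.M q` agreeing on the image of `E.M o` are equal -/
lemma hom_ext_tr (E : EqVB X) {o q : Obj X} (u : Mor o q) {Q : Type} [AddCommGroup Q]
    [Module q.S Q] (f g : E.M q →ₗ[q.S] Q) (h : ∀ m, f (E.tr u m) = g (E.tr u m)) : f = g := by
  refine (E.base_change u Q
    ((g : E.M q →+ Q).comp (AddMonoidHom.mk' (E.tr u) (E.tr_add u))) ?_).unique
    (y₁ := f) (y₂ := g) ?_ ?_
  · intro s m
    simp [E.tr_smul]
  · intro m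
    simp [h]
  · intro m
    simp

/-- extension of a functional -/
lemma exists_ext (E : EqVB X) {o q : Obj X} (u : Mor o q) (ψ : E.M o →ₗ[o.S] o.S) :
    ∃ f : E.M q →ₗ[q.S] q.S, ∀ m, f (E.tr u m) = u.φ (ψ m) :=
  (E.base_change u q.S ((u.φ : o.S →+ q.S).comp (ψ : E.M o →+ o.S)) (by intro s m; simp)).exists

noncomputable def extφ (E : EqVB X) {o q : Obj X} (u : Mor o q) (ψ : E.M o →ₗ[o.S] o.S) :
    E.M q →ₗ[q.S] q.S := Classical.choose (exists_ext E u ψ)

lemma extφ_tr (E : EqVB X) {o q : Obj X} (u : Mor o q) (ψ : E.M o →ₗ[o.S] o.S) (m : E.M o) :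
    extφ E u ψ (E.tr u m) = u.φ (ψ m) := Classical.choose_spec (exists_ext E u ψ) m

lemma tr_sum (E : EqVB X) {o q : Obj X} (u : Mor o q) {ι : Type} (s : Finset ι) (f : ι → E.M o) :
    E.tr u (∑ i ∈ s, f i) = ∑ i ∈ s, E.tr u (f i) :=
  map_sum (AddMonoidHom.mk' (E.tr u) (E.tr_add u)) f s

/-- the push-forward of a dual basis along a morphism -/
noncomputable def push (E : EqVB X) {o q : Obj X} (B : DualB o.S (E.M o)) (u : Mor o q) :
    DualB q.S (E.M q) where
  n := B.n
  p i := E.tr u (B.p i)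
  φ i := extφ E u (B.φ i)
  sum := by
    have h : (∑ i, (extφ E u (B.φ i)).smulRight (E.tr u (B.p i))) = LinearMap.id := by
      apply hom_ext_tr E u
      intro m
      simp only [LinearMap.sum_apply, LinearMap.smulRight_apply, extφ_tr, LinearMap.id_apply]
      conv_rhs => rw [← B.sum m, tr_sum]
      refine Finset.sum_congr rfl fun i _ => ?_
      exact (E.tr_smul u _ _).symm
    intro m
    have := LinearMap.congr_fun h m
    simpa [LinearMap.sum_apply] using this

lemma push_φ_tr (E : EqVB X) {o q : Obj X} (B : DualB o.S (E.M o)) (u : Mor o q) (i : Fin B.n)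
    (m : E.M o) : (push E B u).φ i (E.tr u m) = u.φ (B.φ i m) := extφ_tr E u _ m

/-- change of dual bases -/
noncomputable def cmat (E : EqVB X) {o o' q : Obj X} (B : DualB o.S (E.M o))
    (B' : DualB o'.S (E.M o')) (u : Mor o q) (v : Mor o' q) :
    Matrix (Fin B.n) (Fin B'.n) q.S :=
  Matrix.of fun i j => (push E B u).φ i (E.tr v (B'.p j))

lemma cmat_mul (E : EqVB X) {o o' o'' q : Obj X} (B : DualB o.S (E.M o))
    (B' : DualB o'.S (E.M o')) (B'' : DualB o''.S (E.M o'')) (u : Mor o q) (v : Mor o' q)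
    (w : Mor o'' q) : cmat E B B' u v * cmat E B' B'' v w = cmat E B B'' u w := by
  ext i k
  rw [Matrix.mul_apply]
  simp only [cmat, Matrix.of_apply]
  have h := (push E B' v).sum (E.tr w (B''.p k))
  conv_rhs => rw [← h, map_sum]
  refine Finset.sum_congr rfl fun j _ => ?_
  rw [map_smul, smul_eq_mul, mul_comm]
  rfl

lemma cmat_comp (E : EqVB X) {o o' q r : Obj X} (B : DualB o.S (E.M o))
    (B' : DualB o'.S (E.M o')) (u : Mor o q) (v : Mor o' q) (s : Mor q r) :
    cmat E B B' (s.comp u) (s.comp v) = (cmat E B B' u v).map s.φ := by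
  ext i k
  simp only [cmat, Matrix.of_apply, Matrix.map_apply]
  rw [E.tr_comp]
  have : (push E B (s.comp u)).φ i = (push E (push E B u) s).φ i := by
    apply hom_ext_tr E (s.comp u)
    intro m
    rw [push_φ_tr]
    rw [E.tr_comp]
    refine Eq.trans ?_ (push_φ_tr E (push E B u) s i (E.tr u m)).symm
    rw [push_φ_tr]
    rfl
  rw [this]
  exact push_φ_tr E (push E B u) s i (E.tr v (B'.p k))

/-- a chosen dual basis -/
noncomputable def EqVB.db (E : EqVB X) (o : Obj X) : DualB o.S (E.M o) :=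
  Classical.choice exists_dualB

/-- the trace of `g` on the fibre at `x` -/
noncomputable def EqVB.chi (E : EqVB X) (p : FixPt X) : p.S := ptr (E.db p.toObj) (E.act p)

lemma chi_eq (E : EqVB X) (p : FixPt X) {o : Obj X} (B : DualB o.S (E.M o))
    (u : Mor o p.toObj) : E.chi p = (cmat E B B u (p.mor.comp u)).trace := by
  unfold EqVB.chi
  rw [ptr_indep (E.db p.toObj) (push E B u)]
  unfold ptr Matrix.trace
  refine Finset.sum_congr rfl fun i _ => ?_
  simp only [Matrix.diag_apply, cmat, Matrix.of_apply]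
  rw [E.tr_comp]
  rfl

lemma Mor.ext' {o p : Obj X} {u v : Mor o p} (h1 : u.φ = v.φ) (h2 : u.g = v.g) : u = v := by
  cases u; cases v
  simp only at h1 h2
  subst h1 h2
  rfl

lemma Mor.comp_id {o p : Obj X} (u : Mor o p) : u.comp (Mor.id o) = u := by
  apply Mor.ext'
  · ext; rfl
  · show u.g * (1 : B2 o.S).map _ = u.g
    rw [B2.map_one, mul_one]

lemma Mor.id_comp {o p : Obj X} (u : Mor o p) : (Mor.id p).comp u = u := by
  apply Mor.ext'
  · ext; rfl
  · show 1 * u.g.map _ = u.g
    rw [one_mul]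
    exact B2.map_id _

lemma Mor.comp_assoc {o p q r : Obj X} (w : Mor q r) (v : Mor p q) (u : Mor o p) :
    (w.comp v).comp u = w.comp (v.comp u) := by
  apply Mor.ext'
  · ext; rfl
  · show (w.g * v.g.map _) * u.g.map _ = w.g * (v.g * u.g.map _).map _
    rw [B2.map_mul, mul_assoc]
    rfl

lemma chi_natural (E : EqVB X) (p q : FixPt X) (u : Mor p.toObj q.toObj)
    (h : q.g * u.g = u.g * p.g.map (u.φ : p.S →+* q.S)) : E.chi q = u.φ (E.chi p) := by
  have B := E.db p.toObj
  have e1 : q.mor.comp u = u.comp p.mor := by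
    apply Mor.ext'
    · ext; rfl
    · show q.g * u.g.map _ = u.g * p.g.map _
      have h1 : u.g.map (q.mor.φ : q.S →+* q.S) = u.g := B2.map_id _
      rw [h1, h]
  rw [chi_eq E q B u, chi_eq E p B (Mor.id _), e1, Mor.comp_id]
  conv_lhs => rw [← Mor.comp_id u]
  rw [Mor.comp_assoc, Mor.id_comp, cmat_comp]
  simp [Matrix.trace, map_sum]

end

end Pool.Agent.Helper2.FixK
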