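import Pool.Agent.Helper2.FixRing

namespace Pool.Agent.Helper2.FixK

open Complex

/-- the exponent of `v_k / v_j` -/
def vecE (J : Finset (Fin 3)) (j : Fin 3) (hj : j ∈ J) (k : Fin 3) : cone J :=
  ⟨EE k - EE j, by
    intro l hl
    rw [ell_EE]
    have : l ≠ j := fun h => hl (h ▸ hj)
    rw [if_neg this]
    split_ifs <;> simp⟩

lemma vecE_self (J : Finset (Fin 3)) (j : Fin 3) (hj : j ∈ J) : vecE J j hj j = 0 :=
  Subtype.ext (sub_self _)

/-- the vector `(1, v_2/v_0, v_4/v_0)` and its multiples, over the coordinate ring of a chart -/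
noncomputable def vec (J : Finset (Fin 3)) (j : Fin 3) (hj : j ∈ J) : Fin 5 → RR J :=
  ![mon J (vecE J j hj 0), 0, mon J (vecE J j hj 1), 0, mon J (vecE J j hj 2)]

/-- the indices `0, 2, 4` -/
def idx : Fin 3 → Fin 5 := ![0, 2, 4]

lemma vec_idx (J : Finset (Fin 3)) (j : Fin 3) (hj : j ∈ J) (k : Fin 3) :
    vec J j hj (idx k) = mon J (vecE J j hj k) := by
  fin_cases k <;> rfl

/-- vectors are determined by the coordinates `0, 2, 4` if the others vanish -/
lemma vec_ext {R : Type} [CommRing R] {v w : Fin 5 → R} (h : ∀ k, v (idx k) = w (idx k))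
    (h1 : v 1 = w 1) (h3 : v 3 = w 3) : v = w := by
  ext i
  fin_cases i
  · exact h 0
  · exact h1
  · exact h 1
  · exact h3
  · exact h 2

lemma uni_vec (J : Finset (Fin 3)) (j : Fin 3) (hj : j ∈ J) : Uni (vec J j hj) :=
  Uni.of_isUnit (i := idx j) (by rw [vec_idx, vecE_self, mon_zero]; exact isUnit_one)

/-- the monomial `v_j / v_k` as a unit -/
noncomputable def monUnit (J : Finset (Fin 3)) (j k : Fin 3) (hj : j ∈ J) (hk : k ∈ J) :
    (RR J)ˣ where
  val := mon J (vecE J j hj k)
  inv := mon J (vecE J k hk j)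
  val_inv := by
    rw [mon_mul, ← mon_zero]
    congr 1
    apply Subtype.ext
    show EE k - EE j + (EE j - EE k) = 0
    abel
  inv_val := by
    rw [mon_mul, ← mon_zero]
    congr 1
    apply Subtype.ext
    show EE j - EE k + (EE k - EE j) = 0
    abel

lemma line_vec (J : Finset (Fin 3)) (j k : Fin 3) (hj : j ∈ J) (hk : k ∈ J) :
    lineOf (vec J j hj) (uni_vec J j hj) = lineOf (vec J k hk) (uni_vec J k hk) := by
  apply lineOf_eq _ _ (monUnit J k j hk hj)
  apply vec_ext
  · intro i
    rw [Pi.smul_apply, vec_idx, vec_idx, smul_eq_mul]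
    show _ = mon J (vecE J k hk j) * _
    rw [mon_mul]
    congr 1
    apply Subtype.ext
    show EE i - EE k = EE j - EE k + (EE i - EE j)
    abel
  · simp [vec]
  · simp [vec]

/-- the point of `ℙ²` over the ring of a chart -/
noncomputable def OX (J : Finset (Fin 3)) (j : Fin 3) (hj : j ∈ J) : Obj P4 :=
  { S := RR J, x := lineOf (vec J j hj) (uni_vec J j hj) }

lemma vmap_inc_vec {J J' : Finset (Fin 3)} (h : J ⊆ J') (j : Fin 3) (hj : j ∈ J) :
    vmap (inc h : RR J →+* RR J') (vec J j hj) = vec J' j (h hj) := by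
  apply vec_ext
  · intro k
    show inc h (vec J j hj (idx k)) = _
    rw [vec_idx, vec_idx, inc_mon]
    rfl
  · show inc h 0 = _
    rw [map_zero]; rfl
  · show inc h 0 = _
    rw [map_zero]; rfl

/-- restriction to a smaller chart -/
noncomputable def rM {J J' : Finset (Fin 3)} (h : J ⊆ J') (j j' : Fin 3) (hj : j ∈ J)
    (hj' : j' ∈ J') : Mor (OX J j hj) (OX J' j' hj') where
  φ := inc h
  g := (1 : B2 (RR J'))
  eq := by
    show P4.smul (1 : B2 (RR J')) (P4.map (inc h) (lineOf (vec J j hj) (uni_vec J j hj))) =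
      lineOf (vec J' j' hj') (uni_vec J' j' hj')
    rw [P4.one_smul, map_lineOf, ← line_vec J' j j' (h hj) hj']
    exact lineOf_congr _ _ (vmap_inc_vec h j hj)

section
variable {S T U S' : Type} [CommRing S] [CommRing T] [CommRing U] [CommRing S']

lemma B2.aux1 (φ : S →+* T) (φ' : S' →+* T) :
    (1 : B2 T) * (1 : B2 S).map φ = 1 * (1 : B2 S').map φ' := by
  rw [B2.map_one, B2.map_one]

lemma B2.aux2 (φ : S →+* T) (g : B2 S) (g' : B2 T) (h : g.map φ = g') (φ' : S' →+* T) :
    (1 : B2 T) * g.map φ = g' * (1 : B2 S').map φ' := by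
  rw [B2.map_one, h, one_mul, mul_one]

lemma B2.aux3 (φ : S →+* T) : (1 : B2 T) * (1 : B2 S).map φ = 1 := by
  rw [B2.map_one, one_mul]

lemma B2.aux4 (φ : S →+* T) (g : B2 S) (g' : B2 T) (h : g.map φ = g') :
    (1 : B2 T) * g.map φ = g' := by
  rw [h, one_mul]

lemma B2.aux5 (φ : S →+* T) (g : B2 S) (g' : B2 T) (h : g.map φ = g') (φ' : S' →+* T)
    (φ'' : T →+* T) :
    (1 : B2 T) * g.map φ = g' * ((1 : B2 T) * (1 : B2 S').map φ').map φ'' := by
  rw [B2.map_one, h, one_mul, mul_one, B2.map_one, mul_one]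

end

/-! ### dual numbers -/

section
variable (R : Type) [CommRing R] [Algebra ℂ R]

/-- `i (1 + ε)` -/
noncomputable def uE : (DualNumber R)ˣ where
  val := mkD (algebraMap ℂ R I) (algebraMap ℂ R I)
  inv := mkD (algebraMap ℂ R (-I)) (algebraMap ℂ R I)
  val_inv := by
    apply TrivSqZeroExt.ext
    · show algebraMap ℂ R I * algebraMap ℂ R (-I) = 1
      rw [← map_mul]; simp
    · show algebraMap ℂ R I • algebraMap ℂ R I + MulOpposite.op (algebraMap ℂ R (-I)) •
        algebraMap ℂ R I = 0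
      simp
  inv_val := by
    apply TrivSqZeroExt.ext
    · show algebraMap ℂ R (-I) * algebraMap ℂ R I = 1
      rw [← map_mul]; simp
    · show algebraMap ℂ R (-I) • algebraMap ℂ R I + MulOpposite.op (algebraMap ℂ R I) •
        algebraMap ℂ R I = 0
      simp

/-- the group element `g_ε = diag(i(1+ε), (i(1+ε))⁻¹)` -/
noncomputable def gE : B2 (DualNumber R) := ⟨uE R, 0⟩

lemma uE_sq : ((uE R : DualNumber R)) ^ 2 = mkD (-1) (-2) := by
  have h1 : algebraMap ℂ R I * algebraMap ℂ R I = -1 := by rw [← map_mul]; simp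
  rw [sq]
  apply TrivSqZeroExt.ext
  · exact h1
  · show algebraMap ℂ R I • algebraMap ℂ R I + MulOpposite.op (algebraMap ℂ R I) •
        algebraMap ℂ R I = -2
    simp only [smul_eq_mul, MulOpposite.smul_eq_mul_unop, MulOpposite.unop_op, h1]
    ring

lemma uE_pow (k : Fin 3) : (((uE R : DualNumber R)) ^ 2) ^ ((idx k : Fin 5) : ℕ) =
    (mkD 1 (4 * ((k : ℕ) : R)) : DualNumber R) := by
  rw [uE_sq]
  have h2 : (mkD (-1) (-2) : DualNumber R) ^ 2 = mkD 1 4 := by
    rw [sq]
    apply TrivSqZeroExt.ext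
    · show (-1 : R) * (-1) = 1
      ring
    · show (-1 : R) • (-2 : R) + MulOpposite.op (-1 : R) • (-2 : R) = 4
      simp only [smul_eq_mul, MulOpposite.smul_eq_mul_unop, MulOpposite.unop_op]
      ring
  have h4 : (mkD (-1) (-2) : DualNumber R) ^ 4 = mkD 1 8 := by
    have : (mkD (-1) (-2) : DualNumber R) ^ 4 = ((mkD (-1) (-2) : DualNumber R) ^ 2) ^ 2 := by ring
    rw [this, h2, sq]
    apply TrivSqZeroExt.ext
    · show (1 : R) * 1 = 1
      ring
    · show (1 : R) • (4 : R) + MulOpposite.op (1 : R) • (4 : R) = 8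
      simp only [smul_eq_mul, MulOpposite.smul_eq_mul_unop, MulOpposite.unop_op]
      ring
  fin_cases k
  · show _ ^ 0 = _
    rw [pow_zero]
    apply TrivSqZeroExt.ext
    · rfl
    · simp
  · show _ ^ 2 = _
    rw [h2]; simp
  · show _ ^ 4 = _
    rw [h4]; simp; norm_num
end

/-- the weight of the torus: `4 * (exponent of v_2) + 8 * (exponent of v_4)` -/
def lamX : ℤ × ℤ →+ ℤ := (4 : ℤ) • ell 1 + (8 : ℤ) • ell 2

lemma lamX_EE (k j : Fin 3) : lamX (EE k - EE j) = 4 * (k : ℕ) - 4 * (j : ℕ) := by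
  fin_cases k <;> fin_cases j <;> simp [lamX, EE, ell]

/-- the point moved by `g_ε` -/
noncomputable def OD (J : Finset (Fin 3)) (j : Fin 3) (hj : j ∈ J) : Obj P4 :=
  { S := DualNumber (RR J), x := P4.map (dlog J lamX) (lineOf (vec J j hj) (uni_vec J j hj)) }

noncomputable def sM (J : Finset (Fin 3)) (j : Fin 3) (hj : j ∈ J) : Mor (OX J j hj) (OD J j hj) where
  φ := dlog J lamX
  g := (1 : B2 (DualNumber (RR J)))
  eq := P4.one_smul _

/-- the inclusion `R → R[ε]` -/
noncomputable def inlH (R : Type) [CommRing R] [Algebra ℂ R] : R →ₐ[ℂ] DualNumber R :=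
  TrivSqZeroExt.inlAlgHom ℂ R R

lemma inlH_eq (R : Type) [CommRing R] [Algebra ℂ R] (r : R) : inlH R r = mkD r 0 := rfl

/-- unit `1 + c ε` -/
def unitD {R : Type} [CommRing R] (c : R) : (DualNumber R)ˣ where
  val := mkD 1 c
  inv := mkD 1 (-c)
  val_inv := by
    apply TrivSqZeroExt.ext
    · show (1 : R) * 1 = 1
      ring
    · show (1 : R) • (-c : R) + MulOpposite.op (1 : R) • c = 0
      simp
  inv_val := by
    apply TrivSqZeroExt.ext
    · show (1 : R) * 1 = 1
      ring
    · show (1 : R) • (c : R) + MulOpposite.op (1 : R) • (-c) = 0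
      simp

lemma gE_eq (J : Finset (Fin 3)) (j : Fin 3) (hj : j ∈ J) :
    P4.smul (gE (RR J)) (P4.map (inlH (RR J)) (lineOf (vec J j hj) (uni_vec J j hj))) =
    P4.map (dlog J lamX) (lineOf (vec J j hj) (uni_vec J j hj)) := by
  rw [map_lineOf, map_lineOf, smul_lineOf]
  apply lineOf_eq _ _ (unitD (-(4 * (j : ℕ) : RR J)))
  apply vec_ext
  · intro k
    rw [Pi.smul_apply, gE, rho_diag, uE_pow]
    show dlog J lamX (vec J j hj (idx k)) = mkD 1 (-(4 * (j : ℕ) : RR J)) •
      ((mkD 1 (4 * ((k : ℕ) : RR J)) : DualNumber (RR J)) * inlH (RR J) (vec J j hj (idx k)))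
    rw [vec_idx, dlog_mon, inlH_eq, smul_eq_mul]
    have h1 : ((vecE J j hj k : cone J) : ℤ × ℤ) = EE k - EE j := rfl
    rw [h1, lamX_EE]
    apply TrivSqZeroExt.ext
    · show mon J _ = 1 * (1 * mon J _)
      ring
    · rw [TrivSqZeroExt.snd_mul, TrivSqZeroExt.snd_mul, TrivSqZeroExt.fst_mul]
      simp only [mkD_fst, mkD_snd, smul_eq_mul, MulOpposite.smul_eq_mul_unop, MulOpposite.unop_op]
      rw [Algebra.smul_def]
      push_cast
      simp only [map_sub, map_mul, map_natCast, map_ofNat]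
      ring
  · rw [Pi.smul_apply, gE, rho_diag]
    show dlog J lamX 0 = _ • (_ * inlH (RR J) 0)
    rw [map_zero, map_zero, mul_zero, smul_zero]
  · rw [Pi.smul_apply, gE, rho_diag]
    show dlog J lamX 0 = _ • (_ * inlH (RR J) 0)
    rw [map_zero, map_zero, mul_zero, smul_zero]

noncomputable def gM (J : Finset (Fin 3)) (j : Fin 3) (hj : j ∈ J) : Mor (OX J j hj) (OD J j hj) where
  φ := inlH (RR J)
  g := gE (RR J)
  eq := gE_eq J j hj

/-- restriction to a smaller chart, dual number version -/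
noncomputable def rD {J J' : Finset (Fin 3)} (h : J ⊆ J') (j j' : Fin 3) (hj : j ∈ J)
    (hj' : j' ∈ J') : Mor (OD J j hj) (OD J' j' hj') where
  φ := dmap (inc h)
  g := (1 : B2 (DualNumber (RR J')))
  eq := by
    show P4.smul (1 : B2 (DualNumber (RR J'))) (P4.map (dmap (inc h)) (P4.map (dlog J lamX)
      (lineOf (vec J j hj) (uni_vec J j hj)))) =
      P4.map (dlog J' lamX) (lineOf (vec J' j' hj') (uni_vec J' j' hj'))
    rw [P4.one_smul, ← P4.map_comp]
    have h1 : (dmap (inc h)).comp (dlog J lamX) = (dlog J' lamX).comp (inc h) :=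
      AlgHom.ext fun f => (dlog_inc h lamX f).symm
    rw [h1, P4.map_comp, map_lineOf (inc h)]
    congr 1
    rw [← line_vec J' j j' (h hj) hj']
    exact lineOf_congr _ _ (vmap_inc_vec h j hj)

lemma rD_sM {J J' : Finset (Fin 3)} (h : J ⊆ J') (j j' : Fin 3) (hj : j ∈ J) (hj' : j' ∈ J') :
    (rD h j j' hj hj').comp (sM J j hj) = (sM J' j' hj').comp (rM h j j' hj hj') := by
  apply Mor.ext'
  · exact AlgHom.ext fun f => (dlog_inc h lamX f).symm
  · exact B2.aux1 _ _

lemma gE_map {R R' : Type} [CommRing R] [Algebra ℂ R] [CommRing R'] [Algebra ℂ R']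
    (φ : R →ₐ[ℂ] R') : (gE R).map (dmap φ : DualNumber R →+* DualNumber R') = gE R' := by
  apply B2.ext
  · apply Units.ext
    show (dmap φ (mkD (algebraMap ℂ R I) (algebraMap ℂ R I))) = mkD _ _
    apply TrivSqZeroExt.ext
    · exact φ.commutes I
    · exact φ.commutes I
  · show dmap φ 0 = 0
    rw [map_zero]

lemma rD_gM {J J' : Finset (Fin 3)} (h : J ⊆ J') (j j' : Fin 3) (hj : j ∈ J) (hj' : j' ∈ J') :
    (rD h j j' hj hj').comp (gM J j hj) = (gM J' j' hj').comp (rM h j j' hj hj') := by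
  apply Mor.ext'
  · refine AlgHom.ext fun f => ?_
    apply TrivSqZeroExt.ext
    · rfl
    · exact map_zero (inc h)
  · exact B2.aux2 _ _ _ (gE_map (inc h)) _

/-- the element `diag(i, -i)` -/
noncomputable def g0 (R : Type) [CommRing R] [Algebra ℂ R] : B2 R :=
  ⟨Units.map (algebraMap ℂ R : ℂ →* R) (Units.mk0 I I_ne_zero), 0⟩

lemma g0_pow (R : Type) [CommRing R] [Algebra ℂ R] (k : Fin 3) :
    (((g0 R).a : R) ^ 2) ^ ((idx k : Fin 5) : ℕ) = 1 := by
  have h1 : ((g0 R).a : R) ^ 2 = -1 := by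
    show (algebraMap ℂ R I) ^ 2 = -1
    rw [← map_pow, I_sq]; simp
  rw [h1]
  fin_cases k
  · exact pow_zero _
  · show (-1 : R) ^ 2 = 1
    ring
  · show (-1 : R) ^ 4 = 1
    ring

lemma g0_vec (J : Finset (Fin 3)) (j : Fin 3) (hj : j ∈ J) :
    rhoEquiv (g0 (RR J)) (vec J j hj) = ((1 : (RR J)ˣ) : RR J) • vec J j hj := by
  rw [Units.val_one, one_smul]
  apply vec_ext
  · intro k
    have := rho_diag (g0 (RR J)).a (vec J j hj) (idx k)
    rw [g0_pow, one_mul] at this
    exact this
  · refine (rho_diag (g0 (RR J)).a (vec J j hj) 1).trans ?_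
    show _ * (0 : RR J) = 0
    rw [mul_zero]
  · refine (rho_diag (g0 (RR J)).a (vec J j hj) 3).trans ?_
    show _ * (0 : RR J) = 0
    rw [mul_zero]

/-- the fixed point `(g_0, x)` -/
noncomputable def P0 (J : Finset (Fin 3)) (j : Fin 3) (hj : j ∈ J) : FixPt P4 :=
  { S := RR J, x := lineOf (vec J j hj) (uni_vec J j hj), g := g0 (RR J),
    fix := fix_of_eigen _ _ _ _ (g0_vec J j hj) }

/-- `ε ↦ 0` -/
noncomputable def fM (J : Finset (Fin 3)) (j : Fin 3) (hj : j ∈ J) :
    Mor (OD J j hj) (OX J j hj) where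
  φ := TrivSqZeroExt.fstHom ℂ (RR J) (RR J)
  g := (1 : B2 (RR J))
  eq := by
    show P4.smul (1 : B2 (RR J)) (P4.map (TrivSqZeroExt.fstHom ℂ (RR J) (RR J))
      (P4.map (dlog J lamX) (lineOf (vec J j hj) (uni_vec J j hj)))) = _
    rw [P4.one_smul, ← P4.map_comp]
    have h1 : (TrivSqZeroExt.fstHom ℂ (RR J) (RR J)).comp (dlog J lamX) = AlgHom.id ℂ (RR J) :=
      AlgHom.ext fun f => dlog_fst J lamX f
    rw [h1, P4.map_id]
    rfl

lemma fM_sM (J : Finset (Fin 3)) (j : Fin 3) (hj : j ∈ J) :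
    (fM J j hj).comp (sM J j hj) = Mor.id _ := by
  apply Mor.ext'
  · exact AlgHom.ext fun f => dlog_fst J lamX f
  · exact B2.aux3 _

lemma fM_gM (J : Finset (Fin 3)) (j : Fin 3) (hj : j ∈ J) :
    (fM J j hj).comp (gM J j hj) = (P0 J j hj).mor := by
  apply Mor.ext'
  · exact AlgHom.ext fun f => rfl
  · exact B2.aux4 _ _ _ (by
      apply B2.ext
      · apply Units.ext; rfl
      · rfl)

lemma vert_mon (j k : Fin 3) :
    vert j (mon {j} (vecE {j} j (Finset.mem_singleton_self j) k)) = if k = j then 1 else 0 := by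
  rw [vert_eq]
  unfold mon
  rw [coef0_single]
  have : vecE {j} j (Finset.mem_singleton_self j) k = 0 ↔ k = j := by
    constructor
    · intro h
      have h1 : EE k - EE j = 0 := congrArg Subtype.val h
      revert h1
      fin_cases k <;> fin_cases j <;> simp [EE]
    · rintro rfl
      exact vecE_self _ _ _
  simp only [this]

/-- evaluation at the vertex -/
noncomputable def wM (j : Fin 3) : Mor (OD {j} j (Finset.mem_singleton_self j))
    (torusPt (uE ℂ) (idx j)).toObj where
  φ := dmap (vert j)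
  g := (1 : B2 (DualNumber ℂ))
  eq := by
    show P4.smul (1 : B2 (DualNumber ℂ)) (P4.map (dmap (vert j)) (P4.map (dlog {j} lamX)
      (lineOf (vec {j} j (Finset.mem_singleton_self j)) (uni_vec {j} j _)))) =
      lineOf (Pi.single (idx j) 1) (uni_single (idx j))
    rw [P4.one_smul, map_lineOf, map_lineOf]
    apply lineOf_congr
    apply vec_ext
    · intro k
      show dmap (vert j) (dlog {j} lamX (vec {j} j _ (idx k))) = _
      rw [vec_idx, dlog_mon]
      have h1 : ((vecE {j} j (Finset.mem_singleton_self j) k : cone {j}) : ℤ × ℤ) =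
        EE k - EE j := rfl
      rw [h1, lamX_EE]
      apply TrivSqZeroExt.ext
      · rw [dmap_fst, mkD_fst, vert_mon]
        by_cases h : k = j
        · subst h; simp
        · have : idx k ≠ idx j := by
            intro h2; apply h
            revert h2
            fin_cases k <;> fin_cases j <;> simp [idx]
          rw [Pi.single_eq_of_ne this, if_neg h]
          rfl
      · rw [dmap_snd, mkD_snd, map_smul, vert_mon]
        by_cases h : k = j
        · subst h; simp
        · have : idx k ≠ idx j := by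
            intro h2; apply h
            revert h2
            fin_cases k <;> fin_cases j <;> simp [idx]
          rw [Pi.single_eq_of_ne this, if_neg h]
          simp
    · show dmap (vert j) (dlog {j} lamX 0) = _
      rw [map_zero, map_zero]
      fin_cases j <;> rfl
    · show dmap (vert j) (dlog {j} lamX 0) = _
      rw [map_zero, map_zero]
      fin_cases j <;> rfl

lemma wM_gM (j : Fin 3) : (wM j).comp (gM {j} j (Finset.mem_singleton_self j)) =
    (torusPt (uE ℂ) (idx j)).mor.comp ((wM j).comp (sM {j} j (Finset.mem_singleton_self j))) := by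
  apply Mor.ext'
  · refine AlgHom.ext fun f => ?_
    apply TrivSqZeroExt.ext
    · show vert j f = vert j (dlog {j} lamX f).fst
      rw [dlog_fst]
    · show vert j 0 = vert j (dlog {j} lamX f).snd
      rw [map_zero]
      induction f using AddMonoidAlgebra.induction_linear with
      | zero => simp
      | add f g hf hg => rw [map_add, TrivSqZeroExt.snd_add, map_add, ← hf, ← hg, add_zero]
      | single m c =>
        have h1 : (dlog {j} lamX (AddMonoidAlgebra.single m c)).snd =
          DD {j} lamX (AddMonoidAlgebra.single m c) := rfl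
        rw [h1, DD_single, vert_eq, coef0_single]
        split_ifs with h
        · subst h
          simp
        · rfl
  · exact B2.aux5 _ _ _ (gE_map (vert j)) _ _

end Pool.Agent.Helper2.FixK
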